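import Pool.Agent.Lib.HL.Base

/-!
# Hardy-Littlewood for every set of shifts: definitions

`thetaAP x q a` is the sum of `log p` over the primes `p ≤ x` with `p ≡ a mod q`; `SW` is the
Siegel-Walfisz theorem for it, used as a hypothesis until it is proved in `Pool.Agent.Lib.SW`.
-/

set_option autoImplicit false

open Finset Filter

namespace Pool.Agent.HLB

open Pool.Agent.HL Pool.Agent.Lib.Sieve4

/-- Sum of `log p` over the primes `p ≤ x` in the class `a` modulo `q`. -/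
noncomputable def thetaAP (x : ℝ) (q a : ℕ) : ℝ :=
  ∑ p ∈ (Icc 1 ⌊x⌋₊).filter (fun p => p.Prime ∧ p % q = a % q), Real.log p

/-- The Siegel-Walfisz theorem. -/
def SW : Prop := ∀ A : ℕ, ∃ C : ℝ, 0 < C ∧ ∀ x : ℝ, 2 ≤ x → ∀ q a : ℕ, 1 ≤ q →
  (q : ℝ) ≤ Real.log x ^ (A : ℝ) → Nat.Coprime a q →
    |thetaAP x q a - x / (Nat.totient q : ℝ)| ≤ C * x / Real.log x ^ (A : ℝ)

/-- Range of the sieve. -/
noncomputable def zz (r x : ℕ) : ℕ := ⌊Real.log x / (2 * (r + 1))⌋₊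

/-- Number of residue classes modulo `p` occupied by the tuple `t`. -/
def nuI {ι : Type} [Fintype ι] (t : ι → ℕ) (p : ℕ) : ℕ :=
  (univ.image (fun i => ((t i : ℕ) : ZMod p))).card

/-- Local factor of the singular series of the tuple `t`. -/
noncomputable def locI {ι : Type} [Fintype ι] (t : ι → ℕ) (p : ℕ) : ℝ :=
  (1 - (nuI t p : ℝ) / (p : ℝ)) * ((1 - 1 / (p : ℝ))⁻¹) ^ (Fintype.card ι)

/-- Partial singular series over the primes `p ≤ z`. -/
noncomputable def SZ {ι : Type} [Fintype ι] (z : ℕ) (t : ι → ℕ) : ℝ :=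
  ∏ p ∈ Nat.primesLE z, locI t p

/-- `∏_{p ≤ z} (1 - 1/p)`. -/
noncomputable def DZ (z : ℕ) : ℝ := ∏ p ∈ Nat.primesLE z, (1 - 1 / (p : ℝ))

/-- Normalising factor of the sieve weight. -/
noncomputable def bb (r x : ℕ) : ℝ := (DZ (zz r x) * Real.log x)⁻¹

/-- Indicator of the primes. -/
noncomputable def ip (n : ℕ) : ℝ := if n.Prime then 1 else 0

/-- Indicator of the integers without prime factor `≤ z`. -/
noncomputable def ic (z n : ℕ) : ℝ := if ∀ p ∈ Nat.primesLE z, ¬ p ∣ n then 1 else 0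

lemma ip_nonneg (n : ℕ) : 0 ≤ ip n := by unfold ip; split_ifs <;> norm_num
lemma ip_le_one (n : ℕ) : ip n ≤ 1 := by unfold ip; split_ifs <;> norm_num
lemma ic_nonneg (z n : ℕ) : 0 ≤ ic z n := by unfold ic; split_ifs <;> norm_num
lemma ic_le_one (z n : ℕ) : ic z n ≤ 1 := by unfold ic; split_ifs <;> norm_num

lemma DZ_pos (z : ℕ) : 0 < DZ z :=
  Finset.prod_pos fun _ hp => one_sub_inv_pos (Nat.mem_primesLE.1 hp).2

lemma nuI_fin {r : ℕ} (t : Fin r → ℕ) (p : ℕ) : nu (shift 0 1 t) p = nuI t p := by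
  unfold nu nuI shift
  congr 2
  ext i
  push_cast
  ring

lemma locI_fin {r : ℕ} (t : Fin r → ℕ) (p : ℕ) : loc (shift 0 1 t) p = locI t p := by
  unfold loc locI
  rw [nuI_fin, Fintype.card_fin]

lemma nuI_le {ι : Type} [Fintype ι] (t : ι → ℕ) (p : ℕ) : nuI t p ≤ Fintype.card ι := by
  have := Finset.card_image_le (s := (Finset.univ : Finset ι)) (f := fun i => ((t i : ℕ) : ZMod p))
  simpa [nuI] using this

lemma nuI_le_prime {ι : Type} [Fintype ι] (t : ι → ℕ) {p : ℕ} (hp : p.Prime) : nuI t p ≤ p := by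
  have : NeZero p := ⟨hp.ne_zero⟩
  unfold nuI
  refine (Finset.card_le_univ _).trans (le_of_eq ?_)
  rw [ZMod.card]

lemma nuI_pos {ι : Type} [Fintype ι] [Nonempty ι] (t : ι → ℕ) (p : ℕ) : 1 ≤ nuI t p := by
  unfold nuI
  rw [Nat.one_le_iff_ne_zero, Finset.card_ne_zero]
  exact ⟨_, Finset.mem_image_of_mem _ (Finset.mem_univ (Classical.arbitrary ι))⟩

lemma locI_nonneg {ι : Type} [Fintype ι] (t : ι → ℕ) {p : ℕ} (hp : p.Prime) : 0 ≤ locI t p := by
  unfold locI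
  have h1 : (nuI t p : ℝ) ≤ p := by exact_mod_cast nuI_le_prime t hp
  have hp0 : (0:ℝ) < p := by exact_mod_cast hp.pos
  have h2 : (nuI t p : ℝ) / p ≤ 1 := by rw [div_le_one hp0]; exact h1
  have h3 := one_sub_inv_pos hp
  have : 0 ≤ ((1 - 1 / (p:ℝ))⁻¹) ^ (Fintype.card ι) := by positivity
  exact mul_nonneg (by linarith) this

lemma SZ_nonneg {ι : Type} [Fintype ι] (z : ℕ) (t : ι → ℕ) : 0 ≤ SZ z t :=
  Finset.prod_nonneg fun _ hp => locI_nonneg t (Nat.mem_primesLE.1 hp).2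

end Pool.Agent.HLB
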