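import Pool.Agent.Lib.HLB.GridMain

/-!
# Positive proportion for grids
-/

set_option autoImplicit false

open Finset Filter

namespace Pool.Agent.HLB

open Pool.Agent.HL Pool.Agent.Lib.Sieve4

open scoped Classical in
/-- Positive proportion from an average lower bound and individual upper bounds. -/
lemma prop_generic {α : Type} (I : Finset α) (s c : α → ℝ) (adm : α → Prop) {K ρ X N r : ℝ}
    (hK : 0 < K) (hρ0 : 0 < ρ) (hρ : ρ < 1) (hX : 0 < X) (hN : 0 < N) (hr0 : 0 ≤ r)
    (hs : ∀ a ∈ I, 0 ≤ s a) (hup : ∀ a ∈ I, adm a → c a ≤ K * s a * X)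
    (hin : ∀ a ∈ I, ¬ adm a → c a ≤ r)
    (h1 : (1 - (1 - ρ) / 4) * (X * ∑ a ∈ I, s a) ≤ ∑ a ∈ I, c a)
    (h2 : (1 - (1 - ρ) / 4) * (X * N) ≤ ∑ a ∈ I, c a)
    (hcard : (I.card : ℝ) ≤ N) (hx2 : 8 * r / (1 - ρ) ≤ X) (hx2' : 4 * r ≤ X) :
    ∃ G ⊆ I, (∀ a ∈ G, adm a ∧ ρ * s a * X ≤ c a) ∧
      (1 - ρ) / (4 * K) * ∑ a ∈ I, s a ≤ ∑ a ∈ G, s a ∧
      N ≤ 4 * (K + ρ) * ∑ a ∈ I, s a := by
  have hρ' : 0 < 1 - ρ := by linarith
  set SS1 : ℝ := ∑ a ∈ I, s a with hSS1
  set CC : ℝ := ∑ a ∈ I, c a with hCC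
  have hSS0 : 0 ≤ SS1 := Finset.sum_nonneg hs
  set P : α → Prop := fun a => adm a ∧ ρ * s a * X ≤ c a with hP
  set SG : ℝ := ∑ a ∈ I.filter P, s a with hSG
  have hub : CC ≤ K * X * SG + ρ * X * SS1 + r * N := by
    have hpt : ∀ a ∈ I, c a ≤ (if P a then K * X * s a else 0) + ρ * X * s a + r := by
      intro a ha
      have hSI0 := hs a ha
      have hρS : 0 ≤ ρ * X * s a := by positivity
      by_cases hadm : adm a
      · by_cases hPa : P a
        · rw [if_pos hPa]
          have h4 := hup a ha hadm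
          have h5 : K * s a * X = K * X * s a := by ring
          linarith
        · rw [if_neg hPa]
          have h6 : ¬ ρ * s a * X ≤ c a := fun h => hPa ⟨hadm, h⟩
          push Not at h6
          have h7 : ρ * s a * X = ρ * X * s a := by ring
          linarith
      · have h9 := hin a ha hadm
        have h10 : 0 ≤ (if P a then K * X * s a else 0) := by
          split_ifs
          · positivity
          · exact le_refl _
        linarith
    have hsum := Finset.sum_le_sum hpt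
    rw [Finset.sum_add_distrib, Finset.sum_add_distrib, ← Finset.mul_sum, Finset.sum_const,
      nsmul_eq_mul, ← Finset.sum_filter, ← Finset.mul_sum] at hsum
    have h11 : (I.card : ℝ) * r ≤ r * N := by
      rw [mul_comm]
      exact mul_le_mul_of_nonneg_left hcard hr0
    linarith
  have hsmall : r * N ≤ (1 - ρ) / 8 * (X * N) := by
    have h12 : r ≤ (1 - ρ) / 8 * X := by
      have := mul_le_mul_of_nonneg_left hx2 (by positivity : 0 ≤ (1 - ρ) / 8)
      have e : (1 - ρ) / 8 * (8 * r / (1 - ρ)) = r := by field_simp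
      linarith
    calc r * N ≤ ((1 - ρ) / 8 * X) * N := by gcongr
      _ = _ := by ring
  have hXA : 0 < X * N := by positivity
  have hSG0 : 0 ≤ SG := Finset.sum_nonneg fun a ha => hs a (mem_filter.mp ha).1
  have hq : (1 - (1 - ρ) / 4) * (X * N) ≥ (1/2) * (X * N) := by
    have : (1:ℝ)/2 ≤ 1 - (1 - ρ) / 4 := by linarith
    exact mul_le_mul_of_nonneg_right this hXA.le
  have hsmall2 : r * N ≤ (1 - ρ) / 4 * CC := by
    have : X * N ≤ 2 * CC := by linarith
    calc r * N ≤ (1 - ρ) / 8 * (X * N) := hsmall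
      _ ≤ (1 - ρ) / 8 * (2 * CC) := by gcongr
      _ = _ := by ring
  have hA1 : (1 - (1 - ρ) / 4) * CC ≤ K * X * SG + ρ * X * SS1 := by linarith
  have hA2 : (1 - (1 - ρ) / 4) * ((1 - (1 - ρ) / 4) * (X * SS1)) ≤ (1 - (1 - ρ) / 4) * CC :=
    mul_le_mul_of_nonneg_left h1 (by linarith)
  have hA3 : (1 - ρ) / 4 * (X * SS1) ≤ K * X * SG := by
    have hXS : 0 ≤ X * SS1 := by positivity
    have h13 : (1 - (1 - ρ) / 4) * ((1 - (1 - ρ) / 4) * (X * SS1))
        ≥ (1 - (1 - ρ) / 2) * (X * SS1) := by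
      have : (1 - (1 - ρ) / 4) * (1 - (1 - ρ) / 4) ≥ 1 - (1 - ρ) / 2 := by nlinarith
      nlinarith
    have h14 : (1 - (1 - ρ) / 2) * (X * SS1) - ρ * X * SS1 = (1 - ρ) / 2 * (X * SS1) := by ring
    have h15 : (1 - ρ) / 4 * (X * SS1) ≤ (1 - ρ) / 2 * (X * SS1) := by
      refine mul_le_mul_of_nonneg_right ?_ hXS
      linarith
    linarith
  have hB1 : (1 - ρ) / (4 * K) * SS1 ≤ SG := by
    rw [div_mul_eq_mul_div, div_le_iff₀ (by positivity)]
    have h16 : X * ((1 - ρ) * SS1) ≤ X * (SG * (4 * K)) := by nlinarith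
    exact le_of_mul_le_mul_left h16 hX
  have hB2 : N ≤ 4 * (K + ρ) * SS1 := by
    have hSGle : SG ≤ SS1 := Finset.sum_le_sum_of_subset_of_nonneg (Finset.filter_subset _ _)
      fun a ha _ => hs a ha
    have h17 : (1/2) * (X * N) ≤ (K + ρ) * X * SS1 + r * N := by
      have : K * X * SG ≤ K * X * SS1 := by gcongr
      linarith
    have h18 : r * N ≤ (1/4) * (X * N) := by
      have : r ≤ (1/4) * X := by linarith
      calc r * N ≤ ((1/4) * X) * N := by gcongr
        _ = _ := by ring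
    have h19 : X * N ≤ X * (4 * (K + ρ) * SS1) := by nlinarith
    exact le_of_mul_le_mul_left h19 hX
  exact ⟨I.filter P, Finset.filter_subset _ _, fun a ha => (mem_filter.mp ha).2, hB1, hB2⟩

lemma tendsto_x_div_log_pow (r : ℕ) :
    Tendsto (fun x : ℕ => (x:ℝ) / Real.log x ^ r) atTop atTop := by
  have h1 : Tendsto (fun x : ℝ => x / Real.log x ^ r) atTop atTop := by
    have h2 := (Real.isLittleO_pow_log_id_atTop (n := r)).tendsto_div_nhds_zero
    have h3 : Tendsto (fun x : ℝ => Real.log x ^ r / x) atTop (nhdsWithin 0 (Set.Ioi 0)) := by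
      rw [tendsto_nhdsWithin_iff]
      refine ⟨h2, ?_⟩
      filter_upwards [eventually_gt_atTop 1] with x hx
      have := Real.log_pos hx
      exact Set.mem_Ioi.mpr (by positivity)
    have h4 := h3.inv_tendsto_nhdsGT_zero
    refine h4.congr fun x => ?_
    simp
  exact h1.comp tendsto_natCast_atTop_atTop

open scoped Classical in
/-- Positive proportion for grids. -/
theorem grid_proportion (hSW : SW) (d k : ℕ) (hd : 1 ≤ d) {ρ : ℝ} (hρ0 : 0 < ρ) (hρ : ρ < 1) :
    ∃ δ η : ℝ, 0 < δ ∧ 0 < η ∧ ∀ᶠ x : ℕ in atTop, ∀ T : Fin d → Finset ℕ,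
      (∀ j, ∀ a ∈ T j, (a : ℝ) ≤ η * x) →
      (∀ j, Real.log x ^ ((k + 1) ^ d + 1) ≤ (T j).card) →
      ∃ G ⊆ (gtup d k T).filter (fun a => Function.Injective (gsum a)),
        (∀ a ∈ G, (∀ p : ℕ, p.Prime → nuI (gsum a) p < p) ∧
          ρ * SI (gsum a) * (x / Real.log x ^ ((k + 1) ^ d)) ≤ cnt (gsum a) x) ∧
        δ * ∑ a ∈ (gtup d k T).filter (fun a => Function.Injective (gsum a)), SI (gsum a)
          ≤ ∑ a ∈ G, SI (gsum a) ∧
        δ * (gtup d k T).card ≤ ∑ a ∈ G, SI (gsum a) := by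
  set r : ℕ := (k + 1) ^ d with hr
  have hr1 : 1 ≤ r := Nat.one_le_pow _ _ (by omega)
  obtain ⟨K, hK, hKup⟩ := tuple_upperI r hr1
  have hρ' : 0 < 1 - ρ := by linarith
  obtain ⟨η, hη, hmain⟩ := grid_lower hSW d k hd (ε := (1 - ρ) / 4) (by linarith)
  refine ⟨(1 - ρ) / (4 * K) / max 1 (4 * (K + ρ)), η, by positivity, hη, ?_⟩
  filter_upwards [hmain, (tendsto_x_div_log_pow r).eventually_ge_atTop (8 * r / (1 - ρ)),
    (tendsto_x_div_log_pow r).eventually_ge_atTop (4 * r), eventually_ge_atTop 3]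
    with x hx1 hx2 hx2' hx3 T hT hTcard
  have hx3R : (3:ℝ) ≤ x := by exact_mod_cast hx3
  have hlog : 0 < Real.log x := Real.log_pos (by linarith)
  have hxpos : (0:ℝ) < x := by linarith
  have hcard : 0 < ((gtup d k T).card : ℝ) := by
    have : 0 < (gtup d k T).card := by
      rw [card_gtup]
      refine Finset.prod_pos fun j _ => pow_pos ?_ _
      have h := hTcard j
      have h2 : 0 < ((T j).card : ℝ) := lt_of_lt_of_le (by positivity) h
      exact_mod_cast h2
    exact_mod_cast this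
  obtain ⟨h1, h2⟩ := hx1 T hT hTcard
  obtain ⟨G, hG, hGa, hG1, hG2⟩ := prop_generic
    ((gtup d k T).filter (fun a => Function.Injective (gsum a)))
    (fun a => SI (gsum a)) (fun a => (cnt (gsum a) x : ℝ))
    (fun a => ∀ p : ℕ, p.Prime → nuI (gsum a) p < p) (K := K) (ρ := ρ)
    (X := x / Real.log x ^ r) (N := ((gtup d k T).card : ℝ)) (r := (r : ℝ)) hK hρ0 hρ
    (by positivity) hcard (by positivity)
    (fun a ha => SI_nonneg _ (mem_filter.mp ha).2)
    (fun a ha hadm => hKup _ (gsum a) (card_grid_index d k) (mem_filter.mp ha).2 hadm x (by omega))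
    (fun a ha hadm => by
      push Not at hadm
      obtain ⟨p, hp, hnp⟩ := hadm
      have h8 := count_inadm (gsum a) hp hnp x
      rw [card_grid_index] at h8
      exact_mod_cast h8)
    h1 h2 (by exact_mod_cast Finset.card_filter_le _ _) hx2 hx2'
  refine ⟨G, hG, hGa, ?_, ?_⟩
  · refine le_trans ?_ hG1
    refine mul_le_mul_of_nonneg_right ?_ (Finset.sum_nonneg fun a ha => SI_nonneg _ (mem_filter.mp ha).2)
    exact div_le_self (by positivity) (le_max_left _ _)
  · refine le_trans ?_ hG1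
    rw [div_mul_eq_mul_div, div_le_iff₀ (by positivity)]
    have hS0 : 0 ≤ ∑ a ∈ (gtup d k T).filter (fun a => Function.Injective (gsum a)), SI (gsum a) :=
      Finset.sum_nonneg fun a ha => SI_nonneg _ (mem_filter.mp ha).2
    calc (1 - ρ) / (4 * K) * ((gtup d k T).card : ℝ)
        ≤ (1 - ρ) / (4 * K) * (4 * (K + ρ) *
          ∑ a ∈ (gtup d k T).filter (fun a => Function.Injective (gsum a)), SI (gsum a)) := by gcongr
      _ ≤ (1 - ρ) / (4 * K) * (max 1 (4 * (K + ρ)) *
          ∑ a ∈ (gtup d k T).filter (fun a => Function.Injective (gsum a)), SI (gsum a)) := by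
          gcongr
          exact le_max_right _ _
      _ = _ := by ring

end Pool.Agent.HLB
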