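import Pool.Agent.Lib.HLB.CLLower

/-!
# Correlations of sieve weights, upper bound by the full Legendre sieve

`legendre`: inclusion-exclusion over all subsets `s` of `P = primesLE z`; each inner count is
`x ∏ |Ω q| / q + O(∏ |Ω q|)`, total error `≤ ∏_{q ∈ P} (1 + |Ω q|) ≤ (1 + r) ^ z`.
`cl_upper`: `Ω q := the residues c ∈ range q with c ≡ - t i mod q for some i`, `|Ω q| = nuI t q`.
-/

set_option autoImplicit false

open Finset Filter

namespace Pool.Agent.HLB

open Pool.Agent.Lib.Sieve4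

lemma abs_count_class (x d b : ℕ) (hd : 0 < d) (hb : b < d) :
    |(((Icc 1 x).filter (fun n => n % d = b)).card : ℝ) - x / d| ≤ 1 := by
  have h1 : (Icc 1 x).filter (fun n => n % d = b) = (Ioc 0 x).filter (fun n => n ≡ b [MOD d]) := by
    ext n
    simp only [mem_filter, mem_Icc, mem_Ioc, Nat.ModEq, Nat.mod_eq_of_lt hb]
    constructor
    · rintro ⟨⟨h1, h2⟩, h3⟩; exact ⟨⟨h1, h2⟩, h3⟩
    · rintro ⟨⟨h1, h2⟩, h3⟩; exact ⟨⟨h1, h2⟩, h3⟩
  have h2 := Nat.Ioc_filter_modEq_card 0 x hd b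
  rw [h1]
  set N := ((Ioc 0 x).filter (fun n => n ≡ b [MOD d])).card with hN
  have hdq : (0 : ℚ) < d := by exact_mod_cast hd
  have f1 := Int.floor_le (((x : ℚ) - b) / d)
  have f2 := Int.lt_floor_add_one (((x : ℚ) - b) / d)
  have f3 := Int.floor_le (((0 : ℕ) - b : ℚ) / d)
  have f4 := Int.lt_floor_add_one (((0 : ℕ) - b : ℚ) / d)
  have hle : ⌊((0 : ℕ) - b : ℚ) / d⌋ ≤ ⌊((x : ℚ) - b) / d⌋ := by
    apply Int.floor_le_floor
    apply div_le_div_of_nonneg_right _ hdq.le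
    have : (0 : ℚ) ≤ x := Nat.cast_nonneg _
    push_cast
    linarith
  rw [max_eq_left (by linarith)] at h2
  have h3 : (N : ℚ) = (⌊((x : ℚ) - b) / d⌋ : ℚ) - (⌊((0 : ℕ) - b : ℚ) / d⌋ : ℚ) := by
    exact_mod_cast h2
  have h4 : |(N : ℚ) - x / d| ≤ 1 := by
    have e1 : ((x : ℚ) - b) / d - (((0 : ℕ) - b : ℚ) / d) = x / d := by
      push_cast
      rw [← sub_div]
      congr 1
      ring
    rw [abs_le]
    constructor <;> · rw [h3]; linarith
  have h5 : ((|(N : ℚ) - x / d| : ℚ) : ℝ) ≤ ((1 : ℚ) : ℝ) := by exact_mod_cast h4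
  push_cast at h5
  exact h5

/-- Sum of a periodic function over `[1, x]`. -/
lemma abs_sum_periodic (x d : ℕ) (hd : 0 < d) (F : ℕ → ℝ) (hF : ∀ n, F (n % d) = F n) :
    |∑ n ∈ Icc 1 x, F n - x / d * ∑ b ∈ range d, F b| ≤ ∑ b ∈ range d, |F b| := by
  have h1 : ∑ n ∈ Icc 1 x, F n =
      ∑ b ∈ range d, (((Icc 1 x).filter (fun n => n % d = b)).card : ℝ) * F b := by
    rw [← Finset.sum_fiberwise_of_maps_to (s := Icc 1 x) (t := range d) (g := fun n => n % d)
      (fun n _ => mem_range.2 (Nat.mod_lt _ hd))]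
    refine Finset.sum_congr rfl fun b _ => ?_
    have h2 : ∀ n ∈ (Icc 1 x).filter (fun n => n % d = b), F n = F b := by
      intro n hn
      rw [← hF n, (mem_filter.1 hn).2]
    rw [Finset.sum_congr rfl h2, Finset.sum_const, nsmul_eq_mul]
  rw [h1, Finset.mul_sum, ← Finset.sum_sub_distrib]
  refine (Finset.abs_sum_le_sum_abs _ _).trans (Finset.sum_le_sum fun b hb => ?_)
  rw [← sub_mul, abs_mul]
  have h2 := abs_count_class x d b hd (mem_range.1 hb)
  calc _ ≤ 1 * |F b| := mul_le_mul_of_nonneg_right h2 (abs_nonneg _)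
    _ = |F b| := one_mul _

theorem legendre (r z x : ℕ) (Om : ℕ → Finset ℕ)
    (hOm : ∀ q ∈ Nat.primesLE z, Om q ⊆ range q ∧ (Om q).card ≤ r) :
    (((Icc 1 x).filter (fun n => ∀ q ∈ Nat.primesLE z, n % q ∉ Om q)).card : ℝ)
      ≤ x * ∏ q ∈ Nat.primesLE z, (1 - ((Om q).card : ℝ) / (q : ℝ)) + (1 + (r : ℝ)) ^ z := by
  classical
  set P := Nat.primesLE z with hP
  have hPp : ∀ q ∈ P, q.Prime := fun q hq => (Nat.mem_primesLE.1 hq).2
  set h : ℕ → ℕ → ℝ := fun q a => if a ∈ Om q then 1 else 0 with hh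
  -- the indicator
  have h1 : (((Icc 1 x).filter (fun n => ∀ q ∈ P, n % q ∉ Om q)).card : ℝ) =
      ∑ n ∈ Icc 1 x, ∏ q ∈ P, (-h q (n % q) + 1) := by
    rw [Finset.card_filter]
    push_cast
    refine Finset.sum_congr rfl fun n _ => ?_
    split_ifs with hn
    · symm
      refine Finset.prod_eq_one fun q hq => ?_
      simp [hh, hn q hq]
    · push Not at hn
      obtain ⟨q, hq, hq2⟩ := hn
      symm
      refine Finset.prod_eq_zero hq ?_
      simp [hh, hq2]
  have h2 : ∀ n, ∏ q ∈ P, (-h q (n % q) + 1) =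
      ∑ s ∈ P.powerset, (-1) ^ s.card * ∏ q ∈ s, h q (n % q) := by
    intro n
    rw [Finset.prod_add]
    refine Finset.sum_congr rfl fun s _ => ?_
    rw [Finset.prod_const_one, mul_one, Finset.prod_neg]
  -- the main term
  have h3 : x * ∏ q ∈ P, (1 - ((Om q).card : ℝ) / (q : ℝ)) =
      ∑ s ∈ P.powerset, (-1) ^ s.card * (x * ∏ q ∈ s, (((Om q).card : ℝ) / (q : ℝ))) := by
    have h4 : ∏ q ∈ P, (1 - ((Om q).card : ℝ) / (q : ℝ)) =
        ∏ q ∈ P, (-(((Om q).card : ℝ) / (q : ℝ)) + 1) := by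
      refine Finset.prod_congr rfl fun q _ => by ring
    rw [h4, Finset.prod_add, Finset.mul_sum]
    refine Finset.sum_congr rfl fun s _ => ?_
    rw [Finset.prod_const_one, mul_one, Finset.prod_neg]
    ring
  have hsumF : ∀ q ∈ P, ∑ a ∈ range q, h q a = (Om q).card := by
    intro q hq
    simp only [hh]
    rw [Finset.sum_ite_mem, Finset.inter_eq_right.2 (hOm q hq).1]
    simp
  -- the inner count
  have h4 : ∀ s ∈ P.powerset, |∑ n ∈ Icc 1 x, ∏ q ∈ s, h q (n % q) -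
      x * ∏ q ∈ s, (((Om q).card : ℝ) / (q : ℝ))| ≤ ∏ q ∈ s, ((Om q).card : ℝ) := by
    intro s hs
    have hsP := mem_powerset.1 hs
    have hsp : ∀ p ∈ s, p.Prime := fun p hp => hPp p (hsP hp)
    have hdpos : 0 < ∏ q ∈ s, q := Finset.prod_pos fun p hp => (hsp p hp).pos
    have h5 := abs_sum_periodic x (∏ q ∈ s, q) hdpos (fun n => ∏ q ∈ s, h q (n % q)) (by
      intro n
      refine Finset.prod_congr rfl fun q hq => ?_
      rw [Nat.mod_mod_of_dvd _ (Finset.dvd_prod_of_mem _ hq)])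
    have h6 : ∑ b ∈ range (∏ q ∈ s, q), ∏ q ∈ s, h q (b % q) = ∏ q ∈ s, ((Om q).card : ℝ) := by
      rw [sum_range_prod_crt s hsp h]
      exact Finset.prod_congr rfl fun q hq => hsumF q (hsP hq)
    have h7 : ∑ b ∈ range (∏ q ∈ s, q), |∏ q ∈ s, h q (b % q)| = ∏ q ∈ s, ((Om q).card : ℝ) := by
      rw [← h6]
      refine Finset.sum_congr rfl fun b _ => ?_
      refine abs_of_nonneg (Finset.prod_nonneg fun q _ => ?_)
      simp only [hh]
      split_ifs <;> norm_num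
    rw [h6, h7] at h5
    have h8 : (x : ℝ) / ((∏ q ∈ s, q : ℕ) : ℝ) * ∏ q ∈ s, ((Om q).card : ℝ) =
        x * ∏ q ∈ s, (((Om q).card : ℝ) / (q : ℝ)) := by
      rw [Finset.prod_div_distrib]
      push_cast
      ring
    rw [h8] at h5
    exact h5
  have h5 : ∑ n ∈ Icc 1 x, ∏ q ∈ P, (-h q (n % q) + 1) =
      ∑ s ∈ P.powerset, (-1) ^ s.card * ∑ n ∈ Icc 1 x, ∏ q ∈ s, h q (n % q) := by
    rw [Finset.sum_congr rfl fun n _ => h2 n, Finset.sum_comm]
    refine Finset.sum_congr rfl fun s _ => ?_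
    rw [Finset.mul_sum]
  have h6 : ∑ s ∈ P.powerset, ∏ q ∈ s, ((Om q).card : ℝ) ≤ (1 + (r : ℝ)) ^ z := by
    have h7 : ∏ q ∈ P, (((Om q).card : ℝ) + 1) = ∑ s ∈ P.powerset, ∏ q ∈ s, ((Om q).card : ℝ) := by
      rw [Finset.prod_add]
      refine Finset.sum_congr rfl fun s _ => ?_
      rw [Finset.prod_const_one, mul_one]
    rw [← h7]
    calc ∏ q ∈ P, (((Om q).card : ℝ) + 1) ≤ ∏ _q ∈ P, (1 + (r : ℝ)) := by
          refine Finset.prod_le_prod (fun q _ => by positivity) fun q hq => ?_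
          have : ((Om q).card : ℝ) ≤ r := by exact_mod_cast (hOm q hq).2
          linarith
      _ = (1 + (r : ℝ)) ^ P.card := by rw [Finset.prod_const]
      _ ≤ (1 + (r : ℝ)) ^ z := by
          apply pow_le_pow_right₀
          · have : (0 : ℝ) ≤ r := Nat.cast_nonneg _
            linarith
          · have h8 : P ⊆ Icc 1 z := by
              intro q hq
              have := Nat.mem_primesLE.1 hq
              exact mem_Icc.2 ⟨this.2.one_lt.le, this.1⟩
            have := Finset.card_le_card h8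
            simpa using this
  rw [h1, h5, h3]
  have h7 : ∑ s ∈ P.powerset, (-1) ^ s.card * ∑ n ∈ Icc 1 x, ∏ q ∈ s, h q (n % q) -
      ∑ s ∈ P.powerset, (-1) ^ s.card * (x * ∏ q ∈ s, (((Om q).card : ℝ) / (q : ℝ))) ≤
      ∑ s ∈ P.powerset, ∏ q ∈ s, ((Om q).card : ℝ) := by
    rw [← Finset.sum_sub_distrib]
    refine Finset.sum_le_sum fun s hs => ?_
    rw [← mul_sub]
    refine (le_abs_self _).trans ?_
    rw [abs_mul, abs_pow, abs_neg, abs_one, one_pow, one_mul]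
    exact h4 s hs
  linarith

/-- The residues `c` with `c ≡ - t i` for some `i`. -/
noncomputable def Omt {ι : Type} [Fintype ι] (t : ι → ℕ) (q : ℕ) : Finset ℕ := by
  classical
  exact (range q).filter (fun c => ∃ i, q ∣ c + t i)

lemma card_Omt {ι : Type} [Fintype ι] (t : ι → ℕ) {q : ℕ} (hq : q.Prime) :
    (Omt t q).card = nuI t q := by
  classical
  have : NeZero q := ⟨hq.ne_zero⟩
  unfold Omt nuI
  refine Finset.card_bij (fun c _ => -(c : ZMod q)) ?_ ?_ ?_
  · intro c hc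
    obtain ⟨hc1, i, hi⟩ := mem_filter.1 hc
    refine mem_image.2 ⟨i, mem_univ _, ?_⟩
    rw [← ZMod.natCast_eq_zero_iff] at hi
    push_cast at hi
    linear_combination hi
  · intro a ha b hb hab
    have h1 : (a : ZMod q) = (b : ZMod q) := neg_injective hab
    rw [ZMod.natCast_eq_natCast_iff'] at h1
    have ha' := mem_range.1 (mem_filter.1 ha).1
    have hb' := mem_range.1 (mem_filter.1 hb).1
    rwa [Nat.mod_eq_of_lt ha', Nat.mod_eq_of_lt hb'] at h1
  · intro u hu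
    obtain ⟨i, _, hi⟩ := mem_image.1 hu
    refine ⟨(-u).val, mem_filter.2 ⟨mem_range.2 (ZMod.val_lt _), i, ?_⟩, ?_⟩
    · rw [← ZMod.natCast_eq_zero_iff]
      push_cast
      rw [ZMod.natCast_val, ZMod.cast_id', id, hi]
      ring
    · rw [ZMod.natCast_val, ZMod.cast_id', id, neg_neg]

lemma prod_ic_cu {ι : Type} [Fintype ι] (t : ι → ℕ) (z n : ℕ) :
    ∏ i, ic z (n + t i) = if ∀ q ∈ Nat.primesLE z, n % q ∉ Omt t q then 1 else 0 := by
  classical
  have key : ∀ q ∈ Nat.primesLE z, (n % q ∈ Omt t q ↔ ∃ i, q ∣ n + t i) := by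
    intro q hq
    have hq' := (Nat.mem_primesLE.1 hq).2
    unfold Omt
    rw [mem_filter, mem_range]
    constructor
    · rintro ⟨_, i, hi⟩
      refine ⟨i, ?_⟩
      rw [Nat.dvd_iff_mod_eq_zero] at hi ⊢
      rw [← hi, Nat.add_mod (n % q), Nat.mod_mod, ← Nat.add_mod]
    · rintro ⟨i, hi⟩
      refine ⟨Nat.mod_lt _ hq'.pos, i, ?_⟩
      rw [Nat.dvd_iff_mod_eq_zero] at hi ⊢
      rw [Nat.add_mod (n % q), Nat.mod_mod, ← Nat.add_mod, hi]
  split_ifs with h
  · refine Finset.prod_eq_one fun i _ => ?_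
    unfold ic
    rw [if_pos]
    intro p hp hd
    exact h p hp ((key p hp).2 ⟨i, hd⟩)
  · push Not at h
    obtain ⟨q, hq, hq2⟩ := h
    obtain ⟨i, hi⟩ := (key q hq).1 hq2
    refine Finset.prod_eq_zero (mem_univ i) ?_
    unfold ic
    rw [if_neg]
    intro h2
    exact h2 q hq hi

lemma SZ_eq {ι : Type} [Fintype ι] (z : ℕ) (t : ι → ℕ) :
    SZ z t = (∏ p ∈ Nat.primesLE z, (1 - (nuI t p : ℝ) / (p : ℝ))) *
      ((DZ z)⁻¹) ^ (Fintype.card ι) := by
  unfold SZ locI DZ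
  rw [Finset.prod_mul_distrib, Finset.prod_pow, Finset.prod_inv_distrib]

theorem cl_upper (r M : ℕ) :
    ∀ᶠ x : ℕ in atTop, ∀ (ι : Type) [Fintype ι] [DecidableEq ι] (t : ι → ℕ),
      Fintype.card ι = r →
      bb r x ^ r * ∑ n ∈ Icc 1 x, ∏ i, ic (zz r x) (n + t i)
        ≤ (x / Real.log x ^ r) * SZ (zz r x) t + x / Real.log x ^ M := by
  have hlog : ∀ᶠ x : ℕ in atTop, Real.log x ^ M ≤ (x : ℝ) ^ (1 / 2 : ℝ) := by
    have h1 := isLittleO_log_rpow_atTop (r := 1 / (2 * ((M : ℝ) + 1))) (by positivity)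
    have h2 := (h1.comp_tendsto tendsto_natCast_atTop_atTop).bound (c := 1) one_pos
    filter_upwards [h2, eventually_ge_atTop 3] with x hx hx3
    have hx1 : (1 : ℝ) ≤ x := by exact_mod_cast (by omega : 1 ≤ x)
    have hl0 : 0 ≤ Real.log x := Real.log_nonneg hx1
    simp only [Function.comp_apply, Real.norm_eq_abs, one_mul] at hx
    rw [abs_of_nonneg hl0, abs_of_nonneg (by positivity)] at hx
    calc Real.log x ^ M ≤ ((x : ℝ) ^ (1 / (2 * ((M : ℝ) + 1)))) ^ M :=
          pow_le_pow_left₀ hl0 hx M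
      _ = (x : ℝ) ^ (1 / (2 * ((M : ℝ) + 1)) * M) := by
          rw [← Real.rpow_natCast, ← Real.rpow_mul (by positivity)]
      _ ≤ (x : ℝ) ^ (1 / 2 : ℝ) := by
          apply Real.rpow_le_rpow_of_exponent_le hx1
          have hM : (0 : ℝ) ≤ M := Nat.cast_nonneg _
          rw [div_mul_eq_mul_div, one_mul, div_le_div_iff₀ (by positivity) (by positivity)]
          nlinarith
  filter_upwards [hlog, bb_le_one r, eventually_ge_atTop 3] with x hx hbb hx3
  intro ι _ _ t hr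
  have hx1 : (1 : ℝ) < x := by exact_mod_cast (by omega : 1 < x)
  have hx0 : (0 : ℝ) < x := by linarith
  have hl0 : 0 < Real.log x := Real.log_pos hx1
  set z := zz r x with hz
  have hD := DZ_pos z
  have hbb0 : 0 ≤ bb r x := by
    unfold bb
    positivity
  have h1 : ∑ n ∈ Icc 1 x, ∏ i, ic z (n + t i) =
      (((Icc 1 x).filter (fun n => ∀ q ∈ Nat.primesLE z, n % q ∉ Omt t q)).card : ℝ) := by
    rw [Finset.card_filter]
    push_cast
    exact Finset.sum_congr rfl fun n _ => prod_ic_cu t z n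
  have h2 := legendre r z x (Omt t) (by
    intro q hq
    have hq' := (Nat.mem_primesLE.1 hq).2
    refine ⟨?_, ?_⟩
    · unfold Omt
      exact filter_subset _ _
    · rw [card_Omt t hq', ← hr]
      exact nuI_le t q)
  have h3 : ∏ q ∈ Nat.primesLE z, (1 - ((Omt t q).card : ℝ) / (q : ℝ)) =
      ∏ q ∈ Nat.primesLE z, (1 - (nuI t q : ℝ) / (q : ℝ)) := by
    refine Finset.prod_congr rfl fun q hq => ?_
    rw [card_Omt t (Nat.mem_primesLE.1 hq).2]
  rw [h3] at h2
  rw [h1]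
  have h4 : bb r x ^ r * (x * ∏ q ∈ Nat.primesLE z, (1 - (nuI t q : ℝ) / (q : ℝ))) =
      (x / Real.log x ^ r) * SZ z t := by
    rw [SZ_eq, hr]
    unfold bb
    rw [← hz, mul_inv, mul_pow]
    have : Real.log x ≠ 0 := hl0.ne'
    rw [div_eq_mul_inv, ← inv_pow]
    ring
  have h5 : (1 + (r : ℝ)) ^ z ≤ (x : ℝ) ^ (1 / 2 : ℝ) := by
    have hr0 : (0 : ℝ) ≤ r := Nat.cast_nonneg _
    have h6 : (1 + (r : ℝ)) ≤ Real.exp r := by
      have := Real.add_one_le_exp (r : ℝ)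
      linarith
    have h7 : (z : ℝ) ≤ Real.log x / (2 * (r + 1)) := by
      rw [hz]
      unfold zz
      exact Nat.floor_le (by positivity)
    calc (1 + (r : ℝ)) ^ z ≤ (Real.exp r) ^ z := pow_le_pow_left₀ (by linarith) h6 z
      _ = Real.exp (r * z) := by rw [← Real.exp_nat_mul]; ring_nf
      _ ≤ Real.exp (Real.log x * (1 / 2)) := by
          apply Real.exp_le_exp.2
          calc (r : ℝ) * z ≤ r * (Real.log x / (2 * (r + 1))) :=
                mul_le_mul_of_nonneg_left h7 hr0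
            _ ≤ (r + 1) * (Real.log x / (2 * (r + 1))) := by
                apply mul_le_mul_of_nonneg_right (by linarith) (by positivity)
            _ = Real.log x * (1 / 2) := by field_simp
      _ = (x : ℝ) ^ (1 / 2 : ℝ) := by
          rw [Real.rpow_def_of_pos hx0]
  have h6 : (x : ℝ) ^ (1 / 2 : ℝ) ≤ x / Real.log x ^ M := by
    rw [le_div_iff₀ (by positivity)]
    calc (x : ℝ) ^ (1 / 2 : ℝ) * Real.log x ^ M ≤ (x : ℝ) ^ (1 / 2 : ℝ) * (x : ℝ) ^ (1 / 2 : ℝ) :=
          mul_le_mul_of_nonneg_left hx (by positivity)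
      _ = x := by
          rw [← Real.rpow_add hx0]
          norm_num
  calc bb r x ^ r * (((Icc 1 x).filter (fun n => ∀ q ∈ Nat.primesLE z, n % q ∉ Omt t q)).card : ℝ)
      ≤ bb r x ^ r * (x * ∏ q ∈ Nat.primesLE z, (1 - (nuI t q : ℝ) / (q : ℝ)) +
          (1 + (r : ℝ)) ^ z) := mul_le_mul_of_nonneg_left h2 (by positivity)
    _ = (x / Real.log x ^ r) * SZ z t + bb r x ^ r * (1 + (r : ℝ)) ^ z := by
        rw [mul_add, h4]
    _ ≤ (x / Real.log x ^ r) * SZ z t + x / Real.log x ^ M := by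
        have h7 : bb r x ^ r ≤ 1 := pow_le_one₀ hbb0 hbb
        have h8 : bb r x ^ r * (1 + (r : ℝ)) ^ z ≤ 1 * (1 + (r : ℝ)) ^ z :=
          mul_le_mul_of_nonneg_right h7 (by positivity)
        linarith

end Pool.Agent.HLB
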