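import Mathlib

/-!
# Convexity for grids

`gtup d k T` is the set of families `a j l ∈ T j`, `j < d`, `l ≤ k`; `gsum a i = ∑ j, a j (i j)` for
`i : Fin d → Fin (k+1)`. Induction on `d`, separating the coordinate `0`.
-/

set_option autoImplicit false

open Finset

namespace Pool.Agent.HLB

/-- Families of `k+1` elements in each of the sets `T j`. -/
def gtup (d k : ℕ) (T : Fin d → Finset ℕ) : Finset (Fin d → Fin (k + 1) → ℕ) :=
  Fintype.piFinset (fun j => Fintype.piFinset (fun _ : Fin (k + 1) => T j))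

/-- The grid of sums. -/
def gsum {d k : ℕ} (a : Fin d → Fin (k + 1) → ℕ) (i : Fin d → Fin (k + 1)) : ℕ :=
  ∑ j, a j (i j)

lemma grid_prod_cons (d k : ℕ) (f : (Fin (d + 1) → Fin (k + 1)) → ℝ) :
    ∏ i, f i = ∏ i0 : Fin (k + 1), ∏ i' : Fin d → Fin (k + 1),
      f (Fin.cons (α := fun _ => Fin (k + 1)) i0 i') := by
  rw [← Fintype.prod_prod_type', ← (Fin.consEquiv (fun _ : Fin (d + 1) => Fin (k + 1))).prod_comp]
  rfl

lemma grid_sum_cons (d k : ℕ) (T : Fin (d + 1) → Finset ℕ)
    (f : (Fin (d + 1) → Fin (k + 1) → ℕ) → ℝ) :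
    ∑ a ∈ gtup (d + 1) k T, f a
      = ∑ a0 ∈ Fintype.piFinset (fun _ : Fin (k + 1) => T 0),
          ∑ a' ∈ gtup d k (fun j => T j.succ),
            f (Fin.cons (α := fun _ => Fin (k + 1) → ℕ) a0 a') := by
  rw [← Finset.sum_product']
  refine Finset.sum_nbij' (fun a => (a 0, fun j => a j.succ))
    (fun p => Fin.cons (α := fun _ => Fin (k + 1) → ℕ) p.1 p.2) ?_ ?_ ?_ ?_ ?_
  · intro a ha
    unfold gtup at ha
    rw [Fintype.mem_piFinset] at ha
    rw [Finset.mem_product]
    refine ⟨ha 0, ?_⟩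
    unfold gtup
    rw [Fintype.mem_piFinset]
    exact fun j => ha j.succ
  · intro p hp
    rw [Finset.mem_product] at hp
    unfold gtup at hp ⊢
    rw [Fintype.mem_piFinset] at hp ⊢
    intro j
    refine Fin.cases ?_ ?_ j
    · rw [Fin.cons_zero]; exact Fintype.mem_piFinset.mpr hp.1
    · intro j
      rw [Fin.cons_succ]
      exact (Fintype.mem_piFinset.mp hp.2) j
  · intro a _
    exact Fin.cons_self_tail a
  · intro p _
    simp
  · intro a _
    congr 1
    exact (Fin.cons_self_tail a).symm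

lemma gsum_cons {d k : ℕ} (a0 : Fin (k + 1) → ℕ) (a' : Fin d → Fin (k + 1) → ℕ)
    (i0 : Fin (k + 1)) (i' : Fin d → Fin (k + 1)) :
    gsum (Fin.cons (α := fun _ => Fin (k + 1) → ℕ) a0 a')
      (Fin.cons (α := fun _ => Fin (k + 1)) i0 i') = a0 i0 + gsum a' i' := by
  simp [gsum, Fin.sum_univ_succ]

lemma mul_prod_erase_eq {ι : Type*} [Fintype ι] [DecidableEq ι] (z : ι) (p b : ι → ℝ) :
    p z * ∏ i ∈ univ.erase z, b i = ∏ i, (if i = z then p i else b i) := by
  rw [← Finset.mul_prod_erase univ (fun i => if i = z then p i else b i) (Finset.mem_univ z)]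
  congr 1
  · simp
  · apply Finset.prod_congr rfl
    intro i hi
    rw [Finset.mem_erase] at hi
    rw [if_neg hi.1]

lemma tangent (k : ℕ) (x u : ℝ) (hx : 0 ≤ x) (hu : 0 ≤ u) :
    ((k : ℝ) + 1) * (x * u ^ k - u ^ (k + 1)) ≤ x ^ (k + 1) - u ^ (k + 1) := by
  induction k with
  | zero => simp
  | succ k ih =>
    -- x^{k+2} - u^{k+2} - (k+2)(x u^{k+1} - u^{k+2}) =
    have h1 := mul_le_mul_of_nonneg_right ih hx
    have hk : (0:ℝ) ≤ (k:ℝ) + 1 := by positivity
    have hu' : 0 ≤ u ^ k := pow_nonneg hu k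
    have h2 : 0 ≤ ((k:ℝ) + 1) * (u ^ k * (x - u) ^ 2) := by positivity
    push_cast
    have e1 : (x ^ (k + 1) - u ^ (k + 1)) * x = x ^ (k + 1 + 1) - u ^ (k + 1) * x := by ring
    have e2 : ((k : ℝ) + 1) * (x * u ^ k - u ^ (k + 1)) * x
        = ((k : ℝ) + 1) * (u ^ k * (x - u) ^ 2) + ((k : ℝ) + 1) * (x * u ^ (k + 1) - u ^ (k + 2)) := by
      ring
    rw [e1, e2] at h1
    have e3 : ((k : ℝ) + 1 + 1) * (x * u ^ (k + 1) - u ^ (k + 1 + 1))
        = ((k : ℝ) + 1) * (x * u ^ (k + 1) - u ^ (k + 2)) + (x * u ^ (k + 1) - u ^ (k + 2)) := by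
      ring
    rw [e3]
    have e4 : u ^ (k + 1 + 1) = u ^ (k + 2) := by ring
    rw [e4]
    linarith

/-- The version with a uniform product. -/
theorem grid_peel_aux (d k : ℕ) (X : Finset ℕ) (T : Fin d → Finset ℕ) (P B : ℕ → ℝ)
    (hP : ∀ n, 0 ≤ P n) (hB : ∀ n, 0 ≤ B n) :
    ((k : ℝ) + 1) ^ d *
      (∑ n ∈ X, ∑ a ∈ gtup d k T, ∏ i : Fin d → Fin (k + 1),
          (if i = 0 then P (n + gsum a i) else B (n + gsum a i))
        - ∑ n ∈ X, ∑ a ∈ gtup d k T, ∏ i : Fin d → Fin (k + 1), B (n + gsum a i))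
      ≤ ∑ n ∈ X, ∑ a ∈ gtup d k T, ∏ i : Fin d → Fin (k + 1), P (n + gsum a i)
        - ∑ n ∈ X, ∑ a ∈ gtup d k T, ∏ i : Fin d → Fin (k + 1), B (n + gsum a i) := by
  induction d generalizing P B with
  | zero =>
    rw [pow_zero, one_mul]
    apply le_of_eq
    congr 1
  | succ d ih =>
    set A := Fintype.piFinset (fun _ : Fin (k + 1) => T 0) with hA
    set A' := gtup d k (fun j => T j.succ) with hA'
    -- rewrite the three sums
    have eS : ∀ Q : ℕ → ℝ, ∑ n ∈ X, ∑ a ∈ gtup (d + 1) k T,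
        ∏ i : Fin (d + 1) → Fin (k + 1), Q (n + gsum a i)
        = ∑ n ∈ X, ∑ a0 ∈ A, ∑ a' ∈ A', ∏ i0 : Fin (k + 1), ∏ i' : Fin d → Fin (k + 1),
          Q (n + (a0 i0 + gsum a' i')) := by
      intro Q
      apply Finset.sum_congr rfl
      intro n _
      rw [grid_sum_cons]
      apply Finset.sum_congr rfl
      intro a0 _
      apply Finset.sum_congr rfl
      intro a' _
      rw [grid_prod_cons]
      simp only [gsum_cons]
    have eM : ∑ n ∈ X, ∑ a ∈ gtup (d + 1) k T, ∏ i : Fin (d + 1) → Fin (k + 1),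
          (if i = 0 then P (n + gsum a i) else B (n + gsum a i))
        = ∑ n ∈ X, ∑ a0 ∈ A, ∑ a' ∈ A', ∏ i' : Fin d → Fin (k + 1),
          (if i' = 0 then ∏ i0 : Fin (k + 1), (if i0 = 0 then P (n + gsum a' i' + a0 i0)
              else B (n + gsum a' i' + a0 i0))
            else ∏ i0 : Fin (k + 1), B (n + gsum a' i' + a0 i0)) := by
      apply Finset.sum_congr rfl
      intro n _
      rw [grid_sum_cons]
      apply Finset.sum_congr rfl
      intro a0 _
      apply Finset.sum_congr rfl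
      intro a' _
      rw [grid_prod_cons, Finset.prod_comm]
      apply Finset.prod_congr rfl
      intro i' _
      by_cases h : i' = 0
      · rw [if_pos h]
        apply Finset.prod_congr rfl
        intro i0 _
        rw [gsum_cons, show n + (a0 i0 + gsum a' i') = n + gsum a' i' + a0 i0 by ring]
        by_cases h0 : i0 = 0
        · rw [if_pos h0, if_pos]
          rw [h, h0]
          funext j
          refine Fin.cases ?_ ?_ j <;> simp
        · rw [if_neg h0, if_neg]
          intro hc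
          apply h0
          have := congrFun hc 0
          simpa using this
      · rw [if_neg h]
        apply Finset.prod_congr rfl
        intro i0 _
        rw [gsum_cons, show n + (a0 i0 + gsum a' i') = n + gsum a' i' + a0 i0 by ring, if_neg]
        intro hc
        apply h
        funext j
        have := congrFun hc j.succ
        simpa using this
    rw [eS P, eS B, eM]
    -- the middle sum
    set M : ℝ := ∑ n ∈ X, ∑ a' ∈ A', ∑ a0 ∈ A,
      ∏ i0 : Fin (k + 1), (if i0 = 0 then ∏ i' : Fin d → Fin (k + 1), P (n + (a0 i0 + gsum a' i'))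
        else ∏ i' : Fin d → Fin (k + 1), B (n + (a0 i0 + gsum a' i'))) with hM
    set TB : ℝ := ∑ n ∈ X, ∑ a0 ∈ A, ∑ a' ∈ A', ∏ i0 : Fin (k + 1),
      ∏ i' : Fin d → Fin (k + 1), B (n + (a0 i0 + gsum a' i')) with hTB
    set SP : ℝ := ∑ n ∈ X, ∑ a0 ∈ A, ∑ a' ∈ A', ∏ i0 : Fin (k + 1),
      ∏ i' : Fin d → Fin (k + 1), P (n + (a0 i0 + gsum a' i')) with hSP
    -- step 1
    have h1 : ((k : ℝ) + 1) * (M - TB) ≤ SP - TB := by
      have eTB : TB = ∑ n ∈ X, ∑ a' ∈ A', (∑ t ∈ T 0, ∏ i' : Fin d → Fin (k + 1),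
          B (n + (t + gsum a' i'))) ^ (k + 1) := by
        rw [hTB]
        apply Finset.sum_congr rfl
        intro n _
        rw [Finset.sum_comm]
        apply Finset.sum_congr rfl
        intro a' _
        rw [hA, ← Finset.prod_univ_sum (fun _ : Fin (k + 1) => T 0)
          (fun _ t => ∏ i' : Fin d → Fin (k + 1), B (n + (t + gsum a' i')))]
        simp
      have eSP : SP = ∑ n ∈ X, ∑ a' ∈ A', (∑ t ∈ T 0, ∏ i' : Fin d → Fin (k + 1),
          P (n + (t + gsum a' i'))) ^ (k + 1) := by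
        rw [hSP]
        apply Finset.sum_congr rfl
        intro n _
        rw [Finset.sum_comm]
        apply Finset.sum_congr rfl
        intro a' _
        rw [hA, ← Finset.prod_univ_sum (fun _ : Fin (k + 1) => T 0)
          (fun _ t => ∏ i' : Fin d → Fin (k + 1), P (n + (t + gsum a' i')))]
        simp
      have eMM : M = ∑ n ∈ X, ∑ a' ∈ A', (∑ t ∈ T 0, ∏ i' : Fin d → Fin (k + 1),
          P (n + (t + gsum a' i'))) * (∑ t ∈ T 0, ∏ i' : Fin d → Fin (k + 1),
          B (n + (t + gsum a' i'))) ^ k := by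
        rw [hM]
        apply Finset.sum_congr rfl
        intro n _
        apply Finset.sum_congr rfl
        intro a' _
        rw [hA, ← Finset.prod_univ_sum (fun _ : Fin (k + 1) => T 0)
          (fun i0 t => (if i0 = 0 then ∏ i' : Fin d → Fin (k + 1), P (n + (t + gsum a' i'))
            else ∏ i' : Fin d → Fin (k + 1), B (n + (t + gsum a' i'))))]
        rw [Fin.prod_univ_succ]
        simp [Fin.succ_ne_zero]
      rw [eTB, eSP, eMM, ← Finset.sum_sub_distrib, ← Finset.sum_sub_distrib, Finset.mul_sum]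
      apply Finset.sum_le_sum
      intro n _
      rw [← Finset.sum_sub_distrib, ← Finset.sum_sub_distrib, Finset.mul_sum]
      apply Finset.sum_le_sum
      intro a' _
      apply tangent
      · exact Finset.sum_nonneg (fun t _ => Finset.prod_nonneg (fun i _ => hP _))
      · exact Finset.sum_nonneg (fun t _ => Finset.prod_nonneg (fun i _ => hB _))
    -- step 2
    have h2 : ((k : ℝ) + 1) ^ d * ((∑ n ∈ X, ∑ a0 ∈ A, ∑ a' ∈ A', ∏ i' : Fin d → Fin (k + 1),
          (if i' = 0 then ∏ i0 : Fin (k + 1), (if i0 = 0 then P (n + gsum a' i' + a0 i0)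
              else B (n + gsum a' i' + a0 i0))
            else ∏ i0 : Fin (k + 1), B (n + gsum a' i' + a0 i0))) - TB) ≤ M - TB := by
      have key : ∀ a0 ∈ A, ((k : ℝ) + 1) ^ d * ((∑ n ∈ X, ∑ a' ∈ A',
          ∏ i' : Fin d → Fin (k + 1),
          (if i' = 0 then ∏ i0 : Fin (k + 1), (if i0 = 0 then P (n + gsum a' i' + a0 i0)
              else B (n + gsum a' i' + a0 i0))
            else ∏ i0 : Fin (k + 1), B (n + gsum a' i' + a0 i0)))
          - ∑ n ∈ X, ∑ a' ∈ A', ∏ i' : Fin d → Fin (k + 1),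
              ∏ i0 : Fin (k + 1), B (n + gsum a' i' + a0 i0))
          ≤ (∑ n ∈ X, ∑ a' ∈ A', ∏ i' : Fin d → Fin (k + 1),
            ∏ i0 : Fin (k + 1), (if i0 = 0 then P (n + gsum a' i' + a0 i0)
              else B (n + gsum a' i' + a0 i0)))
          - ∑ n ∈ X, ∑ a' ∈ A', ∏ i' : Fin d → Fin (k + 1),
              ∏ i0 : Fin (k + 1), B (n + gsum a' i' + a0 i0) := by
        intro a0 _
        have := ih (fun j => T j.succ)
          (fun m => ∏ i0 : Fin (k + 1), (if i0 = 0 then P (m + a0 i0) else B (m + a0 i0)))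
          (fun m => ∏ i0 : Fin (k + 1), B (m + a0 i0))
          (fun m => Finset.prod_nonneg (fun i _ => by split_ifs; exacts [hP _, hB _]))
          (fun m => Finset.prod_nonneg (fun i _ => hB _))
        exact this
      have hs := Finset.sum_le_sum key
      rw [← Finset.mul_sum, Finset.sum_sub_distrib, Finset.sum_sub_distrib] at hs
      have eTB2 : TB = ∑ a0 ∈ A, ∑ n ∈ X, ∑ a' ∈ A', ∏ i' : Fin d → Fin (k + 1),
              ∏ i0 : Fin (k + 1), B (n + gsum a' i' + a0 i0) := by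
        rw [hTB, Finset.sum_comm]
        apply Finset.sum_congr rfl; intro a0 _
        apply Finset.sum_congr rfl; intro n _
        apply Finset.sum_congr rfl; intro a' _
        rw [Finset.prod_comm]
        apply Finset.prod_congr rfl; intro i' _
        apply Finset.prod_congr rfl; intro i0 _
        rw [show n + (a0 i0 + gsum a' i') = n + gsum a' i' + a0 i0 by ring]
      have eM2 : M = ∑ a0 ∈ A, ∑ n ∈ X, ∑ a' ∈ A', ∏ i' : Fin d → Fin (k + 1),
            ∏ i0 : Fin (k + 1), (if i0 = 0 then P (n + gsum a' i' + a0 i0)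
              else B (n + gsum a' i' + a0 i0)) := by
        rw [hM]
        have : ∀ n ∈ X, (∑ a' ∈ A', ∑ a0 ∈ A,
            ∏ i0 : Fin (k + 1), (if i0 = 0 then ∏ i' : Fin d → Fin (k + 1),
              P (n + (a0 i0 + gsum a' i'))
              else ∏ i' : Fin d → Fin (k + 1), B (n + (a0 i0 + gsum a' i'))))
            = ∑ a0 ∈ A, ∑ a' ∈ A', ∏ i' : Fin d → Fin (k + 1),
            ∏ i0 : Fin (k + 1), (if i0 = 0 then P (n + gsum a' i' + a0 i0)
              else B (n + gsum a' i' + a0 i0)) := by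
          intro n _
          rw [Finset.sum_comm]
          apply Finset.sum_congr rfl; intro a0 _
          apply Finset.sum_congr rfl; intro a' _
          rw [Finset.prod_comm]
          apply Finset.prod_congr rfl; intro i0 _
          split_ifs
          · apply Finset.prod_congr rfl; intro i' _
            rw [show n + (a0 i0 + gsum a' i') = n + gsum a' i' + a0 i0 by ring]
          · apply Finset.prod_congr rfl; intro i' _
            rw [show n + (a0 i0 + gsum a' i') = n + gsum a' i' + a0 i0 by ring]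
        rw [Finset.sum_congr rfl this, Finset.sum_comm]
      rw [eTB2, eM2]
      have e5 : (∑ n ∈ X, ∑ a0 ∈ A, ∑ a' ∈ A', ∏ i' : Fin d → Fin (k + 1),
          (if i' = 0 then ∏ i0 : Fin (k + 1), (if i0 = 0 then P (n + gsum a' i' + a0 i0)
              else B (n + gsum a' i' + a0 i0))
            else ∏ i0 : Fin (k + 1), B (n + gsum a' i' + a0 i0)))
          = ∑ a0 ∈ A, ∑ n ∈ X, ∑ a' ∈ A', ∏ i' : Fin d → Fin (k + 1),
          (if i' = 0 then ∏ i0 : Fin (k + 1), (if i0 = 0 then P (n + gsum a' i' + a0 i0)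
              else B (n + gsum a' i' + a0 i0))
            else ∏ i0 : Fin (k + 1), B (n + gsum a' i' + a0 i0)) := Finset.sum_comm
      rw [e5]
      exact hs
    have hk : (0:ℝ) ≤ (k:ℝ) + 1 := by positivity
    calc _ = ((k : ℝ) + 1) * (((k : ℝ) + 1) ^ d * ((∑ n ∈ X, ∑ a0 ∈ A, ∑ a' ∈ A',
          ∏ i' : Fin d → Fin (k + 1),
          (if i' = 0 then ∏ i0 : Fin (k + 1), (if i0 = 0 then P (n + gsum a' i' + a0 i0)
              else B (n + gsum a' i' + a0 i0))
            else ∏ i0 : Fin (k + 1), B (n + gsum a' i' + a0 i0))) - TB)) := by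
          rw [pow_succ]; ring
      _ ≤ ((k : ℝ) + 1) * (M - TB) := mul_le_mul_of_nonneg_left h2 hk
      _ ≤ SP - TB := h1

theorem grid_peel (d k : ℕ) (X : Finset ℕ) (T : Fin d → Finset ℕ) (P B : ℕ → ℝ)
    (hP : ∀ n, 0 ≤ P n) (hB : ∀ n, 0 ≤ B n) :
    ((k : ℝ) + 1) ^ d *
      (∑ n ∈ X, ∑ a ∈ gtup d k T,
          P (n + gsum a 0) * ∏ i ∈ univ.erase (0 : Fin d → Fin (k + 1)), B (n + gsum a i)
        - ∑ n ∈ X, ∑ a ∈ gtup d k T, ∏ i : Fin d → Fin (k + 1), B (n + gsum a i))
      ≤ ∑ n ∈ X, ∑ a ∈ gtup d k T, ∏ i : Fin d → Fin (k + 1), P (n + gsum a i)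
        - ∑ n ∈ X, ∑ a ∈ gtup d k T, ∏ i : Fin d → Fin (k + 1), B (n + gsum a i) := by
  have h := grid_peel_aux d k X T P B hP hB
  have e : (∑ n ∈ X, ∑ a ∈ gtup d k T,
          P (n + gsum a 0) * ∏ i ∈ univ.erase (0 : Fin d → Fin (k + 1)), B (n + gsum a i))
      = ∑ n ∈ X, ∑ a ∈ gtup d k T, ∏ i : Fin d → Fin (k + 1),
          (if i = 0 then P (n + gsum a i) else B (n + gsum a i)) := by
    apply Finset.sum_congr rfl; intro n _
    apply Finset.sum_congr rfl; intro a _
    exact mul_prod_erase_eq (0 : Fin d → Fin (k + 1)) (fun i => P (n + gsum a i))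
      (fun i => B (n + gsum a i))
  rw [e]
  exact h

end Pool.Agent.HLB
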