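import Pool.Agent.Lib.HL.Desc
import Pool.Agent.Lib.HLB.Defs
import Pool.Agent.Lib.HLB.GridPeel
import Pool.Agent.Lib.Sieve4.Core

/-!
# The partial singular series as an average of sieve weights

Sketch. `SZ_avg`: with `W = ∏ primesLE z`, the number of `u < W` such that no `p ≤ z` divides any `u + t i` is
`∏ (p - nuI t p)` (`sum_range_prod_crt` with `F p a = if ∃ i, (p:ℕ) ∣ a + t i then 0 else 1`; see
`sum_goodB_pow` in `HL/Classes.lean` and `card_Om` in `Sieve4/Tuples.lean`), and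
`∏ (p - nu) / DZ^card = W * SZ`.
`posdef`: `∑_a ∏ w(a i) SZ z a = W⁻¹ ∑_u X_u^r`, `X_u = ∑_{a ∈ A} w a * ic z (u+a) / DZ z`
(`Finset.prod_univ_sum` / `Finset.sum_pow'`), `∑_u X_u = W ∑ w` (`SZ_avg` for `ι = Unit` or `Fin 1`,
`locI = 1`), and `X^r ≥ r X m^(r-1) - (r-1) m^r` (`pow_tangent` in `HL/Desc.lean`) with `m = ∑ w`.
`posdef_grid`: `grid_peel` with `X = range W`, `P n = ic z n / DZ z`, `B = 1`.
-/

set_option autoImplicit false

open Finset Filter

namespace Pool.Agent.HLB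

open Pool.Agent.HL Pool.Agent.Lib.Sieve4

/-- The forbidden residues for `u` modulo `p`. -/
def OmI {ι : Type} [Fintype ι] (t : ι → ℕ) (p : ℕ) : Finset ℕ :=
  (univ.image (fun i => ((t i : ℕ) : ZMod p))).image (fun c => (-c).val)

lemma card_OmI {ι : Type} [Fintype ι] (t : ι → ℕ) (p : ℕ) (hp : p.Prime) :
    (OmI t p).card = nuI t p := by
  have : NeZero p := ⟨hp.ne_zero⟩
  rw [OmI, Finset.card_image_of_injective, nuI]
  intro c d h
  have := ZMod.val_injective p h
  exact neg_injective this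

lemma OmI_subset {ι : Type} [Fintype ι] (t : ι → ℕ) (p : ℕ) (hp : p.Prime) :
    OmI t p ⊆ range p := by
  have : NeZero p := ⟨hp.ne_zero⟩
  intro m hm
  simp only [OmI, mem_image, mem_univ, true_and, exists_exists_eq_and] at hm
  obtain ⟨i, rfl⟩ := hm
  rw [mem_range]
  exact ZMod.val_lt _

lemma mem_OmI {ι : Type} [Fintype ι] (t : ι → ℕ) (p : ℕ) (hp : p.Prime) (n : ℕ) :
    n % p ∈ OmI t p ↔ ∃ i, p ∣ n + t i := by
  have : NeZero p := ⟨hp.ne_zero⟩
  simp only [OmI, mem_image, mem_univ, true_and, exists_exists_eq_and]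
  refine exists_congr fun i => ?_
  rw [← ZMod.natCast_eq_zero_iff]
  push_cast
  constructor
  · intro h
    have h1 : (((-(t i : ZMod p)).val : ℕ) : ZMod p) = ((n % p : ℕ) : ZMod p) := by rw [h]
    rw [ZMod.natCast_zmod_val, ZMod.natCast_mod] at h1
    rw [← h1]; ring
  · intro h
    have h1 : (-(t i : ZMod p)) = (n : ZMod p) := by
      rw [neg_eq_iff_add_eq_zero, add_comm]; exact h
    rw [h1, ZMod.val_natCast]

lemma prod_ic {ι : Type} [Fintype ι] (z : ℕ) (t : ι → ℕ) (u : ℕ) :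
    ∏ i, ic z (u + t i) = ∏ p ∈ Nat.primesLE z, (if (u % p) ∈ OmI t p then (0:ℝ) else 1) := by
  classical
  by_cases hall : ∀ i, ∀ p ∈ Nat.primesLE z, ¬ p ∣ u + t i
  · rw [Finset.prod_eq_one, Finset.prod_eq_one]
    · intro p hp
      rw [if_neg]
      rw [mem_OmI t p (Nat.mem_primesLE.1 hp).2]
      rintro ⟨i, hi⟩
      exact hall i p hp hi
    · intro i _
      unfold ic
      rw [if_pos (hall i)]
  · push Not at hall
    obtain ⟨i, p, hp, hdvd⟩ := hall
    rw [Finset.prod_eq_zero (mem_univ i), Finset.prod_eq_zero hp]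
    · rw [if_pos]
      rw [mem_OmI t p (Nat.mem_primesLE.1 hp).2]
      exact ⟨i, hdvd⟩
    · unfold ic
      rw [if_neg]
      intro h
      exact h p hp hdvd

lemma SZ_avg {ι : Type} [Fintype ι] (z : ℕ) (t : ι → ℕ) :
    ∑ u ∈ range (∏ p ∈ Nat.primesLE z, p), ∏ i, (ic z (u + t i) / DZ z)
      = (∏ p ∈ Nat.primesLE z, (p : ℝ)) * SZ z t := by
  classical
  have hs : ∀ p ∈ Nat.primesLE z, p.Prime := fun p hp => (Nat.mem_primesLE.1 hp).2
  have e1 : ∀ u, ∏ i, (ic z (u + t i) / DZ z)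
      = (∏ p ∈ Nat.primesLE z, (if (u % p) ∈ OmI t p then (0:ℝ) else 1))
        / DZ z ^ (Fintype.card ι) := by
    intro u
    rw [Finset.prod_div_distrib, prod_ic, Finset.prod_const, Finset.card_univ]
  simp_rw [e1]
  rw [← Finset.sum_div,
    sum_range_prod_crt _ hs (fun p n => if n ∈ OmI t p then (0:ℝ) else 1)]
  have e2 : ∀ p ∈ Nat.primesLE z, ∑ a ∈ range p, (if a ∈ OmI t p then (0:ℝ) else 1)
      = (p : ℝ) - nuI t p := by
    intro p hp
    have e3 : ∀ a ∈ range p, (if a ∈ OmI t p then (0:ℝ) else 1)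
        = 1 - (if a ∈ OmI t p then (1:ℝ) else 0) := by
      intro a _
      split_ifs <;> ring
    rw [Finset.sum_congr rfl e3, Finset.sum_sub_distrib, Finset.sum_const, card_range, nsmul_eq_mul,
      mul_one, ← Finset.sum_filter, Finset.sum_const, nsmul_eq_mul, mul_one]
    have : (range p).filter (fun a => a ∈ OmI t p) = OmI t p := by
      ext a
      simp only [mem_filter, and_iff_right_iff_imp]
      exact fun h => OmI_subset _ p (hs p hp) h
    rw [this, card_OmI _ p (hs p hp)]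
  rw [Finset.prod_congr rfl e2]
  unfold SZ DZ
  rw [← Finset.prod_mul_distrib, ← Finset.prod_pow, ← Finset.prod_div_distrib]
  refine Finset.prod_congr rfl fun p hp => ?_
  have hp0 : (p:ℝ) ≠ 0 := by exact_mod_cast (hs p hp).ne_zero
  unfold locI
  rw [inv_pow, div_eq_mul_inv, ← mul_assoc]
  congr 1
  field_simp

lemma SZ_unit (z a : ℕ) : SZ z (fun _ : Unit => a) = 1 := by
  unfold SZ
  refine Finset.prod_eq_one fun p hp => ?_
  have hp' := (Nat.mem_primesLE.1 hp).2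
  have h1 : nuI (fun _ : Unit => a) p = 1 := by
    apply le_antisymm
    · simpa using nuI_le (fun _ : Unit => a) p
    · exact nuI_pos _ _
  unfold locI
  rw [h1]
  have := one_sub_inv_pos hp'
  simp only [Nat.cast_one, Fintype.card_unit, pow_one]
  exact mul_inv_cancel₀ this.ne'

lemma ic_avg (z a : ℕ) :
    ∑ u ∈ range (∏ p ∈ Nat.primesLE z, p), (ic z (u + a) / DZ z)
      = (∏ p ∈ Nat.primesLE z, (p : ℝ)) := by
  have h := SZ_avg z (fun _ : Unit => a)
  rw [SZ_unit, mul_one] at h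
  rw [← h]
  refine Finset.sum_congr rfl fun u _ => ?_
  simp

lemma primorial_pos' (z : ℕ) : 0 < ∏ p ∈ Nat.primesLE z, (p : ℝ) :=
  Finset.prod_pos fun p hp => by exact_mod_cast (Nat.mem_primesLE.1 hp).2.pos

theorem posdef (r z : ℕ) (hr : 1 ≤ r) (A : Finset ℕ) (w : ℕ → ℝ) (hw : ∀ a ∈ A, 0 ≤ w a) :
    (∑ a ∈ A, w a) ^ r
      ≤ ∑ a ∈ Fintype.piFinset (fun _ : Fin r => A), (∏ i, w (a i)) * SZ z a := by
  classical
  set W : ℝ := ∏ p ∈ Nat.primesLE z, (p : ℝ) with hW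
  have hWpos : 0 < W := primorial_pos' z
  set m := ∑ a ∈ A, w a with hm
  have hm0 : 0 ≤ m := Finset.sum_nonneg hw
  set X : ℕ → ℝ := fun u => ∑ a ∈ A, w a * (ic z (u + a) / DZ z) with hX
  have hX0 : ∀ u, 0 ≤ X u := fun u => Finset.sum_nonneg fun a ha =>
    mul_nonneg (hw a ha) (div_nonneg (ic_nonneg _ _) (DZ_pos z).le)
  have hpow : ∀ u, X u ^ r = ∑ a ∈ Fintype.piFinset (fun _ : Fin r => A),
      (∏ i, w (a i)) * ∏ i, (ic z (u + a i) / DZ z) := by
    intro u
    have h1 : X u ^ r = ∏ _i : Fin r, X u := by simp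
    rw [h1]
    simp only [hX]
    rw [Finset.prod_univ_sum]
    refine Finset.sum_congr rfl fun a _ => ?_
    rw [Finset.prod_mul_distrib]
  have hcardW : (((range (∏ p ∈ Nat.primesLE z, p)).card : ℕ) : ℝ) = W := by
    rw [card_range]; push_cast; rfl
  have hsumX : ∑ u ∈ range (∏ p ∈ Nat.primesLE z, p), X u = W * m := by
    simp only [hX]
    rw [Finset.sum_comm]
    simp_rw [← Finset.mul_sum, ic_avg]
    rw [← Finset.sum_mul, mul_comm]
  have hmain : W * (∑ a ∈ Fintype.piFinset (fun _ : Fin r => A), (∏ i, w (a i)) * SZ z a)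
      = ∑ u ∈ range (∏ p ∈ Nat.primesLE z, p), X u ^ r := by
    simp_rw [hpow]
    rw [Finset.sum_comm, Finset.mul_sum]
    refine Finset.sum_congr rfl fun a _ => ?_
    rw [← Finset.mul_sum, SZ_avg]
    ring
  have hle : ∑ u ∈ range (∏ p ∈ Nat.primesLE z, p), ((r : ℝ) * m ^ (r - 1) * X u - (r - 1) * m ^ r)
      ≤ ∑ u ∈ range (∏ p ∈ Nat.primesLE z, p), X u ^ r :=
    Finset.sum_le_sum fun u _ => pow_tangent r hr (hX0 u) hm0
  rw [Finset.sum_sub_distrib, ← Finset.mul_sum, hsumX, Finset.sum_const, nsmul_eq_mul, hcardW,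
    ← hmain] at hle
  have hmm : m ^ (r - 1) * m = m ^ r := by
    rw [← pow_succ]; congr 1; omega
  have : W * m ^ r ≤ W * (∑ a ∈ Fintype.piFinset (fun _ : Fin r => A), (∏ i, w (a i)) * SZ z a) := by
    calc W * m ^ r = (r : ℝ) * m ^ (r - 1) * (W * m) - W * ((r - 1) * m ^ r) := by
          rw [← hmm]; ring
      _ ≤ _ := hle
  exact le_of_mul_le_mul_left this hWpos

theorem posdef_grid (d k z : ℕ) (T : Fin d → Finset ℕ) :
    (∏ j, ((T j).card : ℝ) ^ (k + 1)) ≤ ∑ a ∈ gtup d k T, SZ z (gsum a) := by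
  classical
  set W : ℝ := ∏ p ∈ Nat.primesLE z, (p : ℝ) with hW
  have hWpos : 0 < W := primorial_pos' z
  have hcardW : (((range (∏ p ∈ Nat.primesLE z, p)).card : ℕ) : ℝ) = W := by
    rw [card_range]; push_cast; rfl
  have hcardG : (((gtup d k T).card : ℕ) : ℝ) = ∏ j, ((T j).card : ℝ) ^ (k + 1) := by
    unfold gtup
    rw [Fintype.card_piFinset]
    push_cast
    refine Finset.prod_congr rfl fun j _ => ?_
    rw [Fintype.card_piFinset]
    simp
  have h := grid_peel d k (range (∏ p ∈ Nat.primesLE z, p)) T (fun n => ic z n / DZ z) (fun _ => 1)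
    (fun n => div_nonneg (ic_nonneg _ _) (DZ_pos z).le) (fun _ => zero_le_one)
  simp only [Finset.prod_const_one, mul_one] at h
  have e1 : ∑ n ∈ range (∏ p ∈ Nat.primesLE z, p), ∑ a ∈ gtup d k T, ic z (n + gsum a 0) / DZ z
      = W * ((gtup d k T).card : ℝ) := by
    rw [Finset.sum_comm]
    simp_rw [ic_avg]
    rw [Finset.sum_const, nsmul_eq_mul, mul_comm]
  have e2 : ∑ n ∈ range (∏ p ∈ Nat.primesLE z, p), ∑ a ∈ gtup d k T, (1:ℝ)
      = W * ((gtup d k T).card : ℝ) := by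
    rw [Finset.sum_const, nsmul_eq_mul, hcardW, Finset.sum_const, nsmul_eq_mul, mul_one]
  have e3 : ∑ n ∈ range (∏ p ∈ Nat.primesLE z, p), ∑ a ∈ gtup d k T,
      ∏ i : Fin d → Fin (k + 1), ic z (n + gsum a i) / DZ z
      = W * ∑ a ∈ gtup d k T, SZ z (gsum a) := by
    rw [Finset.sum_comm, Finset.mul_sum]
    refine Finset.sum_congr rfl fun a _ => ?_
    rw [SZ_avg]
  rw [e1, e2, e3, sub_self, mul_zero, hcardG] at h
  have : W * (∏ j, ((T j).card : ℝ) ^ (k + 1)) ≤ W * ∑ a ∈ gtup d k T, SZ z (gsum a) := by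
    linarith
  exact le_of_mul_le_mul_left this hWpos

end Pool.Agent.HLB
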