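import Pool.Agent.Lib.HL.Desc

/-!
# Injective tuples

Write `N = ∑_{a ∈ A} v a` and `E r = ∑_{a ∈ injTuples r A} ∏ v (a i)`. `E r ≤ N ^ r`. An injective
`(r+1)`-tuple is `Fin.cons y b` with `b` injective and `y ∉ range b`, so
`E (r+1) ≥ N E r - r E r ≥ N E r - r N^r`, and induction.
-/

set_option autoImplicit false

open Finset

namespace Pool.Agent.HLB

open Pool.Agent.HL

lemma inj_sum_le (r : ℕ) (A : Finset ℕ) (v : ℕ → ℝ) (hv : ∀ a ∈ A, 0 ≤ v a ∧ v a ≤ 1) :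
    ∑ a ∈ injTuples r A, ∏ i, v (a i) ≤ (∑ a ∈ A, v a) ^ r := by
  have h1 : ∑ a ∈ injTuples r A, ∏ i, v (a i) ≤
      ∑ a ∈ Fintype.piFinset (fun _ : Fin r => A), ∏ i, v (a i) := by
    apply sum_le_sum_of_subset_of_nonneg (filter_subset _ _)
    intro a ha _
    apply prod_nonneg
    intro i _
    exact (hv _ (Fintype.mem_piFinset.1 ha i)).1
  refine h1.trans (le_of_eq ?_)
  have h2 := Finset.prod_univ_sum (fun _ : Fin r => A) (fun _ a => v a)
  rw [← h2]
  simp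

lemma inj_sum_succ (r : ℕ) (A : Finset ℕ) (v : ℕ → ℝ) :
    ∑ a ∈ injTuples (r+1) A, ∏ i, v (a i) =
      ∑ b ∈ injTuples r A, ∑ y ∈ A.filter (fun y => y ∉ Set.range b), v y * ∏ i, v (b i) := by
  rw [sum_sigma']
  refine sum_bij' (fun a _ => (⟨Fin.tail a, a 0⟩ : Σ _ : Fin r → ℕ, ℕ))
    (fun p _ => Fin.cons p.2 p.1) ?_ ?_ ?_ ?_ ?_
  · intro a ha
    rw [mem_injTuples] at ha
    rw [mem_sigma]
    refine ⟨mem_injTuples.2 ⟨fun i => ha.1 _, ?_⟩, ?_⟩
    · intro i j hij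
      exact Fin.succ_injective _ (ha.2 hij)
    · rw [mem_filter]
      refine ⟨ha.1 0, ?_⟩
      rintro ⟨i, hi⟩
      exact Fin.succ_ne_zero i (ha.2 hi)
  · rintro ⟨b, y⟩ hp
    rw [mem_sigma] at hp
    obtain ⟨hb, hy⟩ := hp
    rw [mem_injTuples] at hb
    rw [mem_filter] at hy
    simp only at hb hy
    rw [mem_injTuples]
    refine ⟨?_, ?_⟩
    · intro i
      refine Fin.cases ?_ (fun i => ?_) i
      · simpa using hy.1
      · simpa using hb.1 i
    · rw [Fin.cons_injective_iff]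
      exact ⟨hy.2, hb.2⟩
  · intro a _
    exact Fin.cons_self_tail a
  · rintro ⟨b, y⟩ _
    simp
  · intro a _
    rw [Fin.prod_univ_succ]
    rfl

lemma inj_sum_step (r : ℕ) (A : Finset ℕ) (v : ℕ → ℝ)
    (hv : ∀ a ∈ A, 0 ≤ v a ∧ v a ≤ 1) :
    (∑ a ∈ A, v a) * (∑ a ∈ injTuples r A, ∏ i, v (a i)) - r * (∑ a ∈ A, v a) ^ r ≤
      ∑ a ∈ injTuples (r+1) A, ∏ i, v (a i) := by
  have h1 : ((∑ a ∈ A, v a) - r) * (∑ b ∈ injTuples r A, ∏ i, v (b i)) ≤
      ∑ a ∈ injTuples (r+1) A, ∏ i, v (a i) := by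
    rw [inj_sum_succ, mul_sum]
    apply sum_le_sum
    intro b hb
    rw [mem_injTuples] at hb
    rw [← sum_mul]
    apply mul_le_mul_of_nonneg_right _ (prod_nonneg fun i _ => (hv _ (hb.1 i)).1)
    have h2 := sum_filter_add_sum_filter_not A (fun y => y ∈ Set.range b) v
    have h3 : ∑ y ∈ A.filter (fun y => y ∈ Set.range b), v y ≤ r := by
      have h4 : A.filter (fun y => y ∈ Set.range b) ⊆ univ.image b := by
        intro y hy
        obtain ⟨i, hi⟩ := (mem_filter.1 hy).2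
        exact mem_image.2 ⟨i, mem_univ _, hi⟩
      have h5 : (A.filter (fun y => y ∈ Set.range b)).card ≤ r := by
        refine (card_le_card h4).trans (card_image_le.trans ?_)
        simp
      calc ∑ y ∈ A.filter (fun y => y ∈ Set.range b), v y
          ≤ ∑ y ∈ A.filter (fun y => y ∈ Set.range b), (1:ℝ) :=
            sum_le_sum fun y hy => (hv y (mem_filter.1 hy).1).2
        _ = ((A.filter (fun y => y ∈ Set.range b)).card : ℝ) := by simp
        _ ≤ r := by exact_mod_cast h5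
    linarith
  have h2 := inj_sum_le r A v hv
  have h3 : (r:ℝ) * (∑ b ∈ injTuples r A, ∏ i, v (b i)) ≤ r * (∑ a ∈ A, v a) ^ r :=
    mul_le_mul_of_nonneg_left h2 (Nat.cast_nonneg _)
  nlinarith

lemma inj_sum_ge (r : ℕ) (hr : 1 ≤ r) (A : Finset ℕ) (v : ℕ → ℝ)
    (hv : ∀ a ∈ A, 0 ≤ v a ∧ v a ≤ 1) :
    (∑ a ∈ A, v a) ^ r - ((r : ℝ) * ((r : ℝ) - 1) / 2) * (∑ a ∈ A, v a) ^ (r - 1)
      ≤ ∑ a ∈ injTuples r A, ∏ i, v (a i) := by
  have hN : 0 ≤ ∑ a ∈ A, v a := sum_nonneg fun a ha => (hv a ha).1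
  induction r, hr using Nat.le_induction with
  | base =>
    have h := inj_sum_step 0 A v hv
    have h0 : ∑ a ∈ injTuples 0 A, ∏ i, v (a i) = 1 := by
      have : injTuples 0 A = {Fin.elim0} := by
        ext b
        rw [mem_injTuples, mem_singleton]
        constructor
        · intro _
          exact Subsingleton.elim _ _
        · intro _
          exact ⟨fun i => i.elim0, fun i => i.elim0⟩
      rw [this]
      simp
    rw [h0] at h
    simp only [CharP.cast_eq_zero, zero_mul, mul_one, sub_zero] at h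
    simpa using h
  | succ r hr ih =>
    have h := inj_sum_step r A v hv
    refine le_trans ?_ h
    have h1 := mul_le_mul_of_nonneg_left ih hN
    have h2 : (∑ a ∈ A, v a) * ((∑ a ∈ A, v a) ^ r -
        ((r : ℝ) * ((r : ℝ) - 1) / 2) * (∑ a ∈ A, v a) ^ (r - 1)) =
        (∑ a ∈ A, v a) ^ (r + 1) - ((r : ℝ) * ((r : ℝ) - 1) / 2) * (∑ a ∈ A, v a) ^ r := by
      obtain ⟨k, rfl⟩ : ∃ k, r = k + 1 := ⟨r - 1, by omega⟩
      simp only [Nat.add_sub_cancel]
      ring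
    rw [h2] at h1
    simp only [Nat.add_sub_cancel]
    push_cast
    nlinarith

end Pool.Agent.HLB
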