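import Pool.Agent.Lib.HLB.CLUpper
import Pool.Agent.Lib.HLB.InjSum
import Pool.Agent.Lib.HLB.PosDef

/-!
# The Hardy-Littlewood lower bound for every weight on the shifts
-/

set_option autoImplicit false

open Finset Filter

namespace Pool.Agent.HLB

open Pool.Agent.HL Pool.Agent.Lib.Sieve4

/-- Number of `n ≤ x` with all `n + t i` prime. -/
def cnt {ι : Type} [Fintype ι] (t : ι → ℕ) (x : ℕ) : ℕ :=
  ((Icc 1 x).filter (fun n : ℕ => ∀ i, (n + t i).Prime)).card

lemma cnt_eq {ι : Type} [Fintype ι] (t : ι → ℕ) (x : ℕ) :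
    (cnt t x : ℝ) = ∑ n ∈ Icc 1 x, ∏ i, ip (n + t i) := by
  classical
  unfold cnt
  rw [Finset.card_filter]
  push_cast
  refine Finset.sum_congr rfl fun n _ => ?_
  unfold ip
  rw [Finset.prod_ite_zero]
  simp

/-- Weighted sum of the partial singular series. -/
noncomputable def GW (r z : ℕ) (A : Finset ℕ) (w : ℕ → ℝ) : ℝ :=
  ∑ a ∈ Fintype.piFinset (fun _ : Fin r => A), (∏ i, w (a i)) * SZ z a

lemma GW_nonneg (r z : ℕ) (A : Finset ℕ) (w : ℕ → ℝ) (hw : ∀ a ∈ A, 0 ≤ w a) : 0 ≤ GW r z A w := by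
  unfold GW
  refine Finset.sum_nonneg fun a ha => mul_nonneg (Finset.prod_nonneg fun i _ => ?_) (SZ_nonneg _ _)
  exact hw _ (Fintype.mem_piFinset.mp ha i)

lemma sum_pi_prod (r : ℕ) (A : Finset ℕ) (h : Fin r → ℕ → ℝ) :
    ∑ a ∈ Fintype.piFinset (fun _ : Fin r => A), ∏ i, h i (a i) = ∏ i, ∑ a ∈ A, h i a := by
  rw [Finset.prod_univ_sum]

/-- First moment inequality. -/
lemma sum_NB_ge (hSW : SW) (k : ℕ) {η ε : ℝ} (hη0 : 0 < η) (hη1 : η < 1) (hε : 0 < ε) (M : ℕ) :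
    ∀ᶠ x : ℕ in atTop, ∀ A : Finset ℕ, (∀ a ∈ A, (a : ℝ) ≤ η * x) → ∀ w : ℕ → ℝ,
      (∀ a ∈ A, 0 ≤ w a) →
      (1 - η - ε) * (x / Real.log x ^ (k + 1)) * GW (k + 1) (zz (k + 1) x) A w
          - x / Real.log x ^ M * (∑ a ∈ A, w a) ^ (k + 1)
        ≤ ∑ n ∈ Icc 1 x, (∑ a ∈ A, w a * ip (n + a)) *
            (bb (k + 1) x * ∑ a ∈ A, w a * ic (zz (k + 1) x) (n + a)) ^ k := by
  filter_upwards [cl_lower hSW (k + 1) hη0 hη1 hε M] with x hx A hA w hw
  set z := zz (k + 1) x with hz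
  have h1 : ∀ a ∈ Fintype.piFinset (fun _ : Fin (k + 1) => A),
      (∏ i, w (a i)) * ((1 - η - ε) * (x / Real.log x ^ (k + 1)) * SZ z a - x / Real.log x ^ M)
        ≤ (∏ i, w (a i)) * (bb (k + 1) x ^ k *
          ∑ n ∈ Icc 1 x, ip (n + a 0) * ∏ i ∈ univ.erase (0 : Fin (k + 1)), ic z (n + a i)) := by
    intro a ha
    have hmem := Fintype.mem_piFinset.mp ha
    have hw0 : 0 ≤ ∏ i, w (a i) := Finset.prod_nonneg fun i _ => hw _ (hmem i)
    have := hx (Fin (k + 1)) a 0 (Fintype.card_fin _) (hA _ (hmem 0))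
    exact mul_le_mul_of_nonneg_left this hw0
  have h2 := Finset.sum_le_sum h1
  have e1 : ∑ a ∈ Fintype.piFinset (fun _ : Fin (k + 1) => A),
      (∏ i, w (a i)) * ((1 - η - ε) * (x / Real.log x ^ (k + 1)) * SZ z a - x / Real.log x ^ M)
      = (1 - η - ε) * (x / Real.log x ^ (k + 1)) * GW (k + 1) z A w
          - x / Real.log x ^ M * (∑ a ∈ A, w a) ^ (k + 1) := by
    unfold GW
    have h3 : (∑ a ∈ A, w a) ^ (k + 1)
        = ∑ a ∈ Fintype.piFinset (fun _ : Fin (k + 1) => A), ∏ i, w (a i) := by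
      rw [sum_pi_prod (k + 1) A (fun _ => w), Finset.prod_const, card_univ, Fintype.card_fin]
    rw [h3, Finset.mul_sum, Finset.mul_sum, ← Finset.sum_sub_distrib]
    refine Finset.sum_congr rfl fun a _ => ?_
    ring
  have e2 : ∑ a ∈ Fintype.piFinset (fun _ : Fin (k + 1) => A), (∏ i, w (a i)) * (bb (k + 1) x ^ k *
          ∑ n ∈ Icc 1 x, ip (n + a 0) * ∏ i ∈ univ.erase (0 : Fin (k + 1)), ic z (n + a i))
      = ∑ n ∈ Icc 1 x, (∑ a ∈ A, w a * ip (n + a)) *
            (bb (k + 1) x * ∑ a ∈ A, w a * ic z (n + a)) ^ k := by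
    have h4 : ∀ a ∈ Fintype.piFinset (fun _ : Fin (k + 1) => A), (∏ i, w (a i)) * (bb (k + 1) x ^ k *
          ∑ n ∈ Icc 1 x, ip (n + a 0) * ∏ i ∈ univ.erase (0 : Fin (k + 1)), ic z (n + a i))
        = ∑ n ∈ Icc 1 x, bb (k + 1) x ^ k * ∏ i : Fin (k + 1),
            (w (a i) * (if i = 0 then ip (n + a i) else ic z (n + a i))) := by
      intro a _
      rw [Finset.mul_sum, Finset.mul_sum]
      refine Finset.sum_congr rfl fun n _ => ?_
      rw [Finset.prod_mul_distrib]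
      have h5 : ∏ i : Fin (k + 1), (if i = 0 then ip (n + a i) else ic z (n + a i))
          = ip (n + a 0) * ∏ i ∈ univ.erase (0 : Fin (k + 1)), ic z (n + a i) := by
        rw [← Finset.mul_prod_erase univ _ (mem_univ (0 : Fin (k + 1))), if_pos rfl]
        congr 1
        refine Finset.prod_congr rfl fun i hi => ?_
        rw [if_neg (Finset.ne_of_mem_erase hi)]
      rw [h5]
      ring
    rw [Finset.sum_congr rfl h4, Finset.sum_comm]
    refine Finset.sum_congr rfl fun n _ => ?_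
    rw [← Finset.mul_sum]
    have h6 := sum_pi_prod (k + 1) A
      (fun i a => w a * (if i = 0 then ip (n + a) else ic z (n + a)))
    rw [h6, Fin.prod_univ_succ]
    have h7 : ∀ i : Fin k, ∑ a ∈ A, w a * (if i.succ = 0 then ip (n + a) else ic z (n + a))
        = ∑ a ∈ A, w a * ic z (n + a) := by
      intro i
      refine Finset.sum_congr rfl fun a _ => ?_
      rw [if_neg (Fin.succ_ne_zero i)]
    simp only [h7, if_true, Finset.prod_const, card_univ, Fintype.card_fin]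
    ring
  rw [e1, e2] at h2
  exact h2

/-- Second moment inequality. -/
lemma sum_B_le (r M : ℕ) :
    ∀ᶠ x : ℕ in atTop, ∀ A : Finset ℕ, ∀ w : ℕ → ℝ, (∀ a ∈ A, 0 ≤ w a) →
      ∑ n ∈ Icc 1 x, (bb r x * ∑ a ∈ A, w a * ic (zz r x) (n + a)) ^ r
        ≤ (x / Real.log x ^ r) * GW r (zz r x) A w + x / Real.log x ^ M * (∑ a ∈ A, w a) ^ r := by
  filter_upwards [cl_upper r M] with x hx A w hw
  set z := zz r x with hz
  have h1 : ∀ a ∈ Fintype.piFinset (fun _ : Fin r => A),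
      (∏ i, w (a i)) * (bb r x ^ r * ∑ n ∈ Icc 1 x, ∏ i, ic z (n + a i))
      ≤ (∏ i, w (a i)) * ((x / Real.log x ^ r) * SZ z a + x / Real.log x ^ M) := by
    intro a ha
    have hmem := Fintype.mem_piFinset.mp ha
    have hw0 : 0 ≤ ∏ i, w (a i) := Finset.prod_nonneg fun i _ => hw _ (hmem i)
    exact mul_le_mul_of_nonneg_left (hx (Fin r) a (Fintype.card_fin _)) hw0
  have h2 := Finset.sum_le_sum h1
  have e1 : ∑ a ∈ Fintype.piFinset (fun _ : Fin r => A),
      (∏ i, w (a i)) * ((x / Real.log x ^ r) * SZ z a + x / Real.log x ^ M)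
      = (x / Real.log x ^ r) * GW r z A w + x / Real.log x ^ M * (∑ a ∈ A, w a) ^ r := by
    unfold GW
    have h3 : (∑ a ∈ A, w a) ^ r
        = ∑ a ∈ Fintype.piFinset (fun _ : Fin r => A), ∏ i, w (a i) := by
      rw [sum_pi_prod r A (fun _ => w), Finset.prod_const, card_univ, Fintype.card_fin]
    rw [h3, Finset.mul_sum, Finset.mul_sum, ← Finset.sum_add_distrib]
    refine Finset.sum_congr rfl fun a _ => ?_
    ring
  have e2 : ∑ a ∈ Fintype.piFinset (fun _ : Fin r => A),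
      (∏ i, w (a i)) * (bb r x ^ r * ∑ n ∈ Icc 1 x, ∏ i, ic z (n + a i))
      = ∑ n ∈ Icc 1 x, (bb r x * ∑ a ∈ A, w a * ic z (n + a)) ^ r := by
    have h4 : ∀ a ∈ Fintype.piFinset (fun _ : Fin r => A),
        (∏ i, w (a i)) * (bb r x ^ r * ∑ n ∈ Icc 1 x, ∏ i, ic z (n + a i))
        = ∑ n ∈ Icc 1 x, bb r x ^ r * ∏ i : Fin r, (w (a i) * ic z (n + a i)) := by
      intro a _
      rw [Finset.mul_sum, Finset.mul_sum]
      refine Finset.sum_congr rfl fun n _ => ?_
      rw [Finset.prod_mul_distrib]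
      ring
    rw [Finset.sum_congr rfl h4, Finset.sum_comm]
    refine Finset.sum_congr rfl fun n _ => ?_
    rw [← Finset.mul_sum, sum_pi_prod r A (fun _ a => w a * ic z (n + a)), Finset.prod_const,
      card_univ, Fintype.card_fin, mul_pow]
  rw [e1, e2] at h2
  exact h2

/-- Final algebra: `S0` is the injective sum, `SN` is `∑ N^r`, `SM` is `∑ N^(r-1)`. -/
lemma final_alg {r c l δ X x W G SN SM S0 : ℝ} (hr : 2 ≤ r) (hc : c = r * (r - 1) / 2) (hl : 0 < l)
    (hδ : 0 ≤ δ) (hS0 : 0 ≤ S0) (hXG : 0 ≤ X * G) (hSN : (1 - δ) * (X * G) ≤ SN)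
    (hSM : SM ≤ (r - 1) / (r * l) * SN + W / (r * l)) (hW : W ≤ X * G)
    (h0 : SN - c * SM ≤ S0) : (1 - δ - c / l) * (X * G) ≤ S0 := by
  have hc0 : 0 ≤ c := by rw [hc]; nlinarith only [hr]
  have hr0 : 0 < r := by linarith
  have hrl : 0 < r * l := by positivity
  set κ : ℝ := 1 - c * ((r - 1) / (r * l)) with hκ
  have h1 : κ * SN - c * (W / (r * l)) ≤ S0 := by
    have := mul_le_mul_of_nonneg_left hSM hc0
    rw [hκ]
    nlinarith only [h0, this]
  have hcW : c * (W / (r * l)) ≤ c / (r * l) * (X * G) := by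
    have : W / (r * l) ≤ X * G / (r * l) := by gcongr
    calc c * (W / (r * l)) ≤ c * (X * G / (r * l)) := by gcongr
      _ = _ := by ring
  have hid : c / l = c * ((r - 1) / (r * l)) + c / (r * l) := by
    field_simp
    ring
  rcases le_or_gt 0 κ with hκ0 | hκ0
  · have h2 : κ * ((1 - δ) * (X * G)) ≤ κ * SN := mul_le_mul_of_nonneg_left hSN hκ0
    have hκ1 : κ ≤ 1 := by
      rw [hκ]
      have : 0 ≤ c * ((r - 1) / (r * l)) := by
        have : 0 ≤ r - 1 := by linarith only [hr]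
        positivity
      linarith only [this]
    have h3 : κ * δ ≤ δ := by nlinarith only [hδ, hκ1]
    have h4 : (1 - δ - c / l) * (X * G) ≤ κ * ((1 - δ) * (X * G)) - c / (r * l) * (X * G) := by
      rw [hid]
      have h5 : (κ * δ) * (X * G) ≤ δ * (X * G) := mul_le_mul_of_nonneg_right h3 hXG
      have h6 : (1 - δ - (c * ((r - 1) / (r * l)) + c / (r * l))) * (X * G)
          = (κ - δ - c / (r * l)) * (X * G) := by rw [hκ]; ring
      rw [h6]
      nlinarith only [h5]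
    linarith only [h1, hcW, h2, h4]
  · have h7 : (1 - δ - c / l) ≤ 0 := by
      have h8 : 0 ≤ c / (r * l) := by positivity
      rw [hκ] at hκ0
      rw [hid]
      linarith only [hδ, hκ0, h8]
    exact (mul_nonpos_of_nonpos_of_nonneg h7 hXG).trans hS0

/-- The lower bound in terms of all tuples and the partial singular series. -/
theorem t1_lower_aux (hSW : SW) (r : ℕ) (hr : 2 ≤ r) {ε : ℝ} (hε : 0 < ε) : ∃ η : ℝ, 0 < η ∧
    ∀ᶠ x : ℕ in atTop, ∀ A : Finset ℕ, (∀ a ∈ A, (a : ℝ) ≤ η * x) → ∀ w : ℕ → ℝ,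
      (∀ a ∈ A, 0 ≤ w a ∧ w a ≤ 1) → 0 < ∑ a ∈ A, w a →
      (1 - ε - (r : ℝ) * (r - 1) / 2 * (Real.log x / ∑ a ∈ A, w a)) *
          ((x / Real.log x ^ r) * GW r (zz r x) A w)
        ≤ ∑ a ∈ injTuples r A, (∏ i, w (a i)) * (cnt a x : ℝ) := by
  obtain ⟨k, rfl⟩ : ∃ k, r = k + 1 := ⟨r - 1, by omega⟩
  have hk : 1 ≤ k := by omega
  have hrR : (2:ℝ) ≤ ((k + 1 : ℕ) : ℝ) := by exact_mod_cast hr
  set R : ℝ := ((k + 1 : ℕ) : ℝ) with hR
  have hR0 : 0 < R := by linarith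
  set ε1 : ℝ := min (ε / (8 * R)) (1 / 2) with hε1
  have hε1pos : 0 < ε1 := lt_min (by positivity) (by norm_num)
  have hε1le : ε1 ≤ ε / (8 * R) := min_le_left _ _
  have hε1lt : ε1 < 1 := lt_of_le_of_lt (min_le_right _ _) (by norm_num)
  refine ⟨ε1, hε1pos, ?_⟩
  have hL : ∀ᶠ x : ℕ in atTop, 8 * R / ε ≤ Real.log x :=
    (Real.tendsto_log_atTop.comp tendsto_natCast_atTop_atTop).eventually_ge_atTop _
  filter_upwards [sum_NB_ge hSW k hε1pos hε1lt hε1pos (k + 2), sum_B_le (k + 1) (k + 2), hL,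
    eventually_ge_atTop 2] with x hx1 hx2 hx3 hx4 A hA w hw hwpos
  have hw0 : ∀ a ∈ A, 0 ≤ w a := fun a ha => (hw a ha).1
  have hxpos : (0:ℝ) < x := by exact_mod_cast (by omega : 0 < x)
  have hLpos : 0 < Real.log x := lt_of_lt_of_le (by positivity) hx3
  have h1 := hx1 A hA w hw0
  have h2 := hx2 A w hw0
  set z := zz (k + 1) x with hz
  set G := GW (k + 1) z A w with hG
  set X : ℝ := x / Real.log x ^ (k + 1) with hX
  set b := bb (k + 1) x with hb
  set N : ℕ → ℝ := fun n => ∑ a ∈ A, w a * ip (n + a) with hN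
  set Y : ℕ → ℝ := fun n => b * ∑ a ∈ A, w a * ic z (n + a) with hY
  have hXpos : 0 < X := by (clear * - hx4 hLpos; positivity)
  have hb0 : 0 ≤ b := by
    rw [hb]; unfold bb
    exact inv_nonneg.mpr (mul_nonneg (DZ_pos _).le hLpos.le)
  have hN0 : ∀ n, 0 ≤ N n := fun n => Finset.sum_nonneg fun a ha => mul_nonneg (hw0 a ha) (ip_nonneg _)
  have hY0 : ∀ n, 0 ≤ Y n := fun n =>
    mul_nonneg hb0 (Finset.sum_nonneg fun a ha => mul_nonneg (hw0 a ha) (ic_nonneg _ _))
  have hpd : (∑ a ∈ A, w a) ^ (k + 1) ≤ G := posdef (k + 1) z (by omega) A w hw0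
  set Wt : ℝ := ∑ a ∈ A, w a with hWt
  have hG0 : 0 ≤ G := le_trans (by (clear * - hwpos; positivity)) hpd
  -- pointwise tangent
  have htan : ∀ n, R * (N n * Y n ^ k) - (R - 1) * Y n ^ (k + 1) ≤ N n ^ (k + 1) := by
    intro n
    have h := pow_tangent (k + 1) (by omega) (hN0 n) (hY0 n)
    simp only [Nat.add_sub_cancel] at h
    calc R * (N n * Y n ^ k) - (R - 1) * Y n ^ (k + 1)
        = ((k + 1 : ℕ) : ℝ) * Y n ^ k * N n - (((k + 1 : ℕ) : ℝ) - 1) * Y n ^ (k + 1) := by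
          rw [← hR]; ring
      _ ≤ _ := h
  have hsumtan : R * (∑ n ∈ Icc 1 x, N n * Y n ^ k) - (R - 1) * ∑ n ∈ Icc 1 x, Y n ^ (k + 1)
      ≤ ∑ n ∈ Icc 1 x, N n ^ (k + 1) := by
    rw [Finset.mul_sum, Finset.mul_sum, ← Finset.sum_sub_distrib]
    exact Finset.sum_le_sum fun n _ => htan n
  -- the error term
  have herr : x / Real.log x ^ (k + 2) * Wt ^ (k + 1) ≤ (1 / Real.log x) * (X * G) := by
    have e : (x:ℝ) / Real.log x ^ (k + 2) = (1 / Real.log x) * X := by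
      rw [hX, pow_succ (Real.log x) (k + 1)]
      field_simp
    rw [e, mul_assoc]
    gcongr
  have hlogR : 2 * R * (1 / Real.log x) ≤ ε / 4 := by
    rw [mul_one_div, div_le_iff₀ hLpos]
    have := (div_le_iff₀ hε).mp hx3
    nlinarith only [this]
  have hRε : R * (2 * ε1) ≤ ε / 4 := by
    have := mul_le_mul_of_nonneg_left hε1le (by (clear * - hk; positivity) : 0 ≤ 2 * R)
    calc R * (2 * ε1) = 2 * R * ε1 := by ring
      _ ≤ 2 * R * (ε / (8 * R)) := this
      _ = ε / 4 := by field_simp; ring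
  have hSN : (1 - ε / 2) * (X * G) ≤ ∑ n ∈ Icc 1 x, N n ^ (k + 1) := by
    have h3 : R * ((1 - ε1 - ε1) * (X * G) - (1 / Real.log x) * (X * G))
        ≤ R * ∑ n ∈ Icc 1 x, N n * Y n ^ k := by
      refine mul_le_mul_of_nonneg_left ?_ hR0.le
      refine le_trans ?_ h1
      have : (1 - ε1 - ε1) * X * G = (1 - ε1 - ε1) * (X * G) := by ring
      rw [this]
      linarith only [herr]
    have h4 : (R - 1) * ∑ n ∈ Icc 1 x, Y n ^ (k + 1) ≤ (R - 1) * (X * G + (1 / Real.log x) * (X * G)) := by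
      refine mul_le_mul_of_nonneg_left ?_ (by linarith only [hrR, hε1pos, hε1lt])
      exact h2.trans (by linarith only [herr])
    have hXG : 0 ≤ X * G := by (clear * - hx4 hLpos hG0; positivity)
    have h5 : (1 - ε / 2) * (X * G) ≤ R * ((1 - ε1 - ε1) * (X * G) - (1 / Real.log x) * (X * G))
        - (R - 1) * (X * G + (1 / Real.log x) * (X * G)) := by
      have h6 : R * ((1 - ε1 - ε1) * (X * G) - (1 / Real.log x) * (X * G))
        - (R - 1) * (X * G + (1 / Real.log x) * (X * G))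
        = (1 - R * (2 * ε1) - (2 * R - 1) * (1 / Real.log x)) * (X * G) := by ring
      rw [h6]
      refine mul_le_mul_of_nonneg_right ?_ hXG
      have h7 : (2 * R - 1) * (1 / Real.log x) ≤ 2 * R * (1 / Real.log x) := by
        have : 0 ≤ 1 / Real.log x := by (clear * - hLpos; positivity)
        nlinarith only [this]
      linarith only [hlogR, hRε, h7]
    linarith only [hsumtan, h3, h4, h5]
  -- Young
  set l : ℝ := Wt / Real.log x with hl
  have hlpos : 0 < l := by (clear * - hLpos hwpos; positivity)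
  have hSM : ∑ n ∈ Icc 1 x, N n ^ k ≤ (R - 1) / (R * l) * ∑ n ∈ Icc 1 x, N n ^ (k + 1)
      + (x * l ^ (k + 1)) / (R * l) := by
    have hpt : ∀ n, N n ^ k ≤ (R - 1) / (R * l) * N n ^ (k + 1) + l ^ (k + 1) / (R * l) := by
      intro n
      have h := pow_tangent (k + 1) (by omega) hlpos.le (hN0 n)
      simp only [Nat.add_sub_cancel] at h
      rw [← hR] at h
      have h8 : (R - 1) / (R * l) * N n ^ (k + 1) + l ^ (k + 1) / (R * l)
          = ((R - 1) * N n ^ (k + 1) + l ^ (k + 1)) / (R * l) := by ring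
      rw [h8, le_div_iff₀ (by (clear * - hk hLpos hwpos; positivity))]
      nlinarith only [h]
    calc ∑ n ∈ Icc 1 x, N n ^ k
        ≤ ∑ n ∈ Icc 1 x, ((R - 1) / (R * l) * N n ^ (k + 1) + l ^ (k + 1) / (R * l)) :=
          Finset.sum_le_sum fun n _ => hpt n
      _ = _ := by
          rw [Finset.sum_add_distrib, ← Finset.mul_sum, Finset.sum_const, Nat.card_Icc,
            Nat.add_sub_cancel, nsmul_eq_mul, mul_div_assoc]
  have hWle : x * l ^ (k + 1) ≤ X * G := by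
    have e : (x:ℝ) * l ^ (k + 1) = X * Wt ^ (k + 1) := by
      rw [hl, hX, div_pow]; ring
    rw [e]
    gcongr
  -- the injective sum
  have hinj : ∑ n ∈ Icc 1 x, N n ^ (k + 1) - (R * (R - 1) / 2) * ∑ n ∈ Icc 1 x, N n ^ k
      ≤ ∑ a ∈ injTuples (k + 1) A, (∏ i, w (a i)) * (cnt a x : ℝ) := by
    have e : ∑ a ∈ injTuples (k + 1) A, (∏ i, w (a i)) * (cnt a x : ℝ)
        = ∑ n ∈ Icc 1 x, ∑ a ∈ injTuples (k + 1) A, ∏ i, (w (a i) * ip (n + a i)) := by
      rw [Finset.sum_comm]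
      refine Finset.sum_congr rfl fun a _ => ?_
      rw [cnt_eq, Finset.mul_sum]
      refine Finset.sum_congr rfl fun n _ => ?_
      rw [Finset.prod_mul_distrib]
    rw [e, Finset.mul_sum, ← Finset.sum_sub_distrib]
    refine Finset.sum_le_sum fun n _ => ?_
    have h := inj_sum_ge (k + 1) (by omega) A (fun a => w a * ip (n + a)) (fun a ha =>
      ⟨mul_nonneg (hw0 a ha) (ip_nonneg _),
        mul_le_one₀ (hw a ha).2 (ip_nonneg _) (ip_le_one _)⟩)
    simp only [Nat.add_sub_cancel] at h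
    exact h
  have hS0 : 0 ≤ ∑ a ∈ injTuples (k + 1) A, (∏ i, w (a i)) * (cnt a x : ℝ) := by
    refine Finset.sum_nonneg fun a ha => mul_nonneg (Finset.prod_nonneg fun i _ => ?_) (Nat.cast_nonneg _)
    exact hw0 _ ((mem_injTuples.mp ha).1 i)
  have hfin := final_alg (r := R) (c := R * (R - 1) / 2) (l := l) (δ := ε / 2) (X := X) (x := x)
    (W := x * l ^ (k + 1)) (G := G) hrR rfl hlpos (by (clear * - hε; positivity)) hS0 (by (clear * - hx4 hLpos hG0; positivity)) hSN hSM hWle hinj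
  refine le_trans ?_ hfin
  refine mul_le_mul_of_nonneg_right ?_ (by (clear * - hx4 hLpos hG0; positivity))
  have e : R * (R - 1) / 2 / l = R * (R - 1) / 2 * (Real.log x / Wt) := by
    rw [hl]; field_simp
  rw [e]
  linarith only [hε]

end Pool.Agent.HLB
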