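import Pool.Agent.Lib.HL.ExtremeAux
import Pool.Agent.Lib.HL.MainDefs
import Pool.Agent.Lib.HLB.Defs

/-!
# The full singular series of a tuple indexed by a finite type

Everything is transported from `Fin r` (`Sieve4`, `HL`) along an equivalence with `Fin r`.
-/

set_option autoImplicit false

open Finset Filter Topology

namespace Pool.Agent.HLB

open Pool.Agent.HL Pool.Agent.Lib.Sieve4

/-- Singular series. -/
noncomputable def SI {ι : Type} [Fintype ι] (t : ι → ℕ) : ℝ := ∏' p : Nat.Primes, locI t p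

lemma nuI_comp {ι κ : Type} [Fintype ι] [Fintype κ] (e : κ ≃ ι) (t : ι → ℕ) (p : ℕ) :
    nuI (fun i => t (e i)) p = nuI t p := by
  unfold nuI
  congr 1
  ext z
  simp only [Finset.mem_image, Finset.mem_univ, true_and]
  constructor
  · rintro ⟨i, hi⟩
    exact ⟨e i, hi⟩
  · rintro ⟨i, hi⟩
    exact ⟨e.symm i, by rw [e.apply_symm_apply]; exact hi⟩

lemma locI_comp {ι κ : Type} [Fintype ι] [Fintype κ] (e : κ ≃ ι) (t : ι → ℕ) (p : ℕ) :
    locI (fun i => t (e i)) p = locI t p := by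
  unfold locI
  rw [nuI_comp, Fintype.card_congr e]

lemma nuI_succ {ι : Type} [Fintype ι] (t : ι → ℕ) (p : ℕ) :
    nuI (fun i => t i + 1) p = nuI t p := by
  unfold nuI
  have h : (univ.image (fun i => (((t i + 1 : ℕ) : ℕ) : ZMod p)))
      = (univ.image (fun i => ((t i : ℕ) : ZMod p))).image (fun z => z + 1) := by
    rw [Finset.image_image]
    refine Finset.image_congr fun i _ => ?_
    simp
  rw [h]
  exact Finset.card_image_of_injective _ (add_left_injective 1)

lemma locI_succ {ι : Type} [Fintype ι] (t : ι → ℕ) (p : ℕ) :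
    locI (fun i => t i + 1) p = locI t p := by
  unfold locI
  rw [nuI_succ]

/-- The equivalence used for the transport. -/
noncomputable def eqv (ι : Type) [Fintype ι] : Fin (Fintype.card ι) ≃ ι := (Fintype.equivFin ι).symm

lemma loc_eqv {ι : Type} [Fintype ι] (t : ι → ℕ) (p : ℕ) :
    loc (shift 0 1 (fun i => t (eqv ι i))) p = locI t p := by
  rw [locI_fin, locI_comp (eqv ι) t p]

lemma inj_eqv {ι : Type} [Fintype ι] (t : ι → ℕ) (ht : Function.Injective t) :
    Function.Injective (fun i => t (eqv ι i)) := fun _ _ h => (eqv ι).injective (ht h)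

lemma hasProd_SI {ι : Type} [Fintype ι] (t : ι → ℕ) (ht : Function.Injective t) :
    HasProd (fun p : Nat.Primes => locI t p) (SI t) := by
  have h := multipliable_loc (shift 0 1 (fun i => t (eqv ι i)))
    (shift_injective 0 1 one_ne_zero _ (inj_eqv t ht))
  have e : (fun p : Nat.Primes => loc (shift 0 1 (fun i => t (eqv ι i))) (p : ℕ))
      = fun p : Nat.Primes => locI t (p : ℕ) := by
    funext p
    exact loc_eqv t p
  rw [e] at h
  exact h.hasProd

lemma hasProd_SI' {ι : Type} [Fintype ι] (t : ι → ℕ) (ht : Function.Injective t) :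
    HasProd (fun p : Nat.Primes => loc (shift 0 1 (fun i => t (eqv ι i))) p) (SI t) := by
  have e : (fun p : Nat.Primes => loc (shift 0 1 (fun i => t (eqv ι i))) (p : ℕ))
      = fun p : Nat.Primes => locI t (p : ℕ) := by
    funext p
    exact loc_eqv t p
  rw [e]
  exact hasProd_SI t ht

lemma SI_nonneg {ι : Type} [Fintype ι] (t : ι → ℕ) (ht : Function.Injective t) : 0 ≤ SI t :=
  SS_nonneg _ (hasProd_SI' t ht)

lemma SI_eq_zero {ι : Type} [Fintype ι] (t : ι → ℕ) (ht : Function.Injective t) {p : ℕ}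
    (hp : p.Prime) (h : p ≤ nuI t p) : SI t = 0 := by
  have h1 : nuI t p = p := le_antisymm (nuI_le_prime t hp) h
  have h2 : locI t p = 0 := by
    unfold locI
    rw [h1, div_self (by exact_mod_cast hp.ne_zero), sub_self, zero_mul]
  have h3 : HasProd (fun p : Nat.Primes => locI t p) 0 :=
    hasProd_zero_of_exists_eq_zero ⟨⟨p, hp⟩, h2⟩
  exact (hasProd_SI t ht).unique h3

lemma nu_eqv {ι : Type} [Fintype ι] (t : ι → ℕ) (p : ℕ) :
    nu (shift 0 1 (fun i => t (eqv ι i))) p = nuI t p := by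
  rw [nuI_fin, nuI_comp (eqv ι) t p]

lemma c0_le_SI {ι : Type} [Fintype ι] (t : ι → ℕ) (ht : Function.Injective t)
    (hι : 1 ≤ Fintype.card ι) (hadm : ∀ p : ℕ, p.Prime → nuI t p < p) :
    c0 (Fintype.card ι) ≤ SI t :=
  c0_le hι (shift 0 1 (fun i => t (eqv ι i)))
    (fun p hp => by rw [nu_eqv]; exact hadm p hp) _ (hasProd_SI' t ht)

lemma toNat_shift {ι : Type} [Fintype ι] (t : ι → ℕ) (n : ℕ) (i : Fin (Fintype.card ι)) :
    ((n : ℤ) + shift 0 1 (fun i => t (eqv ι i)) i).toNat = n + t (eqv ι i) := by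
  show ((n : ℤ) + ((0 + 1 * t (eqv ι i) : ℕ) : ℤ)).toNat = n + t (eqv ι i)
  omega

lemma filter_eqv {ι : Type} [Fintype ι] (t : ι → ℕ) (x : ℕ) :
    (Icc 1 x).filter (fun n : ℕ => ∀ i, (n + t i).Prime)
      = (Icc 1 x).filter (fun n : ℕ => ∀ i, Nat.Prime
        (((n : ℤ) + shift 0 1 (fun i => t (eqv ι i)) i).toNat)) := by
  refine Finset.filter_congr fun n _ => ?_
  constructor
  · intro h i
    rw [toNat_shift]
    exact h _
  · intro h i
    have := h ((eqv ι).symm i)
    rw [toNat_shift, (eqv ι).apply_symm_apply] at this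
    exact this

theorem tuple_upperI (r : ℕ) (hr : 1 ≤ r) : ∃ K : ℝ, 0 < K ∧
    ∀ (ι : Type) [Fintype ι] (t : ι → ℕ), Fintype.card ι = r → Function.Injective t →
      (∀ p : ℕ, p.Prime → nuI t p < p) → ∀ x : ℕ, 2 ≤ x →
      (((Icc 1 x).filter (fun n : ℕ => ∀ i, (n + t i).Prime)).card : ℝ)
        ≤ K * SI t * (x / Real.log x ^ r) := by
  obtain ⟨K, hK, h⟩ := tuple_upper r hr
  refine ⟨K, hK, ?_⟩
  intro ι _ t hcard ht hadm x hx
  subst hcard
  have h1 := h (shift 0 1 (fun i => t (eqv ι i))) (fun p hp => by rw [nu_eqv]; exact hadm p hp)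
    (SI t) (hasProd_SI' t ht) x hx
  rw [filter_eqv]
  refine h1.trans (le_of_eq ?_)
  ring

lemma count_inadm {ι : Type} [Fintype ι] (t : ι → ℕ) {p : ℕ} (hp : p.Prime) (h : p ≤ nuI t p)
    (x : ℕ) : ((Icc 1 x).filter (fun n : ℕ => ∀ i, (n + t i).Prime)).card ≤ Fintype.card ι := by
  have h1 := tcount_le_of_inadm (shift 0 1 (fun i => t (eqv ι i))) hp (by rw [nu_eqv]; exact h) x
  rw [filter_eqv]
  exact h1

/-- Upper bound for the singular series by a partial product. -/
lemma SI_le_SZ {ι : Type} [Fintype ι] (t : ι → ℕ) (hr : 1 ≤ Fintype.card ι)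
    (ht : Function.Injective t) (x z : ℕ) (hz : 2 ≤ z) (htx : ∀ i, t i ≤ x) :
    SI t ≤ SZ z t * Real.exp (2 * (Fintype.card ι : ℝ) ^ 3 * Real.log ((x + 1 : ℕ) : ℝ)
      / (z * Real.log z)) := by
  classical
  set r := Fintype.card ι with hrdef
  set b : Fin r → ℕ := fun i => t (eqv ι i) + 1 with hb
  have hlocb : ∀ p, loc (shift 0 1 b) p = locI t p := by
    intro p
    rw [locI_fin, hb, locI_succ (fun i => t (eqv ι i)) p, locI_comp (eqv ι) t p]
  have hbT : b ∈ injTuples r (Icc 1 (x + 1)) := by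
    rw [mem_injTuples]
    constructor
    · intro i
      rw [mem_Icc, hb]
      have := htx (eqv ι i)
      constructor
      · simp
      · simpa using this
    · intro i j hij
      exact inj_eqv t ht (by simpa [hb] using hij)
  have hS : HasProd (fun p : Nat.Primes => loc (shift 0 1 b) p) (SI t) := by
    have e : (fun p : Nat.Primes => loc (shift 0 1 b) (p : ℕ))
        = fun p : Nat.Primes => locI t (p : ℕ) := by
      funext p
      exact hlocb p
    rw [e]
    exact hasProd_SI t ht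
  have h1 := SS_le hr 0 1 (x + 1) one_ne_zero b hbT z hS
  have hW : WW (Nat.primesLE z) 0 1 b = SZ z t := by
    unfold WW SZ
    rw [Nat.primeFactors_one, Finset.union_empty]
    exact Finset.prod_congr rfl fun p _ => hlocb p
  rw [hW] at h1
  refine h1.trans ?_
  apply mul_le_mul_of_nonneg_left _ (SZ_nonneg z t)
  have hz0 : (0:ℝ) < z := by
    have : 0 < z := by omega
    exact_mod_cast this
  have hz2 : (2:ℝ) ≤ z := by exact_mod_cast hz
  have hlogz : 0 < Real.log z := Real.log_pos (by linarith)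
  have h3 : ∏ p ∈ badPrimes b z (x + 1), ww (r-1) p
      ≤ Real.exp (2 * r * (badPrimes b z (x + 1)).card / z) := by
    have h4 : ∀ p ∈ badPrimes b z (x + 1), ww (r-1) p ≤ Real.exp (2 * r / z) := by
      intro p hp
      have hp' := mem_primesIoc.mp (mem_filter.mp hp).1
      refine (ww_le_exp (r-1) hp'.2).trans ?_
      apply Real.exp_le_exp.mpr
      have h5 : (z:ℝ) ≤ p := by exact_mod_cast hp'.1.1.le
      have h6 : ((r - 1 : ℕ) : ℝ) ≤ r := by exact_mod_cast Nat.sub_le r 1
      gcongr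
    calc ∏ p ∈ badPrimes b z (x + 1), ww (r-1) p
        ≤ ∏ p ∈ badPrimes b z (x + 1), Real.exp (2 * r / z) := by
          apply Finset.prod_le_prod
          · intro p hp
            exact zero_le_one.trans (one_le_ww _ (mem_primesIoc.mp (mem_filter.mp hp).1).2)
          · exact h4
      _ = Real.exp (2 * r * (badPrimes b z (x + 1)).card / z) := by
          rw [Finset.prod_const, ← Real.exp_nat_mul]
          congr 1
          ring
  refine h3.trans ?_
  apply Real.exp_le_exp.mpr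
  have h5 := card_badPrimes_le b z (x + 1) (by omega) hbT
  rw [div_le_div_iff₀ hz0 (by positivity)]
  have hr0 : (0:ℝ) ≤ r := by positivity
  calc 2 * (r:ℝ) * ((badPrimes b z (x + 1)).card : ℝ) * (z * Real.log z)
      = 2 * r * z * (((badPrimes b z (x + 1)).card : ℝ) * Real.log z) := by ring
    _ ≤ 2 * r * z * ((r:ℝ) ^ 2 * Real.log ((x + 1 : ℕ) : ℝ)) := by gcongr
    _ = 2 * (r:ℝ) ^ 3 * Real.log ((x + 1 : ℕ) : ℝ) * z := by ring

theorem sing_tail (R r : ℕ) (hr : 1 ≤ r) {ε : ℝ} (hε : 0 < ε) :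
    ∀ᶠ x : ℕ in atTop, ∀ (ι : Type) [Fintype ι] (t : ι → ℕ), Fintype.card ι = r →
      Function.Injective t → (∀ i, t i ≤ x) → SI t ≤ (1 + ε) * SZ (zz R x) t := by
  have hR : (0:ℝ) < 2 * ((R:ℝ) + 1) := by positivity
  have hlog : Tendsto (fun x : ℕ => Real.log x) atTop atTop :=
    Real.tendsto_log_atTop.comp tendsto_natCast_atTop_atTop
  have hzT : Tendsto (fun x : ℕ => zz R x) atTop atTop := by
    unfold zz
    exact tendsto_nat_floor_atTop.comp (hlog.atTop_div_const hR)
  have hzR : Tendsto (fun x : ℕ => Real.log (zz R x : ℝ)) atTop atTop :=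
    Real.tendsto_log_atTop.comp (tendsto_natCast_atTop_atTop.comp hzT)
  have hE : Tendsto (fun x : ℕ => Real.exp (16 * (r:ℝ) ^ 3 * ((R:ℝ) + 1) / Real.log (zz R x : ℝ)))
      atTop (𝓝 (Real.exp 0)) :=
    (Real.continuous_exp.tendsto 0).comp (hzR.const_div_atTop _)
  rw [Real.exp_zero] at hE
  have hE1 := hE.eventually_le_const (show (1:ℝ) < 1 + ε by linarith)
  filter_upwards [hE1, hzT.eventually_ge_atTop 2, hlog.eventually_ge_atTop (4 * ((R:ℝ) + 1)),
    eventually_ge_atTop 2] with x hx1 hx2 hx3 hx4 ι _ t hcard ht htx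
  have hx0 : (0:ℝ) < x := by
    have : 0 < x := by omega
    exact_mod_cast this
  have hz2 : (2:ℝ) ≤ (zz R x : ℝ) := by exact_mod_cast hx2
  have hlogz : 0 < Real.log (zz R x : ℝ) := Real.log_pos (by linarith)
  have hlogx : 0 < Real.log x := lt_of_lt_of_le (by positivity) hx3
  have h1 := SI_le_SZ t (by rw [hcard]; exact hr) ht x (zz R x) hx2 htx
  rw [hcard] at h1
  refine h1.trans ?_
  rw [mul_comm]
  apply mul_le_mul_of_nonneg_right _ (SZ_nonneg _ t)
  refine le_trans (Real.exp_le_exp.mpr ?_) hx1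
  -- lower bound for z
  have hzge : Real.log x / (4 * ((R:ℝ) + 1)) ≤ (zz R x : ℝ) := by
    have h2 : Real.log x / (2 * ((R:ℝ) + 1)) - 1 < (zz R x : ℝ) := by
      unfold zz
      exact Nat.sub_one_lt_floor _
    have h3 : 1 ≤ Real.log x / (4 * ((R:ℝ) + 1)) := by
      rw [le_div_iff₀ (by positivity)]
      linarith
    have h4 : Real.log x / (2 * ((R:ℝ) + 1)) = 2 * (Real.log x / (4 * ((R:ℝ) + 1))) := by
      field_simp
      ring
    linarith
  have hlog1 : Real.log ((x + 1 : ℕ) : ℝ) ≤ 2 * Real.log x := by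
    have h2 : ((x + 1 : ℕ) : ℝ) ≤ (x:ℝ) ^ 2 := by
      have h3 : x + 1 ≤ x ^ 2 := by nlinarith
      exact_mod_cast h3
    calc Real.log ((x + 1 : ℕ) : ℝ) ≤ Real.log ((x:ℝ) ^ 2) :=
          Real.log_le_log (by positivity) h2
      _ = 2 * Real.log x := by rw [Real.log_pow]; norm_num
  have hzpos : (0:ℝ) < zz R x := by linarith
  rw [div_le_div_iff₀ (by positivity) hlogz]
  have hlx : Real.log x ≤ 4 * ((R:ℝ) + 1) * (zz R x : ℝ) := by
    rw [div_le_iff₀ (by positivity)] at hzge
    linarith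
  calc 2 * (r:ℝ) ^ 3 * Real.log ((x + 1 : ℕ) : ℝ) * Real.log (zz R x : ℝ)
      ≤ 2 * (r:ℝ) ^ 3 * (2 * (4 * ((R:ℝ) + 1) * (zz R x : ℝ))) * Real.log (zz R x : ℝ) := by
        gcongr
        linarith
    _ = 16 * (r:ℝ) ^ 3 * ((R:ℝ) + 1) * ((zz R x : ℝ) * Real.log (zz R x : ℝ)) := by ring

end Pool.Agent.HLB
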