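import Mathlib

/-!
# Bonferroni inequalities for products

`TT S g k` is the truncated inclusion-exclusion sum, `EE S g k` the elementary symmetric function.
-/

set_option autoImplicit false

open Finset

namespace Pool.Agent.HLB

/-- Truncated inclusion-exclusion sum. -/
noncomputable def TT (S : Finset ℕ) (g : ℕ → ℝ) (k : ℕ) : ℝ :=
  ∑ s ∈ S.powerset.filter (fun s => s.card ≤ k), (-1) ^ s.card * ∏ p ∈ s, g p

/-- Elementary symmetric function. -/
noncomputable def EE (S : Finset ℕ) (g : ℕ → ℝ) (k : ℕ) : ℝ :=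
  ∑ s ∈ S.powerset.filter (fun s => s.card = k), ∏ p ∈ s, g p

lemma EE_nonneg (S : Finset ℕ) (g : ℕ → ℝ) (hg : ∀ p ∈ S, 0 ≤ g p) (k : ℕ) : 0 ≤ EE S g k := by
  unfold EE
  apply Finset.sum_nonneg
  intro s hs
  rw [Finset.mem_filter, Finset.mem_powerset] at hs
  exact Finset.prod_nonneg (fun p hp => hg p (hs.1 hp))

lemma TT_zero (S : Finset ℕ) (g : ℕ → ℝ) : TT S g 0 = 1 := by
  unfold TT
  have : S.powerset.filter (fun s => s.card ≤ 0) = {∅} := by
    ext s
    simp only [Finset.mem_filter, Finset.mem_powerset, Nat.le_zero, Finset.card_eq_zero,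
      Finset.mem_singleton]
    constructor
    · exact fun h => h.2
    · rintro rfl; exact ⟨Finset.empty_subset _, rfl⟩
  rw [this, Finset.sum_singleton]
  simp

lemma TT_empty (g : ℕ → ℝ) (k : ℕ) : TT ∅ g k = 1 := by
  unfold TT
  rw [Finset.powerset_empty, Finset.filter_singleton]
  simp

lemma TT_insert (S : Finset ℕ) (g : ℕ → ℝ) (k : ℕ) {a : ℕ} (ha : a ∉ S) :
    TT (insert a S) g (k + 1) = TT S g (k + 1) - g a * TT S g k := by
  unfold TT
  rw [Finset.sum_filter, Finset.sum_powerset_insert ha, Finset.sum_filter, Finset.sum_filter,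
    Finset.mul_sum, sub_eq_add_neg, ← Finset.sum_neg_distrib]
  congr 1
  apply Finset.sum_congr rfl
  intro s hs
  rw [Finset.mem_powerset] at hs
  have has : a ∉ s := fun h => ha (hs h)
  rw [Finset.card_insert_of_notMem has, Finset.prod_insert has]
  by_cases h : s.card ≤ k
  · rw [if_pos (by omega), if_pos h, pow_succ]; ring
  · rw [if_neg (by omega), if_neg h]; ring

lemma EE_zero (S : Finset ℕ) (g : ℕ → ℝ) : EE S g 0 = 1 := by
  unfold EE
  have : S.powerset.filter (fun s => s.card = 0) = {∅} := by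
    ext s
    simp only [Finset.mem_filter, Finset.mem_powerset, Finset.card_eq_zero,
      Finset.mem_singleton]
    constructor
    · exact fun h => h.2
    · rintro rfl; exact ⟨Finset.empty_subset _, rfl⟩
  rw [this, Finset.sum_singleton]
  simp

lemma EE_empty_succ (g : ℕ → ℝ) (k : ℕ) : EE ∅ g (k + 1) = 0 := by
  unfold EE
  rw [Finset.powerset_empty, Finset.filter_singleton]
  simp

lemma EE_insert (S : Finset ℕ) (g : ℕ → ℝ) (k : ℕ) {a : ℕ} (ha : a ∉ S) :
    EE (insert a S) g (k + 1) = EE S g (k + 1) + g a * EE S g k := by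
  unfold EE
  rw [Finset.sum_filter, Finset.sum_powerset_insert ha, Finset.sum_filter, Finset.sum_filter,
    Finset.mul_sum]
  congr 1
  apply Finset.sum_congr rfl
  intro s hs
  rw [Finset.mem_powerset] at hs
  have has : a ∉ s := fun h => ha (hs h)
  rw [Finset.card_insert_of_notMem has, Finset.prod_insert has]
  by_cases h : s.card = k
  · rw [if_pos (by omega), if_pos h]
  · rw [if_neg (by omega), if_neg h]; ring

lemma TT_succ (S : Finset ℕ) (g : ℕ → ℝ) (k : ℕ) :
    TT S g (k + 1) = TT S g k + (-1) ^ (k + 1) * EE S g (k + 1) := by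
  unfold TT EE
  rw [Finset.sum_filter, Finset.sum_filter, Finset.sum_filter, Finset.mul_sum,
    ← Finset.sum_add_distrib]
  apply Finset.sum_congr rfl
  intro s _
  rcases lt_trichotomy s.card (k + 1) with h | h | h
  · rw [if_pos (by omega), if_pos (by omega), if_neg (by omega)]; ring
  · rw [if_pos (by omega), if_neg (by omega), if_pos (by omega), h]; ring
  · rw [if_neg (by omega), if_neg (by omega), if_neg (by omega)]; ring

lemma bonf_aux (S : Finset ℕ) (g : ℕ → ℝ) (hg : ∀ p ∈ S, 0 ≤ g p ∧ g p ≤ 1) :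
    ∀ k : ℕ, (Even k → ∏ p ∈ S, (1 - g p) ≤ TT S g k) ∧
      (¬ Even k → TT S g k ≤ ∏ p ∈ S, (1 - g p)) := by
  induction S using Finset.induction_on with
  | empty =>
    intro k
    rw [TT_empty, Finset.prod_empty]
    exact ⟨fun _ => le_rfl, fun _ => le_rfl⟩
  | insert a S ha ih =>
    have ih' := ih (fun p hp => hg p (Finset.mem_insert_of_mem hp))
    have hga := hg a (Finset.mem_insert_self a S)
    intro k
    rw [Finset.prod_insert ha]
    cases k with
    | zero =>
      rw [TT_zero]
      refine ⟨fun _ => ?_, fun h => absurd (by decide : Even 0) h⟩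
      have h1 : ∏ p ∈ S, (1 - g p) ≤ 1 := by
        apply Finset.prod_le_one
        · intro p hp
          have := hg p (Finset.mem_insert_of_mem hp)
          linarith
        · intro p hp
          have := hg p (Finset.mem_insert_of_mem hp)
          linarith
      have h0 : 0 ≤ ∏ p ∈ S, (1 - g p) := by
        apply Finset.prod_nonneg
        intro p hp
        have := hg p (Finset.mem_insert_of_mem hp)
        linarith
      nlinarith
    | succ k =>
      rw [TT_insert S g k ha]
      constructor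
      · intro hk
        have hk' : ¬ Even k := by
          rw [Nat.even_add_one] at hk; exact hk
        have h1 := (ih' (k + 1)).1 hk
        have h2 := (ih' k).2 hk'
        nlinarith [mul_le_mul_of_nonneg_left h2 hga.1]
      · intro hk
        have hk' : Even k := by
          rw [Nat.even_add_one, not_not] at hk; exact hk
        have h1 := (ih' (k + 1)).2 hk
        have h2 := (ih' k).1 hk'
        nlinarith [mul_le_mul_of_nonneg_left h2 hga.1]

/-- Bonferroni, upper bound for the product. -/
lemma prod_le_TT (S : Finset ℕ) (g : ℕ → ℝ) (hg : ∀ p ∈ S, 0 ≤ g p ∧ g p ≤ 1) (k : ℕ)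
    (hk : Even k) : ∏ p ∈ S, (1 - g p) ≤ TT S g k :=
  (bonf_aux S g hg k).1 hk

/-- Bonferroni, lower bound for the product. -/
lemma TT_sub_le_prod (S : Finset ℕ) (g : ℕ → ℝ) (hg : ∀ p ∈ S, 0 ≤ g p ∧ g p ≤ 1) (k : ℕ)
    (hk : Even k) : TT S g k - EE S g (k + 1) ≤ ∏ p ∈ S, (1 - g p) := by
  have h1 := (bonf_aux S g hg (k + 1)).2 (by rw [Nat.even_add_one, not_not]; exact hk)
  rw [TT_succ, (Even.add_one hk : Odd (k + 1)).neg_one_pow] at h1
  linarith

lemma pow_add_ge (x g : ℝ) (hx : 0 ≤ x) (hg : 0 ≤ g) (k : ℕ) :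
    x ^ (k + 1) + ((k : ℝ) + 1) * g * x ^ k ≤ (x + g) ^ (k + 1) := by
  induction k with
  | zero => simp
  | succ k ih =>
    have h1 : 0 ≤ x ^ k := pow_nonneg hx k
    have h2 := mul_le_mul_of_nonneg_right ih (add_nonneg hx hg)
    rw [pow_succ (x + g) (k + 1)]
    refine le_trans ?_ h2
    push_cast
    have h3 : 0 ≤ ((k : ℝ) + 1) * g * x ^ k * g := by positivity
    have e : (x ^ (k + 1) + ((k : ℝ) + 1) * g * x ^ k) * (x + g)
        = x ^ (k + 1 + 1) + ((k : ℝ) + 1 + 1) * g * x ^ (k + 1)
          + ((k : ℝ) + 1) * g * x ^ k * g := by ring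
    rw [e]
    linarith

lemma EE_le (S : Finset ℕ) (g : ℕ → ℝ) (hg : ∀ p ∈ S, 0 ≤ g p) (k : ℕ) :
    EE S g k ≤ (∑ p ∈ S, g p) ^ k / (k.factorial : ℝ) := by
  induction S using Finset.induction_on generalizing k with
  | empty =>
    cases k with
    | zero => rw [EE_zero]; simp
    | succ k => rw [EE_empty_succ]; simp
  | insert a S ha ih =>
    have ih' := fun k => ih (fun p hp => hg p (Finset.mem_insert_of_mem hp)) k
    have hga := hg a (Finset.mem_insert_self a S)
    have hx : 0 ≤ ∑ p ∈ S, g p :=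
      Finset.sum_nonneg (fun p hp => hg p (Finset.mem_insert_of_mem hp))
    cases k with
    | zero => rw [EE_zero]; simp
    | succ k =>
      rw [EE_insert S g k ha, Finset.sum_insert ha]
      set x := ∑ p ∈ S, g p
      have hf : (0:ℝ) < (k.factorial : ℝ) := by positivity
      have h1 := ih' (k + 1)
      have h2 := mul_le_mul_of_nonneg_left (ih' k) hga
      have h3 := pow_add_ge x (g a) hx hga k
      have hfs : (((k + 1).factorial : ℕ) : ℝ) = ((k : ℝ) + 1) * (k.factorial : ℝ) := by
        rw [Nat.factorial_succ]; push_cast; ring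
      calc EE S g (k + 1) + g a * EE S g k
          ≤ x ^ (k + 1) / ((k + 1).factorial : ℝ) + g a * (x ^ k / (k.factorial : ℝ)) :=
            add_le_add h1 h2
        _ = (x ^ (k + 1) + ((k : ℝ) + 1) * g a * x ^ k) / ((k + 1).factorial : ℝ) := by
            rw [hfs]
            field_simp
        _ ≤ (x + g a) ^ (k + 1) / ((k + 1).factorial : ℝ) := by
            apply div_le_div_of_nonneg_right h3 (by positivity)
        _ = (g a + x) ^ (k + 1) / ((k + 1).factorial : ℝ) := by rw [add_comm x (g a)]

/-- Sums over subsets of a disjoint union. -/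
lemma sum_powerset_union (A B : Finset ℕ) (hAB : Disjoint A B) (F G : Finset ℕ → ℝ) :
    ∑ s ∈ (A ∪ B).powerset, F (s ∩ A) * G (s ∩ B)
      = (∑ s ∈ A.powerset, F s) * ∑ s ∈ B.powerset, G s := by
  rw [Finset.sum_mul_sum, ← Finset.sum_product']
  refine Finset.sum_nbij' (fun s => (s ∩ A, s ∩ B)) (fun p => p.1 ∪ p.2) ?_ ?_ ?_ ?_ ?_
  · intro s _
    rw [Finset.mem_product, Finset.mem_powerset, Finset.mem_powerset]
    exact ⟨Finset.inter_subset_right, Finset.inter_subset_right⟩
  · intro p hp
    rw [Finset.mem_product, Finset.mem_powerset, Finset.mem_powerset] at hp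
    rw [Finset.mem_powerset]
    exact Finset.union_subset_union hp.1 hp.2
  · intro s hs
    rw [Finset.mem_powerset] at hs
    show (s ∩ A) ∪ (s ∩ B) = s
    rw [← Finset.inter_union_distrib_left]
    exact Finset.inter_eq_left.mpr hs
  · intro p hp
    rw [Finset.mem_product, Finset.mem_powerset, Finset.mem_powerset] at hp
    have h1 : p.2 ∩ A = ∅ := by
      rw [← Finset.disjoint_iff_inter_eq_empty]
      exact (hAB.mono_right hp.2).symm
    have h2 : p.1 ∩ B = ∅ := by
      rw [← Finset.disjoint_iff_inter_eq_empty]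
      exact hAB.mono_left hp.1
    apply Prod.ext
    · show (p.1 ∪ p.2) ∩ A = p.1
      rw [Finset.union_inter_distrib_right, h1, Finset.union_empty]
      exact Finset.inter_eq_left.mpr hp.1
    · show (p.1 ∪ p.2) ∩ B = p.2
      rw [Finset.union_inter_distrib_right, h2, Finset.empty_union]
      exact Finset.inter_eq_left.mpr hp.2
  · intro s _
    rfl

end Pool.Agent.HLB
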