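import Pool.Agent.Lib.HLB.Defs
import Pool.Agent.Lib.SW.Main

/-!
# Siegel-Walfisz in the form used by the sieve
-/

set_option autoImplicit false

open Finset Filter

namespace Pool.Agent.HLB

lemma thetaAP_bridge (x : ℝ) (q a : ℕ) : thetaAP x q a = Pool.Agent.Lib.SW.thetaAP x q a := rfl

theorem sw_holds : SW := by
  intro A
  obtain ⟨C, hC, h⟩ := Pool.Agent.Lib.SW.siegel_walfisz_theta_nat A
  refine ⟨C, hC, fun x hx q a hq hqA ha => ?_⟩
  rw [Real.rpow_natCast] at hqA ⊢
  exact h x hx q a hq hqA ha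

end Pool.Agent.HLB
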