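import Pool.Agent.Lib.HLB.PrimeSieve

/-!
# Correlations of one prime with several sieve weights, lower bound

Sketch. `F q := the residues c ∈ Ico 1 q with c ≡ t i0 - t i mod q for some i` (for instance
`(Ico 1 q).filter (fun c => ∃ i, ((c : ℕ) : ZMod q) = (t i0 : ZMod q) - (t i : ZMod q))`).
`|F q| = nuI t q - 1` (the map `u ↦ t i0 - u` on `ZMod q` is a bijection from the set of the classes of the
`t i` onto the set of the `t i0 - t i`, one of which is `0`), in particular `|F q| ≤ r - 1`.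
If `m ∈ (η x, x]` is a prime avoiding all `F q`, `q ≤ z := zz r x`, then `n := m - t i0 ∈ [1, x]`
(`t i0 ≤ η x < m`), `n + t i0 = m` is prime and for every `i` and `q ≤ z` prime, `q ∤ n + t i`:
otherwise `m ≡ t i0 - t i`, so either this residue is nonzero and `m % q ∈ F q`, or `q ∣ m`, `q = m`,
impossible as `m > η x > z` for large `x`. So the sum on the right is at least the cardinality in `prime_sieve`
(injectivity of `m ↦ m - t i0`). `bb^(r-1) ∏ (1 - |F q|/(q-1)) = (log x)^(-(r-1)) SZ`: factorwise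
`(1 - 1/q)^{-(r-1)} (q - nu)/(q - 1) = (1 - nu/q) (1 - 1/q)^{-r}`.
Error: `bb r x ≤ 1` for large `x` because `1/DZ z ≤ z + 1` (`∏_{p ≤ z} p/(p-1) ≤ ∏_{2 ≤ n ≤ z} n/(n-1) = z`)
and `zz r x + 1 ≤ log x`. Use `prime_sieve` with `κ = r`, the same `M`.
-/

set_option autoImplicit false

open Finset Filter

namespace Pool.Agent.HLB

open Pool.Agent.HL Pool.Agent.Lib.Sieve4

lemma primesLE_succ_prime (z : ℕ) (h : (z + 1).Prime) :
    Nat.primesLE (z + 1) = insert (z + 1) (Nat.primesLE z) := by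
  ext p
  simp only [Nat.mem_primesLE, mem_insert]
  constructor
  · rintro ⟨h1, h2⟩
    rcases Nat.lt_or_ge z p with h3 | h3
    · left; omega
    · right; exact ⟨h3, h2⟩
  · rintro (h1 | ⟨h1, h2⟩)
    · subst h1; exact ⟨le_refl _, h⟩
    · exact ⟨by omega, h2⟩

lemma primesLE_succ_not_prime (z : ℕ) (h : ¬ (z + 1).Prime) :
    Nat.primesLE (z + 1) = Nat.primesLE z := by
  ext p
  simp only [Nat.mem_primesLE]
  constructor
  · rintro ⟨h1, h2⟩
    refine ⟨?_, h2⟩
    rcases Nat.lt_or_ge z p with h3 | h3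
    · have : p = z + 1 := by omega
      subst this; exact absurd h2 h
    · exact h3
  · rintro ⟨h1, h2⟩
    exact ⟨by omega, h2⟩

lemma DZ_ge (z : ℕ) (hz : 1 ≤ z) : (z : ℝ)⁻¹ ≤ DZ z := by
  induction z, hz using Nat.le_induction with
  | base =>
    have : Nat.primesLE 1 = ∅ := by
      ext p
      simp only [Nat.mem_primesLE, notMem_empty, iff_false, not_and]
      intro h1 h2
      exact absurd h2.two_le (by omega)
    unfold DZ
    rw [this]
    simp
  | succ z hz ih =>
    have hz0 : (0:ℝ) < z := by exact_mod_cast hz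
    by_cases hp : (z + 1).Prime
    · have hnot : z + 1 ∉ Nat.primesLE z := by
        rw [Nat.mem_primesLE]; omega
      unfold DZ at ih ⊢
      rw [primesLE_succ_prime z hp, Finset.prod_insert hnot]
      have h1 : ((z + 1 : ℕ) : ℝ)⁻¹ = (1 - 1 / ((z + 1 : ℕ) : ℝ)) * (z : ℝ)⁻¹ := by
        push_cast
        field_simp
        ring
      rw [h1]
      refine mul_le_mul_of_nonneg_left ih ?_
      exact (one_sub_inv_pos hp).le
    · have : DZ (z + 1) = DZ z := by
        unfold DZ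
        rw [primesLE_succ_not_prime z hp]
      rw [this]
      refine le_trans ?_ ih
      push_cast
      apply inv_anti₀ hz0
      linarith

lemma inv_DZ_le (z : ℕ) : (DZ z)⁻¹ ≤ z + 1 := by
  rcases Nat.eq_zero_or_pos z with rfl | hz
  · have : Nat.primesLE 0 = ∅ := by
      ext p
      simp only [Nat.mem_primesLE, notMem_empty, iff_false, not_and]
      intro h1 h2
      exact absurd h2.two_le (by omega)
    unfold DZ
    rw [this]
    simp
  · have h := DZ_ge z hz
    have hz0 : (0:ℝ) < z := by exact_mod_cast hz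
    have h2 : (DZ z)⁻¹ ≤ z := by
      rw [inv_le_comm₀ (DZ_pos z) hz0]
      exact h
    linarith

lemma zz_le (r x : ℕ) (hx : 0 ≤ Real.log x) : ((zz r x : ℕ) : ℝ) ≤ Real.log x / 2 := by
  unfold zz
  refine (Nat.floor_le (by positivity)).trans ?_
  have hr : (0:ℝ) ≤ r := Nat.cast_nonneg r
  apply div_le_div_of_nonneg_left hx (by norm_num)
  linarith

lemma bb_le_one (r : ℕ) : ∀ᶠ x : ℕ in atTop, bb r x ≤ 1 := by
  have h : Tendsto (fun x : ℕ => Real.log x) atTop atTop :=
    Real.tendsto_log_atTop.comp tendsto_natCast_atTop_atTop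
  filter_upwards [h.eventually_ge_atTop 2] with x hx
  unfold bb
  have hD := DZ_pos (zz r x)
  have h1 := inv_DZ_le (zz r x)
  have h2 := zz_le r x (by linarith)
  rw [mul_inv]
  have h3 : 0 < Real.log x := by linarith
  calc (DZ (zz r x))⁻¹ * (Real.log x)⁻¹ ≤ (Real.log x) * (Real.log x)⁻¹ := by
        apply mul_le_mul_of_nonneg_right _ (by positivity)
        linarith
    _ = 1 := mul_inv_cancel₀ h3.ne'

/-- The forbidden nonzero residues for `n + t i0` modulo `q`. -/
def FF {ι : Type} [Fintype ι] (t : ι → ℕ) (i0 : ι) (q : ℕ) : Finset ℕ :=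
  ((univ.image (fun i => (t i0 : ZMod q) - (t i : ZMod q))).erase 0).image ZMod.val

lemma FF_subset {ι : Type} [Fintype ι] (t : ι → ℕ) (i0 : ι) (q : ℕ) (hq : q.Prime) :
    FF t i0 q ⊆ Ico 1 q := by
  have : NeZero q := ⟨hq.ne_zero⟩
  intro m hm
  simp only [FF, mem_image, mem_erase] at hm
  obtain ⟨c, ⟨hc0, _⟩, rfl⟩ := hm
  rw [mem_Ico]
  refine ⟨?_, ZMod.val_lt _⟩
  rw [Nat.one_le_iff_ne_zero]
  intro h
  exact hc0 ((ZMod.val_eq_zero c).1 h)

lemma card_FF {ι : Type} [Fintype ι] (t : ι → ℕ) (i0 : ι) (q : ℕ) (hq : q.Prime) :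
    (FF t i0 q).card = nuI t q - 1 := by
  have : NeZero q := ⟨hq.ne_zero⟩
  rw [FF, Finset.card_image_of_injective _ (ZMod.val_injective q), Finset.card_erase_of_mem]
  · congr 1
    unfold nuI
    have : univ.image (fun i => (t i0 : ZMod q) - (t i : ZMod q))
        = (univ.image (fun i => ((t i : ℕ) : ZMod q))).image (fun c => (t i0 : ZMod q) - c) := by
      rw [Finset.image_image]
      rfl
    rw [this, Finset.card_image_of_injective]
    intro c d h
    simpa using h
  · rw [mem_image]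
    exact ⟨i0, mem_univ _, sub_self _⟩

lemma mod_mem_FF {ι : Type} [Fintype ι] (t : ι → ℕ) (i0 i : ι) (q m : ℕ)
    (h1 : (m : ZMod q) = (t i0 : ZMod q) - (t i : ZMod q)) (h2 : (m : ZMod q) ≠ 0) :
    m % q ∈ FF t i0 q := by
  simp only [FF, mem_image, mem_erase]
  refine ⟨(m : ZMod q), ⟨h2, i, mem_univ _, h1.symm⟩, ?_⟩
  exact ZMod.val_natCast q m

lemma card_le_sum {ι : Type} [Fintype ι] [DecidableEq ι] (t : ι → ℕ) (i0 : ι) (x z : ℕ) (η : ℝ)
    (h0 : (t i0 : ℝ) ≤ η * x) (hz : (z : ℝ) ≤ η * x) :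
    (((Icc 1 x).filter (fun n : ℕ => (η * x < n ∧ n.Prime) ∧
            ∀ q ∈ Nat.primesLE z, n % q ∉ FF t i0 q)).card : ℝ)
      ≤ ∑ n ∈ Icc 1 x, ip (n + t i0) * ∏ i ∈ univ.erase i0, ic z (n + t i) := by
  classical
  set S := (Icc 1 x).filter (fun n : ℕ => (η * x < n ∧ n.Prime) ∧
            ∀ q ∈ Nat.primesLE z, n % q ∉ FF t i0 q) with hS
  have hlt : ∀ m ∈ S, t i0 < m := by
    intro m hm
    have := (mem_filter.1 hm).2.1.1
    have h2 : (t i0 : ℝ) < m := lt_of_le_of_lt h0 this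
    exact_mod_cast h2
  have hinj : Set.InjOn (fun m => m - t i0) (S : Set ℕ) := by
    intro a ha b hb hab
    have h1 := hlt a ha
    have h2 := hlt b hb
    simp only at hab
    omega
  have hsub : S.image (fun m => m - t i0) ⊆ Icc 1 x := by
    intro n hn
    rw [mem_image] at hn
    obtain ⟨m, hm, rfl⟩ := hn
    have h1 := hlt m hm
    have h2 := (mem_Icc.1 (mem_filter.1 hm).1).2
    rw [mem_Icc]
    omega
  have hterm : ∀ m ∈ S, ip (m - t i0 + t i0) * ∏ i ∈ univ.erase i0, ic z (m - t i0 + t i) = 1 := by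
    intro m hm
    have h1 := hlt m hm
    have hm' := (mem_filter.1 hm).2
    rw [Nat.sub_add_cancel h1.le]
    have e1 : ip m = 1 := by
      unfold ip; rw [if_pos hm'.1.2]
    rw [e1, one_mul]
    refine Finset.prod_eq_one fun i _ => ?_
    unfold ic
    rw [if_pos]
    intro q hq hdvd
    have hqp := (Nat.mem_primesLE.1 hq).2
    have hqz := (Nat.mem_primesLE.1 hq).1
    have : Fact q.Prime := ⟨hqp⟩
    have h2 : (m : ZMod q) = (t i0 : ZMod q) - (t i : ZMod q) := by
      have h3 : ((m - t i0 + t i : ℕ) : ZMod q) = 0 := by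
        rw [ZMod.natCast_eq_zero_iff]; exact hdvd
      rw [Nat.cast_add, Nat.cast_sub h1.le] at h3
      linear_combination h3
    have h4 : (m : ZMod q) ≠ 0 := by
      intro h
      rw [ZMod.natCast_eq_zero_iff] at h
      have h5 : q = m := (Nat.prime_dvd_prime_iff_eq hqp hm'.1.2).1 h
      have h6 : (m : ℝ) ≤ z := by
        rw [← h5]; exact_mod_cast hqz
      have h7 := hm'.1.1
      linarith
    exact hm'.2 q hq (mod_mem_FF t i0 i q m h2 h4)
  calc ((S.card : ℕ) : ℝ) = ∑ m ∈ S, (1:ℝ) := by simp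
    _ = ∑ m ∈ S, ip (m - t i0 + t i0) * ∏ i ∈ univ.erase i0, ic z (m - t i0 + t i) :=
        Finset.sum_congr rfl fun m hm => (hterm m hm).symm
    _ = ∑ n ∈ S.image (fun m => m - t i0),
          ip (n + t i0) * ∏ i ∈ univ.erase i0, ic z (n + t i) := by
        rw [Finset.sum_image hinj]
    _ ≤ _ := by
        refine Finset.sum_le_sum_of_subset_of_nonneg hsub ?_
        intro n _ _
        exact mul_nonneg (ip_nonneg _) (Finset.prod_nonneg fun i _ => ic_nonneg _ _)

lemma prod_FF {ι : Type} [Fintype ι] (t : ι → ℕ) (i0 : ι) (z r : ℕ) (hr : Fintype.card ι = r + 1) :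
    (DZ z ^ r)⁻¹ * ∏ q ∈ Nat.primesLE z, (1 - ((FF t i0 q).card : ℝ) / ((q : ℝ) - 1)) = SZ z t := by
  have : Nonempty ι := ⟨i0⟩
  unfold SZ DZ
  rw [← Finset.prod_pow, ← Finset.prod_inv_distrib, ← Finset.prod_mul_distrib]
  refine Finset.prod_congr rfl fun q hq => ?_
  have hqp := (Nat.mem_primesLE.1 hq).2
  rw [card_FF t i0 q hqp, Nat.cast_sub (nuI_pos t q)]
  unfold locI
  rw [hr]
  have hq1 : (1:ℝ) < q := by exact_mod_cast hqp.one_lt
  have h1 : (q:ℝ) - 1 ≠ 0 := by linarith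
  have h2 : (q:ℝ) ≠ 0 := by linarith
  have h3 : (1 - 1 / (q:ℝ)) = (q - 1) / q := by field_simp
  rw [inv_pow, h3, div_pow, div_pow]
  push_cast
  field_simp
  ring

theorem cl_lower (hSW : SW) (r : ℕ) {η ε : ℝ} (hη0 : 0 < η) (hη1 : η < 1) (hε : 0 < ε) (M : ℕ) :
    ∀ᶠ x : ℕ in atTop, ∀ (ι : Type) [Fintype ι] [DecidableEq ι] (t : ι → ℕ) (i0 : ι),
      Fintype.card ι = r → (t i0 : ℝ) ≤ η * x →
      (1 - η - ε) * (x / Real.log x ^ r) * SZ (zz r x) t - x / Real.log x ^ M
        ≤ bb r x ^ (r - 1) *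
          ∑ n ∈ Icc 1 x, ip (n + t i0) * ∏ i ∈ univ.erase i0, ic (zz r x) (n + t i) := by
  have hlog : Tendsto (fun x : ℕ => Real.log x) atTop atTop :=
    Real.tendsto_log_atTop.comp tendsto_natCast_atTop_atTop
  have hsmall : ∀ᶠ x : ℕ in atTop, Real.log x ≤ η * x := by
    have h1 := (Real.isLittleO_log_id_atTop.bound hη0)
    have h2 := tendsto_natCast_atTop_atTop.eventually h1
    filter_upwards [h2] with x hx
    have hx' : ‖Real.log x‖ ≤ η * ‖(x:ℝ)‖ := hx
    rw [Real.norm_of_nonneg (Nat.cast_nonneg x)] at hx'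
    exact (le_abs_self _).trans hx'
  filter_upwards [prime_sieve hSW r hη0 hη1 hε M, bb_le_one r, hlog.eventually_ge_atTop 2, hsmall]
    with x hps hbb hlx hsm
  intro ι _ _ t i0 hcard ht
  have hne : Nonempty ι := ⟨i0⟩
  have hlpos : 0 < Real.log x := by linarith
  have hzz := zz_le r x hlpos.le
  have hzl : ((zz r x : ℕ) : ℝ) ≤ Real.log x := by linarith
  have hrpos : 0 < r := by rw [← hcard]; exact Fintype.card_pos
  obtain ⟨k, rfl⟩ : ∃ k, r = k + 1 := ⟨r - 1, by omega⟩
  set z := zz (k + 1) x with hz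
  have h1 := hps z hzl (FF t i0) (by
    intro q hq
    have hqp := (Nat.mem_primesLE.1 hq).2
    refine ⟨FF_subset t i0 q hqp, ?_⟩
    rw [card_FF t i0 q hqp]
    have := nuI_le t q
    omega)
  have h2 := card_le_sum t i0 x z η ht (hzl.trans hsm)
  have hbpos : 0 ≤ bb (k + 1) x := by
    unfold bb
    have := DZ_pos (zz (k + 1) x)
    positivity
  have hbk : bb (k + 1) x ^ k ≤ 1 := pow_le_one₀ hbpos hbb
  have hbk0 : 0 ≤ bb (k + 1) x ^ k := pow_nonneg hbpos k
  simp only [Nat.add_sub_cancel]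
  have hx0 : (0:ℝ) ≤ x / Real.log x ^ M := by positivity
  have h3 := mul_le_mul_of_nonneg_left (h1.trans h2) hbk0
  refine le_trans ?_ h3
  rw [mul_sub]
  have h4 : bb (k + 1) x ^ k * ((1 - η - ε) * (x / Real.log x) *
      ∏ q ∈ Nat.primesLE z, (1 - ((FF t i0 q).card : ℝ) / ((q : ℝ) - 1)))
      = (1 - η - ε) * (x / Real.log x ^ (k + 1)) * SZ z t := by
    rw [← prod_FF t i0 z k hcard]
    unfold bb
    rw [← hz, inv_pow, mul_pow, mul_inv]
    have hlk : Real.log x ^ k ≠ 0 := by positivity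
    rw [pow_succ]
    field_simp
  rw [h4]
  have h5 : bb (k + 1) x ^ k * (x / Real.log x ^ M) ≤ x / Real.log x ^ M := by
    calc bb (k + 1) x ^ k * (x / Real.log x ^ M) ≤ 1 * (x / Real.log x ^ M) :=
          mul_le_mul_of_nonneg_right hbk hx0
      _ = _ := one_mul _
  linarith

end Pool.Agent.HLB
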