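import Pool.Agent.Lib.HLB.GridPeel

/-!
# Few grids of sums are degenerate

`card_gtup`: `Fintype.card_piFinset` twice. `card_coincide`: pick `j` with `i j ≠ i' j`; the equation
`gsum a i = gsum a i'` determines `a j (i j)` from all the other entries. Hence the map
`(a, t) ↦ update a at (j, i j) by t` from `{a : gsum a i = gsum a i'} × T j` to `gtup` is injective, so
`#{a : coincide} * |T j| ≤ |gtup|`.
`card_noninj`: union bound over the pairs `i ≠ i'`, at most `((k+1)^d)^2` of them.
-/

set_option autoImplicit false

open Finset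

namespace Pool.Agent.HLB

lemma card_gtup (d k : ℕ) (T : Fin d → Finset ℕ) :
    (gtup d k T).card = ∏ j, (T j).card ^ (k + 1) := by
  unfold gtup
  rw [Fintype.card_piFinset]
  refine Finset.prod_congr rfl fun j _ => ?_
  rw [Fintype.card_piFinset, Finset.prod_const, Finset.card_univ, Fintype.card_fin]

lemma mem_gtup_gc {d k : ℕ} {T : Fin d → Finset ℕ} {a : Fin d → Fin (k + 1) → ℕ} :
    a ∈ gtup d k T ↔ ∀ j l, a j l ∈ T j := by
  unfold gtup
  rw [Fintype.mem_piFinset]
  refine forall_congr' fun j => ?_
  rw [Fintype.mem_piFinset]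

lemma card_coincide (d k : ℕ) (T : Fin d → Finset ℕ) (i i' : Fin d → Fin (k + 1)) (h : i ≠ i') :
    ∃ j, ((gtup d k T).filter (fun a => gsum a i = gsum a i')).card * (T j).card
      ≤ (gtup d k T).card := by
  obtain ⟨j, hj⟩ := Function.ne_iff.mp h
  refine ⟨j, ?_⟩
  rw [← Finset.card_product]
  refine Finset.card_le_card_of_injOn
    (fun p => Function.update p.1 j (Function.update (p.1 j) (i j) p.2)) ?_ ?_
  · intro p hp
    rw [Finset.mem_coe, Finset.mem_product, Finset.mem_filter, mem_gtup_gc] at hp
    rw [Finset.mem_coe, mem_gtup_gc]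
    intro j' l
    beta_reduce
    rcases eq_or_ne j' j with rfl | hj'
    · rw [Function.update_self]
      rcases eq_or_ne l (i j') with rfl | hl
      · rw [Function.update_self]; exact hp.2
      · rw [Function.update_of_ne hl]; exact hp.1.1 j' l
    · rw [Function.update_of_ne hj']; exact hp.1.1 j' l
  · rintro ⟨a, t⟩ ha ⟨b, u⟩ hb hab
    rw [Finset.mem_coe, Finset.mem_product, Finset.mem_filter] at ha hb
    simp only at ha hb hab
    have h1 : ∀ j' l, Function.update a j (Function.update (a j) (i j) t) j' l
        = Function.update b j (Function.update (b j) (i j) u) j' l := fun j' l => by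
      rw [hab]
    have htu : t = u := by
      have := h1 j (i j)
      simpa using this
    have h2 : ∀ j' l, (j' = j → l ≠ i j) → a j' l = b j' l := by
      intro j' l hne
      have h3 := h1 j' l
      rcases eq_or_ne j' j with rfl | hj'
      · rw [Function.update_self, Function.update_self, Function.update_of_ne (hne rfl),
          Function.update_of_ne (hne rfl)] at h3
        exact h3
      · rw [Function.update_of_ne hj', Function.update_of_ne hj'] at h3
        exact h3
    have h4 : gsum a i' = gsum b i' := by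
      unfold gsum
      refine Finset.sum_congr rfl fun j' _ => h2 j' (i' j') ?_
      rintro rfl
      exact fun h5 => hj h5.symm
    have h5 : ∑ j' ∈ univ.erase j, a j' (i j') = ∑ j' ∈ univ.erase j, b j' (i j') := by
      refine Finset.sum_congr rfl fun j' hj' => h2 j' (i j') ?_
      intro h6
      exact absurd h6 (Finset.ne_of_mem_erase hj')
    have h6 : gsum a i = gsum b i := by
      rw [ha.1.2, hb.1.2, h4]
    have h7 : a j (i j) = b j (i j) := by
      unfold gsum at h6
      rw [← Finset.add_sum_erase _ _ (Finset.mem_univ j),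
        ← Finset.add_sum_erase _ _ (Finset.mem_univ j), h5] at h6
      exact Nat.add_right_cancel h6
    have h8 : a = b := by
      funext j' l
      by_cases h9 : j' = j → l ≠ i j
      · exact h2 j' l h9
      · push Not at h9
        obtain ⟨rfl, rfl⟩ := h9
        exact h7
    rw [h8, htu]

open scoped Classical in
lemma card_noninj (d k : ℕ) (T : Fin d → Finset ℕ) {m : ℝ} (hm : 0 < m)
    (hT : ∀ j, m ≤ (T j).card) :
    (((gtup d k T).filter (fun a => ¬ Function.Injective (gsum a))).card : ℝ)
      ≤ (((k : ℝ) + 1) ^ d) ^ 2 * (gtup d k T).card / m := by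
  have hsub : (gtup d k T).filter (fun a => ¬ Function.Injective (gsum a)) ⊆
      (univ.filter (fun p : (Fin d → Fin (k + 1)) × (Fin d → Fin (k + 1)) => p.1 ≠ p.2)).biUnion
        (fun p => (gtup d k T).filter (fun a => gsum a p.1 = gsum a p.2)) := by
    intro a ha
    rw [Finset.mem_filter] at ha
    obtain ⟨h1, h2⟩ := ha
    rw [Function.Injective] at h2
    push Not at h2
    obtain ⟨x, y, hxy, hne⟩ := h2
    rw [Finset.mem_biUnion]
    exact ⟨(x, y), by simp [hne], by simp [h1, hxy]⟩
  have h1 := (Finset.card_le_card hsub).trans Finset.card_biUnion_le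
  have h2 : (((gtup d k T).filter (fun a => ¬ Function.Injective (gsum a))).card : ℝ) ≤
      ∑ p ∈ univ.filter (fun p : (Fin d → Fin (k + 1)) × (Fin d → Fin (k + 1)) => p.1 ≠ p.2),
        (((gtup d k T).filter (fun a => gsum a p.1 = gsum a p.2)).card : ℝ) := by
    exact_mod_cast h1
  refine h2.trans ?_
  have h3 : ∀ p ∈ univ.filter
      (fun p : (Fin d → Fin (k + 1)) × (Fin d → Fin (k + 1)) => p.1 ≠ p.2),
      (((gtup d k T).filter (fun a => gsum a p.1 = gsum a p.2)).card : ℝ)
        ≤ (gtup d k T).card / m := by
    intro p hp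
    rw [Finset.mem_filter] at hp
    obtain ⟨j, hj⟩ := card_coincide d k T p.1 p.2 hp.2
    rw [le_div_iff₀ hm]
    calc (((gtup d k T).filter (fun a => gsum a p.1 = gsum a p.2)).card : ℝ) * m
        ≤ (((gtup d k T).filter (fun a => gsum a p.1 = gsum a p.2)).card : ℝ) * (T j).card :=
          mul_le_mul_of_nonneg_left (hT j) (Nat.cast_nonneg _)
      _ ≤ (gtup d k T).card := by exact_mod_cast hj
  refine (Finset.sum_le_card_nsmul _ _ _ h3).trans ?_
  rw [nsmul_eq_mul, mul_div_assoc]
  refine mul_le_mul_of_nonneg_right ?_ (div_nonneg (Nat.cast_nonneg _) hm.le)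
  have h4 : (univ.filter
      (fun p : (Fin d → Fin (k + 1)) × (Fin d → Fin (k + 1)) => p.1 ≠ p.2)).card
      ≤ ((k + 1) ^ d) ^ 2 := by
    refine (Finset.card_filter_le _ _).trans ?_
    rw [Finset.card_univ, Fintype.card_prod, Fintype.card_fun, Fintype.card_fin, Fintype.card_fin,
      sq]
  exact_mod_cast h4

end Pool.Agent.HLB
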