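import Pool.Agent.Lib.HLB.GridCount
import Pool.Agent.Lib.HLB.SingTail
import Pool.Agent.Lib.HLB.T1Lower

/-!
# The Hardy-Littlewood lower bound for grids of sums
-/

set_option autoImplicit false

open Finset Filter

namespace Pool.Agent.HLB

open Pool.Agent.HL Pool.Agent.Lib.Sieve4

lemma card_grid_index (d k : ℕ) : Fintype.card (Fin d → Fin (k + 1)) = (k + 1) ^ d := by
  rw [Fintype.card_fun, Fintype.card_fin, Fintype.card_fin]

lemma gsum_le {d k : ℕ} {T : Fin d → Finset ℕ} {y : ℝ} (hT : ∀ j, ∀ a ∈ T j, (a : ℝ) ≤ y)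
    {a : Fin d → Fin (k + 1) → ℕ} (ha : a ∈ gtup d k T) (i : Fin d → Fin (k + 1)) :
    (gsum a i : ℝ) ≤ d * y := by
  unfold gsum
  push_cast
  calc ∑ j, (a j (i j) : ℝ) ≤ ∑ _j : Fin d, y := by
        refine Finset.sum_le_sum fun j _ => hT j _ ?_
        have h1 := Fintype.mem_piFinset.mp ha j
        exact Fintype.mem_piFinset.mp h1 (i j)
    _ = d * y := by rw [Finset.sum_const, card_univ, Fintype.card_fin, nsmul_eq_mul]

/-- All grids, partial singular series. -/
theorem grid_lower_aux (hSW : SW) (d k : ℕ) (hd : 1 ≤ d) {ε : ℝ} (hε : 0 < ε) :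
    ∃ η : ℝ, 0 < η ∧ ∀ᶠ x : ℕ in atTop, ∀ T : Fin d → Finset ℕ,
      (∀ j, ∀ a ∈ T j, (a : ℝ) ≤ η * x) →
      (1 - ε) * ((x / Real.log x ^ ((k + 1) ^ d)) *
          ∑ a ∈ gtup d k T, SZ (zz ((k + 1) ^ d) x) (gsum a))
        ≤ ∑ a ∈ gtup d k T, (cnt (gsum a) x : ℝ) := by
  classical
  set r : ℕ := (k + 1) ^ d with hr
  have hr1 : 1 ≤ r := Nat.one_le_pow _ _ (by omega)
  have hrR : (1:ℝ) ≤ (r : ℝ) := by exact_mod_cast hr1
  have hdR : (1:ℝ) ≤ (d : ℝ) := by exact_mod_cast hd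
  set R : ℝ := (r : ℝ) with hR
  have hR0 : 0 < R := by linarith
  have hRpow : ((k : ℝ) + 1) ^ d = R := by rw [hR, hr]; push_cast; ring
  set ε1 : ℝ := min (ε / (8 * R)) (1 / 2) with hε1
  have hε1pos : 0 < ε1 := lt_min (by positivity) (by norm_num)
  have hε1le : ε1 ≤ ε / (8 * R) := min_le_left _ _
  have hε1lt : ε1 < 1 := lt_of_le_of_lt (min_le_right _ _) (by norm_num)
  refine ⟨ε1 / d, by positivity, ?_⟩
  have hL : ∀ᶠ x : ℕ in atTop, 8 * R / ε ≤ Real.log x :=
    (Real.tendsto_log_atTop.comp tendsto_natCast_atTop_atTop).eventually_ge_atTop _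
  filter_upwards [cl_lower hSW r hε1pos hε1lt hε1pos (r + 1), cl_upper r (r + 1), hL,
    eventually_ge_atTop 2] with x hx1 hx2 hx3 hx4 T hT
  have hxpos : (0:ℝ) < x := by exact_mod_cast (by omega : 0 < x)
  have hLpos : 0 < Real.log x := lt_of_lt_of_le (by positivity) hx3
  set z := zz r x with hz
  set b := bb r x with hb
  set X : ℝ := x / Real.log x ^ r with hX
  have hXpos : 0 < X := by positivity
  set G : ℝ := ∑ a ∈ gtup d k T, SZ z (gsum a) with hG
  have hcardI : Fintype.card (Fin d → Fin (k + 1)) = r := card_grid_index d k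
  have hb0 : 0 ≤ b := by
    rw [hb]; unfold bb
    exact inv_nonneg.mpr (mul_nonneg (DZ_pos _).le hLpos.le)
  have hpd : ((gtup d k T).card : ℝ) ≤ G := by
    have h := posdef_grid d k z T
    rw [card_gtup]
    push_cast
    exact h
  have hcard0 : (0:ℝ) ≤ ((gtup d k T).card : ℝ) := Nat.cast_nonneg _
  have hG0 : 0 ≤ G := le_trans hcard0 hpd
  have hpeel := grid_peel d k (Icc 1 x) T ip (fun n => b * ic z n) ip_nonneg
    (fun n => mul_nonneg hb0 (ic_nonneg _ _))
  rw [hRpow] at hpeel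
  have eP : ∑ n ∈ Icc 1 x, ∑ a ∈ gtup d k T, ∏ i : Fin d → Fin (k + 1), ip (n + gsum a i)
      = ∑ a ∈ gtup d k T, (cnt (gsum a) x : ℝ) := by
    rw [Finset.sum_comm]
    refine Finset.sum_congr rfl fun a _ => ?_
    rw [cnt_eq]
  have eB : ∑ n ∈ Icc 1 x, ∑ a ∈ gtup d k T,
        ∏ i : Fin d → Fin (k + 1), (fun n => b * ic z n) (n + gsum a i)
      = ∑ a ∈ gtup d k T, b ^ r * ∑ n ∈ Icc 1 x, ∏ i : Fin d → Fin (k + 1), ic z (n + gsum a i) := by
    rw [Finset.sum_comm]
    refine Finset.sum_congr rfl fun a _ => ?_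
    rw [Finset.mul_sum]
    refine Finset.sum_congr rfl fun n _ => ?_
    simp only
    rw [Finset.prod_mul_distrib, Finset.prod_const, card_univ, hcardI]
  have eS : ∑ n ∈ Icc 1 x, ∑ a ∈ gtup d k T,
          ip (n + gsum a 0) * ∏ i ∈ univ.erase (0 : Fin d → Fin (k + 1)),
            (fun n => b * ic z n) (n + gsum a i)
      = ∑ a ∈ gtup d k T, b ^ (r - 1) * ∑ n ∈ Icc 1 x, ip (n + gsum a 0) *
          ∏ i ∈ univ.erase (0 : Fin d → Fin (k + 1)), ic z (n + gsum a i) := by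
    rw [Finset.sum_comm]
    refine Finset.sum_congr rfl fun a _ => ?_
    rw [Finset.mul_sum]
    refine Finset.sum_congr rfl fun n _ => ?_
    simp only
    rw [Finset.prod_mul_distrib, Finset.prod_const, Finset.card_erase_of_mem (mem_univ _), card_univ,
      hcardI]
    ring
  rw [eP, eB, eS] at hpeel
  set S0 : ℝ := ∑ a ∈ gtup d k T, (cnt (gsum a) x : ℝ) with hS0
  set TT0 : ℝ := ∑ a ∈ gtup d k T, b ^ r * ∑ n ∈ Icc 1 x,
    ∏ i : Fin d → Fin (k + 1), ic z (n + gsum a i) with hTT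
  set Sd : ℝ := ∑ a ∈ gtup d k T, b ^ (r - 1) * ∑ n ∈ Icc 1 x, ip (n + gsum a 0) *
          ∏ i ∈ univ.erase (0 : Fin d → Fin (k + 1)), ic z (n + gsum a i) with hSd
  have hlow : (1 - ε1 - ε1) * (X * G) - x / Real.log x ^ (r + 1) * (gtup d k T).card ≤ Sd := by
    have h1 : ∀ a ∈ gtup d k T, (1 - ε1 - ε1) * X * SZ z (gsum a) - x / Real.log x ^ (r + 1)
        ≤ b ^ (r - 1) * ∑ n ∈ Icc 1 x, ip (n + gsum a 0) *
          ∏ i ∈ univ.erase (0 : Fin d → Fin (k + 1)), ic z (n + gsum a i) := by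
      intro a ha
      refine hx1 (Fin d → Fin (k + 1)) (gsum a) 0 hcardI ?_
      refine (gsum_le (y := ε1 / d * x) hT ha 0).trans (le_of_eq ?_)
      field_simp
    have h2 := Finset.sum_le_sum h1
    rw [Finset.sum_sub_distrib, ← Finset.mul_sum, Finset.sum_const, nsmul_eq_mul] at h2
    refine le_trans (le_of_eq ?_) h2
    rw [hG]; ring
  have hup : TT0 ≤ X * G + x / Real.log x ^ (r + 1) * (gtup d k T).card := by
    have h1 : ∀ a ∈ gtup d k T, b ^ r * ∑ n ∈ Icc 1 x, ∏ i : Fin d → Fin (k + 1), ic z (n + gsum a i)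
        ≤ X * SZ z (gsum a) + x / Real.log x ^ (r + 1) := by
      intro a _
      exact hx2 (Fin d → Fin (k + 1)) (gsum a) hcardI
    have h2 : TT0 ≤ ∑ a ∈ gtup d k T, (X * SZ z (gsum a) + x / Real.log x ^ (r + 1)) :=
      Finset.sum_le_sum h1
    refine h2.trans (le_of_eq ?_)
    rw [Finset.sum_add_distrib, ← Finset.mul_sum, Finset.sum_const, nsmul_eq_mul, hG]
    ring
  have herr : x / Real.log x ^ (r + 1) * ((gtup d k T).card : ℝ) ≤ (1 / Real.log x) * (X * G) := by
    have e : (x:ℝ) / Real.log x ^ (r + 1) = (1 / Real.log x) * X := by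
      rw [hX, pow_succ]
      field_simp
    rw [e, mul_assoc]
    gcongr
  have hlogR : 2 * R * (1 / Real.log x) ≤ ε / 4 := by
    rw [mul_one_div, div_le_iff₀ hLpos]
    have := (div_le_iff₀ hε).mp hx3
    nlinarith
  have hRε : R * (2 * ε1) ≤ ε / 4 := by
    have := mul_le_mul_of_nonneg_left hε1le (by positivity : 0 ≤ 2 * R)
    calc R * (2 * ε1) = 2 * R * ε1 := by ring
      _ ≤ 2 * R * (ε / (8 * R)) := this
      _ = ε / 4 := by field_simp; ring
  have hXG : 0 ≤ X * G := by positivity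
  have h3 : R * ((1 - ε1 - ε1) * (X * G) - (1 / Real.log x) * (X * G)) ≤ R * Sd :=
    mul_le_mul_of_nonneg_left (by linarith) hR0.le
  have h4 : (R - 1) * TT0 ≤ (R - 1) * (X * G + (1 / Real.log x) * (X * G)) :=
    mul_le_mul_of_nonneg_left (by linarith) (by linarith)
  have h5 : (1 - ε) * (X * G) ≤ R * ((1 - ε1 - ε1) * (X * G) - (1 / Real.log x) * (X * G))
      - (R - 1) * (X * G + (1 / Real.log x) * (X * G)) := by
    have h6 : R * ((1 - ε1 - ε1) * (X * G) - (1 / Real.log x) * (X * G))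
      - (R - 1) * (X * G + (1 / Real.log x) * (X * G))
      = (1 - R * (2 * ε1) - (2 * R - 1) * (1 / Real.log x)) * (X * G) := by ring
    rw [h6]
    refine mul_le_mul_of_nonneg_right ?_ hXG
    have h7 : (2 * R - 1) * (1 / Real.log x) ≤ 2 * R * (1 / Real.log x) := by
      have : 0 ≤ 1 / Real.log x := by positivity
      nlinarith
    linarith
  linarith

open scoped Classical in
/-- Nondegenerate grids, full singular series. -/
theorem grid_lower (hSW : SW) (d k : ℕ) (hd : 1 ≤ d) {ε : ℝ} (hε : 0 < ε) :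
    ∃ η : ℝ, 0 < η ∧ ∀ᶠ x : ℕ in atTop, ∀ T : Fin d → Finset ℕ,
      (∀ j, ∀ a ∈ T j, (a : ℝ) ≤ η * x) →
      (∀ j, Real.log x ^ ((k + 1) ^ d + 1) ≤ (T j).card) →
      (1 - ε) * ((x / Real.log x ^ ((k + 1) ^ d)) *
          ∑ a ∈ (gtup d k T).filter (fun a => Function.Injective (gsum a)), SI (gsum a))
        ≤ ∑ a ∈ (gtup d k T).filter (fun a => Function.Injective (gsum a)), (cnt (gsum a) x : ℝ) ∧
      (1 - ε) * ((x / Real.log x ^ ((k + 1) ^ d)) * (gtup d k T).card)
        ≤ ∑ a ∈ (gtup d k T).filter (fun a => Function.Injective (gsum a)), (cnt (gsum a) x : ℝ) := by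
  set r : ℕ := (k + 1) ^ d with hr
  have hr1 : 1 ≤ r := Nat.one_le_pow _ _ (by omega)
  have hrR : (1:ℝ) ≤ (r : ℝ) := by exact_mod_cast hr1
  have hdR : (1:ℝ) ≤ (d : ℝ) := by exact_mod_cast hd
  obtain ⟨η, hη, hmain⟩ := grid_lower_aux hSW d k hd (ε := ε / 4) (by positivity)
  refine ⟨min η (1 / d), lt_min hη (by positivity), ?_⟩
  have hL : ∀ᶠ x : ℕ in atTop, max 1 (4 * (r:ℝ) ^ 2 / ε) ≤ Real.log x :=
    (Real.tendsto_log_atTop.comp tendsto_natCast_atTop_atTop).eventually_ge_atTop _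
  filter_upwards [hmain, sing_tail r r hr1 (ε := ε / 4) (by positivity), hL, eventually_ge_atTop 2]
    with x hx1 hx2 hx3 hx4 T hT hTcard
  have hxpos : (0:ℝ) < x := by exact_mod_cast (by omega : 0 < x)
  have hL1 : 1 ≤ Real.log x := le_trans (le_max_left _ _) hx3
  have hL2 : 4 * (r:ℝ) ^ 2 / ε ≤ Real.log x := le_trans (le_max_right _ _) hx3
  have hLpos : 0 < Real.log x := by linarith
  have hT1 : ∀ j, ∀ a ∈ T j, (a:ℝ) ≤ η * x := fun j a ha =>
    (hT j a ha).trans (mul_le_mul_of_nonneg_right (min_le_left _ _) hxpos.le)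
  have hgx : ∀ a ∈ gtup d k T, ∀ i, gsum a i ≤ x := by
    intro a ha i
    have h := gsum_le (y := 1 / d * x) (fun j a ha =>
      (hT j a ha).trans (mul_le_mul_of_nonneg_right (min_le_right _ _) hxpos.le)) ha i
    have e : (d:ℝ) * (1 / d * x) = x := by field_simp
    rw [e] at h
    exact_mod_cast h
  have h1 := hx1 T hT1
  set z := zz r x with hz
  set X : ℝ := x / Real.log x ^ r with hX
  have hXpos : 0 < X := by positivity
  set G : ℝ := ∑ a ∈ gtup d k T, SZ z (gsum a) with hG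
  set I := (gtup d k T).filter (fun a => Function.Injective (gsum a)) with hI
  have hpd : ((gtup d k T).card : ℝ) ≤ G := by
    have h := posdef_grid d k z T
    rw [card_gtup]
    push_cast
    exact h
  have hcard0 : (0:ℝ) ≤ ((gtup d k T).card : ℝ) := Nat.cast_nonneg _
  have hG0 : 0 ≤ G := le_trans hcard0 hpd
  -- discard the degenerate grids
  have hnon := card_noninj d k T (m := Real.log x ^ (r + 1)) (by positivity) hTcard
  have hRpow : ((k : ℝ) + 1) ^ d = (r : ℝ) := by rw [hr]; push_cast; ring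
  rw [hRpow] at hnon
  have hsplit : ∑ a ∈ gtup d k T, (cnt (gsum a) x : ℝ)
      = ∑ a ∈ I, (cnt (gsum a) x : ℝ)
        + ∑ a ∈ (gtup d k T).filter (fun a => ¬ Function.Injective (gsum a)), (cnt (gsum a) x : ℝ) := by
    rw [hI, Finset.sum_filter_add_sum_filter_not]
  have hdeg : ∑ a ∈ (gtup d k T).filter (fun a => ¬ Function.Injective (gsum a)), (cnt (gsum a) x : ℝ)
      ≤ ε / 4 * (X * G) := by
    have h2 : ∀ a ∈ (gtup d k T).filter (fun a => ¬ Function.Injective (gsum a)),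
        (cnt (gsum a) x : ℝ) ≤ x := by
      intro a _
      unfold cnt
      have := Finset.card_filter_le (Icc 1 x) (fun n : ℕ => ∀ i, (n + gsum a i).Prime)
      simp only [Nat.card_Icc, Nat.add_sub_cancel] at this
      exact_mod_cast this
    have h3 := Finset.sum_le_sum h2
    rw [Finset.sum_const, nsmul_eq_mul] at h3
    refine h3.trans ?_
    have h4 : (((gtup d k T).filter (fun a => ¬ Function.Injective (gsum a))).card : ℝ) * x
        ≤ ((r:ℝ) ^ 2 * (gtup d k T).card / Real.log x ^ (r + 1)) * x :=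
      mul_le_mul_of_nonneg_right hnon hxpos.le
    refine h4.trans ?_
    have e : ((r:ℝ) ^ 2 * (gtup d k T).card / Real.log x ^ (r + 1)) * x
        = ((r:ℝ) ^ 2 / Real.log x) * (X * (gtup d k T).card) := by
      rw [hX, pow_succ]
      field_simp
      ring
    rw [e]
    have h5 : (r:ℝ) ^ 2 / Real.log x ≤ ε / 4 := by
      rw [div_le_iff₀ hLpos]
      have := (div_le_iff₀ hε).mp hL2
      linarith
    gcongr
  have hmainI : (1 - ε / 2) * (X * G) ≤ ∑ a ∈ I, (cnt (gsum a) x : ℝ) := by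
    have : (1 - ε / 4) * (X * G) - ε / 4 * (X * G) = (1 - ε / 2) * (X * G) := by ring
    linarith
  have hI0 : 0 ≤ ∑ a ∈ I, (cnt (gsum a) x : ℝ) := Finset.sum_nonneg fun _ _ => Nat.cast_nonneg _
  have hinjG : ∑ a ∈ I, SI (gsum a) ≤ (1 + ε / 4) * G := by
    have h3 : ∑ a ∈ I, SI (gsum a) ≤ ∑ a ∈ I, (1 + ε / 4) * SZ z (gsum a) := by
      refine Finset.sum_le_sum fun a ha => ?_
      rw [hI, mem_filter] at ha
      exact hx2 (Fin d → Fin (k + 1)) (gsum a) (card_grid_index d k) ha.2 (hgx a ha.1)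
    refine h3.trans ?_
    rw [← Finset.mul_sum]
    refine mul_le_mul_of_nonneg_left ?_ (by positivity)
    exact Finset.sum_le_sum_of_subset_of_nonneg (Finset.filter_subset _ _) fun a _ _ => SZ_nonneg _ _
  rcases le_or_gt (1 - ε) 0 with hneg | hpos'
  · constructor
    · refine le_trans (mul_nonpos_of_nonpos_of_nonneg hneg (mul_nonneg hXpos.le ?_)) hI0
      refine Finset.sum_nonneg fun a ha => SI_nonneg _ ?_
      rw [hI, mem_filter] at ha
      exact ha.2
    · exact le_trans (mul_nonpos_of_nonpos_of_nonneg hneg (by positivity)) hI0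
  · constructor
    · calc (1 - ε) * (X * ∑ a ∈ I, SI (gsum a))
          ≤ (1 - ε) * (X * ((1 + ε / 4) * G)) := by gcongr
        _ = ((1 - ε) * (1 + ε / 4)) * (X * G) := by ring
        _ ≤ (1 - ε / 2) * (X * G) := by
            refine mul_le_mul_of_nonneg_right ?_ (by positivity)
            nlinarith
        _ ≤ _ := hmainI
    · calc (1 - ε) * (X * ((gtup d k T).card : ℝ)) ≤ (1 - ε) * (X * G) := by gcongr
        _ ≤ (1 - ε / 2) * (X * G) := by
            refine mul_le_mul_of_nonneg_right (by linarith) (by positivity)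
        _ ≤ _ := hmainI

end Pool.Agent.HLB
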