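import Pool.Agent.Lib.HLB.Defs
import Pool.Agent.Lib.Sieve4.Core

/-!
# Splitting into residue classes

`card_hits`: `sum_range_prod_crt` of `Pool.Agent.Lib.Sieve4.Core` with
`F p a = if a ∈ Fs p then 1 else 0`. `hits_eq_sum_classes`: for `n` put `b = n % d`, `d = ∏ s`; for
`q ∈ s`, `n % q = b % q` because `q ∣ d` (`Nat.mod_mod_of_dvd`). `coprime_of_hits`: `q ∣ b` iff
`b % q = 0`, and `0 ∉ Fs q`.
`sum_class_theta`: for `0 ≤ y ≤ x` (naturals/reals as stated) the sum of `log p` over the primes `p ∈ (y, x]`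
in a class is a difference of two `thetaAP`.
-/

set_option autoImplicit false

open Finset

namespace Pool.Agent.HLB

open Pool.Agent.Lib.Sieve4

lemma card_hits (s : Finset ℕ) (hs : ∀ p ∈ s, p.Prime) (F : ℕ → Finset ℕ)
    (hF : ∀ p ∈ s, F p ⊆ range p) :
    (((range (∏ p ∈ s, p)).filter (fun b => ∀ q ∈ s, b % q ∈ F q)).card : ℝ)
      = ∏ q ∈ s, ((F q).card : ℝ) := by
  have h := sum_range_prod_crt s hs (fun p a => if a ∈ F p then (1:ℝ) else 0)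
  have h1 : ∀ n : ℕ, (∏ p ∈ s, (if n % p ∈ F p then (1:ℝ) else 0))
      = if (∀ q ∈ s, n % q ∈ F q) then 1 else 0 := fun n => by
    rw [Finset.prod_ite_zero]
    simp
  simp only [h1] at h
  rw [Finset.sum_boole] at h
  rw [h]
  refine Finset.prod_congr rfl fun p hp => ?_
  rw [Finset.sum_boole]
  congr 2
  ext a
  rw [Finset.mem_filter]
  exact ⟨fun h => h.2, fun h => ⟨hF p hp h, h⟩⟩

lemma coprime_of_hits (s : Finset ℕ) (hs : ∀ p ∈ s, p.Prime) (F : ℕ → Finset ℕ)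
    (hF : ∀ p ∈ s, 0 ∉ F p) (b : ℕ) (hb : ∀ q ∈ s, b % q ∈ F q) : Nat.Coprime b (∏ p ∈ s, p) := by
  apply Nat.Coprime.prod_right
  intro p hp
  rw [Nat.coprime_comm, (hs p hp).coprime_iff_not_dvd]
  intro hdvd
  have h := hb p hp
  rw [Nat.mod_eq_zero_of_dvd hdvd] at h
  exact hF p hp h

lemma hits_eq_sum_classes (s : Finset ℕ) (hs : ∀ p ∈ s, p.Prime) (F : ℕ → Finset ℕ)
    (T : Finset ℕ) (w : ℕ → ℝ) :
    ∑ n ∈ T.filter (fun n => ∀ q ∈ s, n % q ∈ F q), w n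
      = ∑ b ∈ (range (∏ p ∈ s, p)).filter (fun b => ∀ q ∈ s, b % q ∈ F q),
          ∑ n ∈ T.filter (fun n => n % (∏ p ∈ s, p) = b % (∏ p ∈ s, p)), w n := by
  have hpos : 0 < ∏ p ∈ s, p := Finset.prod_pos fun p hp => (hs p hp).pos
  have hmod : ∀ n : ℕ, ∀ q ∈ s, (n % (∏ p ∈ s, p)) % q = n % q := fun n q hq =>
    Nat.mod_mod_of_dvd n (Finset.dvd_prod_of_mem _ hq)
  have hmaps : ∀ n ∈ T.filter (fun n => ∀ q ∈ s, n % q ∈ F q),
      n % (∏ p ∈ s, p) ∈ (range (∏ p ∈ s, p)).filter (fun b => ∀ q ∈ s, b % q ∈ F q) := by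
    intro n hn
    rw [Finset.mem_filter] at hn
    rw [Finset.mem_filter, Finset.mem_range]
    refine ⟨Nat.mod_lt _ hpos, fun q hq => ?_⟩
    rw [hmod n q hq]
    exact hn.2 q hq
  rw [← Finset.sum_fiberwise_of_maps_to hmaps]
  refine Finset.sum_congr rfl fun b hb => ?_
  rw [Finset.mem_filter, Finset.mem_range] at hb
  refine Finset.sum_congr ?_ fun _ _ => rfl
  ext n
  simp only [Finset.mem_filter]
  rw [Nat.mod_eq_of_lt hb.1]
  constructor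
  · rintro ⟨⟨h1, _⟩, h3⟩
    exact ⟨h1, h3⟩
  · rintro ⟨h1, h3⟩
    refine ⟨⟨h1, fun q hq => ?_⟩, h3⟩
    rw [← hmod n q hq, h3]
    exact hb.2 q hq

lemma sum_class_theta (x : ℕ) {y : ℝ} (hy0 : 0 ≤ y) (hyx : y ≤ x) (d b : ℕ) :
    ∑ n ∈ ((Icc 1 x).filter (fun n : ℕ => y < n ∧ n.Prime)).filter (fun n => n % d = b % d),
      Real.log n = thetaAP x d b - thetaAP y d b := by
  unfold thetaAP
  rw [Nat.floor_natCast, eq_sub_iff_add_eq, ← Finset.sum_union]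
  · refine Finset.sum_congr ?_ fun _ _ => rfl
    ext n
    simp only [Finset.mem_union, Finset.mem_filter, Finset.mem_Icc]
    constructor
    · rintro (⟨⟨⟨h1, h2⟩, h3, h4⟩, h5⟩ | ⟨⟨h1, h2⟩, h4, h5⟩)
      · exact ⟨⟨h1, h2⟩, h4, h5⟩
      · have h6 : (n : ℝ) ≤ y := (Nat.le_floor_iff hy0).mp h2
        exact ⟨⟨h1, by exact_mod_cast h6.trans hyx⟩, h4, h5⟩
    · rintro ⟨⟨h1, h2⟩, h4, h5⟩
      rcases lt_or_ge y (n : ℝ) with h | h
      · exact Or.inl ⟨⟨⟨h1, h2⟩, h, h4⟩, h5⟩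
      · exact Or.inr ⟨⟨h1, (Nat.le_floor_iff hy0).mpr h⟩, h4, h5⟩
  · rw [Finset.disjoint_left]
    intro n hn hn'
    simp only [Finset.mem_filter, Finset.mem_Icc] at hn hn'
    have h6 : (n : ℝ) ≤ y := (Nat.le_floor_iff hy0).mp hn'.1.2
    exact absurd hn.1.2.1 (not_lt.mpr h6)

end Pool.Agent.HLB
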