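import Pool.Agent.Lib.Sieve4.Mertens

/-!
# Reciprocals of primes in a block `(√z, z]`
-/

set_option autoImplicit false

open Finset

namespace Pool.Agent.HLB

lemma sum_block_le (z : ℕ) :
    ∑ p ∈ (Nat.primesLE z).filter (fun p => Nat.sqrt z < p), 1 / (p : ℝ) ≤ 6 := by
  rcases Nat.lt_or_ge z 2 with hz | hz
  · have : (Nat.primesLE z).filter (fun p => Nat.sqrt z < p) = ∅ := by
      apply Finset.filter_eq_empty_iff.mpr
      intro p hp
      rw [Nat.mem_primesLE] at hp
      have := hp.2.two_le
      omega
    rw [this]
    simp
  · have hz' : (2:ℝ) ≤ z := by exact_mod_cast hz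
    have hlog : 0 < Real.log z := Real.log_pos (by linarith)
    have hlog2 : Real.log 2 ≤ Real.log z := Real.log_le_log (by norm_num) hz'
    have h1 := Pool.Agent.Lib.Sieve4.sum_log_div_le z (by omega)
    have h4 : Real.log 4 = 2 * Real.log 2 := by
      rw [show (4:ℝ) = 2 ^ 2 by norm_num, Real.log_pow]; norm_num
    have hle : ∑ p ∈ (Nat.primesLE z).filter (fun p => Nat.sqrt z < p), 1 / (p : ℝ)
        ≤ (2 / Real.log z) * ∑ p ∈ Nat.primesLE z, Real.log p / p := by
      rw [Finset.mul_sum]
      calc ∑ p ∈ (Nat.primesLE z).filter (fun p => Nat.sqrt z < p), 1 / (p : ℝ)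
          ≤ ∑ p ∈ (Nat.primesLE z).filter (fun p => Nat.sqrt z < p),
              (2 / Real.log z) * (Real.log p / p) := by
            apply Finset.sum_le_sum
            intro p hp
            rw [Finset.mem_filter, Nat.mem_primesLE] at hp
            have hp0 : (0:ℝ) < p := by exact_mod_cast hp.1.2.pos
            have hsq : z < p * p := Nat.sqrt_lt.mp hp.2
            have hsq' : (z:ℝ) ≤ (p:ℝ) ^ 2 := by
              rw [pow_two]; exact_mod_cast hsq.le
            have h5 : Real.log z ≤ 2 * Real.log p := by
              have := Real.log_le_log (by linarith) hsq'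
              rwa [Real.log_pow, Nat.cast_ofNat] at this
            have h6 : 1 ≤ (2 / Real.log z) * Real.log p := by
              rw [div_mul_eq_mul_div, le_div_iff₀ hlog]
              linarith
            calc 1 / (p : ℝ) ≤ ((2 / Real.log z) * Real.log p) / p :=
                  div_le_div_of_nonneg_right h6 hp0.le
              _ = (2 / Real.log z) * (Real.log p / p) := by ring
        _ ≤ _ := by
            apply Finset.sum_le_sum_of_subset_of_nonneg (Finset.filter_subset _ _)
            intro p hp _
            rw [Nat.mem_primesLE] at hp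
            have : (1:ℝ) ≤ p := by exact_mod_cast hp.2.one_le
            have := Real.log_nonneg this
            positivity
    have h7 : (2 / Real.log z) * ∑ p ∈ Nat.primesLE z, Real.log p / p
        ≤ (2 / Real.log z) * (Real.log z + Real.log 4) := by
      apply mul_le_mul_of_nonneg_left _ (by positivity)
      exact h1
    have h8 : (2 / Real.log z) * (Real.log z + Real.log 4) ≤ 6 := by
      rw [div_mul_eq_mul_div, div_le_iff₀ hlog, h4]
      linarith
    linarith

end Pool.Agent.HLB
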