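import Pool.Agent.Lib.HLB.Bonf
import Pool.Agent.Lib.HLB.MertB

/-!
# The Brun-Hooley lower bound sieve

Strong induction on `z` (from `Nat.sqrt z` to `z`) for a pair of weights `L`, `U` (lower and upper), whose
ratio is controlled by the tail `tl κ k` of a convergent series.
-/

set_option autoImplicit false

open Finset Filter Topology

namespace Pool.Agent.HLB

/-- The terms of the series. -/
noncomputable def hth (κ j : ℕ) : ℝ :=
  Real.exp (2 * (12 * (κ : ℝ))) * ((12 * (κ : ℝ)) ^ (2 * j + 1) / ((2 * j + 1).factorial : ℝ))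

lemma hth_nonneg (κ j : ℕ) : 0 ≤ hth κ j := by
  unfold hth
  positivity

lemma summable_hth (κ : ℕ) : Summable (hth κ) := by
  unfold hth
  apply Summable.mul_left
  exact (Real.summable_pow_div_factorial (12 * (κ : ℝ))).comp_injective
    (i := fun j : ℕ => 2 * j + 1) (fun a b h => by simpa using h)

/-- Tail of the series. -/
noncomputable def htl (κ k : ℕ) : ℝ := ∑' j, hth κ (j + k)

lemma htl_succ (κ k : ℕ) : htl κ k = hth κ k + htl κ (k + 1) := by
  unfold htl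
  rw [Summable.tsum_eq_zero_add ((summable_nat_add_iff k).mpr (summable_hth κ))]
  congr 1
  · rw [zero_add]
  · apply tsum_congr
    intro j
    congr 1
    ring

lemma htl_nonneg (κ k : ℕ) : 0 ≤ htl κ k := tsum_nonneg (fun _ => hth_nonneg _ _)

lemma htl_tendsto (κ : ℕ) : Tendsto (htl κ) atTop (𝓝 0) := tendsto_sum_nat_add _

/-- Admissible densities. -/
def hadm (κ z : ℕ) (g : ℕ → ℝ) : Prop :=
  ∀ p ∈ Nat.primesLE z, 0 ≤ g p ∧ g p ≤ 1 ∧ g p * ((p : ℝ) - 1) ≤ κ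

/-- A pair of sieve weights. -/
structure HWt (κ z k W : ℕ) (L U : Finset ℕ → ℝ) : Prop where
  bL : ∀ s, |L s| ≤ 1
  bU : ∀ s, |U s| ≤ 1
  lev : 1 ≤ z → ∀ s ⊆ Nat.primesLE z, (L s ≠ 0 ∨ U s ≠ 0) → ∏ p ∈ s, p ≤ W * z ^ (4 * k + 8)
  lo : ∀ h : ℕ → ℝ, (∀ p ∈ Nat.primesLE z, 0 ≤ h p ∧ h p ≤ 1) →
    ∑ s ∈ (Nat.primesLE z).powerset, L s * ∏ p ∈ s, h p ≤ ∏ p ∈ Nat.primesLE z, (1 - h p)
  up : ∀ h : ℕ → ℝ, (∀ p ∈ Nat.primesLE z, 0 ≤ h p ∧ h p ≤ 1) →
    ∏ p ∈ Nat.primesLE z, (1 - h p) ≤ ∑ s ∈ (Nat.primesLE z).powerset, U s * ∏ p ∈ s, h p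
  rat : ∀ g : ℕ → ℝ, hadm κ z g →
    (1 - htl κ k) * ∑ s ∈ (Nat.primesLE z).powerset, U s * ∏ p ∈ s, g p ≤
      ∑ s ∈ (Nat.primesLE z).powerset, L s * ∏ p ∈ s, g p

lemma full_sum (S : Finset ℕ) (h : ℕ → ℝ) :
    ∑ s ∈ S.powerset, (-1) ^ s.card * ∏ p ∈ s, h p = ∏ p ∈ S, (1 - h p) := by
  classical
  have h1 : ∏ p ∈ S, (1 - h p) = ∏ p ∈ S, (-h p + 1) := by
    apply Finset.prod_congr rfl
    intro p _
    ring
  rw [h1, Finset.prod_add]
  apply Finset.sum_congr rfl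
  intro s _
  rw [Finset.prod_const_one, mul_one, Finset.prod_neg]

lemma prod_one_sub_nonneg (S : Finset ℕ) (h : ℕ → ℝ) (hh : ∀ p ∈ S, 0 ≤ h p ∧ h p ≤ 1) :
    0 ≤ ∏ p ∈ S, (1 - h p) :=
  Finset.prod_nonneg (fun p hp => by linarith [(hh p hp).2])

lemma hwt_base (κ z k z0 : ℕ) (hz : z ≤ z0) :
    HWt κ z k (∏ p ∈ Nat.primesLE z0, p) (fun s => (-1) ^ s.card) (fun s => (-1) ^ s.card) := by
  have hpos : ∀ p ∈ Nat.primesLE z0, 1 ≤ p := fun p hp => (Nat.mem_primesLE.mp hp).2.one_lt.le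
  refine ⟨fun s => ?_, fun s => ?_, ?_, ?_, ?_, ?_⟩
  · rw [abs_pow, abs_neg, abs_one, one_pow]
  · rw [abs_pow, abs_neg, abs_one, one_pow]
  · intro hz1 s hs _
    have h1 : s ⊆ Nat.primesLE z0 := by
      intro p hp
      have := Nat.mem_primesLE.mp (hs hp)
      exact Nat.mem_primesLE.mpr ⟨this.1.trans hz, this.2⟩
    have h2 : ∏ p ∈ s, p ≤ ∏ p ∈ Nat.primesLE z0, p :=
      Finset.prod_le_prod_of_subset_of_one_le' h1 (fun p hp _ => hpos p hp)
    exact h2.trans (Nat.le_mul_of_pos_right _ (by positivity))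
  · intro h _
    rw [full_sum]
  · intro h _
    rw [full_sum]
  · intro g hg
    rw [full_sum]
    have h1 := prod_one_sub_nonneg (Nat.primesLE z) g (fun p hp => ⟨(hg p hp).1, (hg p hp).2.1⟩)
    have h2 := htl_nonneg κ k
    nlinarith

section step

variable (A B : Finset ℕ) (k : ℕ) (L U : Finset ℕ → ℝ)

/-- New upper weight. -/
noncomputable def stU : Finset ℕ → ℝ := fun s =>
  if (s ∩ B).card ≤ k then (-1) ^ (s ∩ B).card * U (s ∩ A) else 0

/-- New lower weight. -/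
noncomputable def stL : Finset ℕ → ℝ := fun s =>
  if (s ∩ B).card ≤ k then (-1) ^ (s ∩ B).card * L (s ∩ A)
  else if (s ∩ B).card = k + 1 then - U (s ∩ A) else 0

variable {A B}

lemma prod_split (hAB : Disjoint A B) {s : Finset ℕ} (hs : s ⊆ A ∪ B) (h : ℕ → ℝ) :
    ∏ p ∈ s, h p = (∏ p ∈ s ∩ A, h p) * ∏ p ∈ s ∩ B, h p := by
  rw [← Finset.prod_union]
  · congr 1
    rw [← Finset.inter_union_distrib_left, Finset.inter_eq_left.mpr hs]
  · exact hAB.mono (Finset.inter_subset_right) (Finset.inter_subset_right)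

lemma sum_stU (hAB : Disjoint A B) (h : ℕ → ℝ) :
    ∑ s ∈ (A ∪ B).powerset, stU A B k U s * ∏ p ∈ s, h p =
      TT B h k * ∑ s ∈ A.powerset, U s * ∏ p ∈ s, h p := by
  have e1 : ∑ s ∈ (A ∪ B).powerset, stU A B k U s * ∏ p ∈ s, h p =
      ∑ s ∈ (A ∪ B).powerset, (fun s => U s * ∏ p ∈ s, h p) (s ∩ A) *
        (fun s => (if s.card ≤ k then (-1) ^ s.card * ∏ p ∈ s, h p else 0)) (s ∩ B) := by
    apply Finset.sum_congr rfl
    intro s hs
    rw [Finset.mem_powerset] at hs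
    rw [prod_split hAB hs]
    simp only [stU]
    split_ifs with h1
    · ring
    · ring
  have e2 := sum_powerset_union A B hAB (fun s => U s * ∏ p ∈ s, h p)
    (fun s => (if s.card ≤ k then (-1) ^ s.card * ∏ p ∈ s, h p else 0))
  rw [e1, e2, mul_comm]
  congr 1
  unfold TT
  rw [Finset.sum_filter]

lemma sum_stL (hAB : Disjoint A B) (h : ℕ → ℝ) :
    ∑ s ∈ (A ∪ B).powerset, stL A B k L U s * ∏ p ∈ s, h p =
      TT B h k * ∑ s ∈ A.powerset, L s * ∏ p ∈ s, h p -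
        EE B h (k + 1) * ∑ s ∈ A.powerset, U s * ∏ p ∈ s, h p := by
  have e1 : ∑ s ∈ (A ∪ B).powerset, stL A B k L U s * ∏ p ∈ s, h p =
      ∑ s ∈ (A ∪ B).powerset, (fun s => L s * ∏ p ∈ s, h p) (s ∩ A) *
        (fun s => (if s.card ≤ k then (-1) ^ s.card * ∏ p ∈ s, h p else 0)) (s ∩ B) -
      ∑ s ∈ (A ∪ B).powerset, (fun s => U s * ∏ p ∈ s, h p) (s ∩ A) *
        (fun s => (if s.card = k + 1 then ∏ p ∈ s, h p else 0)) (s ∩ B) := by
    rw [← Finset.sum_sub_distrib]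
    apply Finset.sum_congr rfl
    intro s hs
    rw [Finset.mem_powerset] at hs
    rw [prod_split hAB hs]
    simp only [stL]
    split_ifs with h1 h2 h2
    · omega
    · ring
    · ring
    · ring
  have e2 := sum_powerset_union A B hAB (fun s => L s * ∏ p ∈ s, h p)
    (fun s => (if s.card ≤ k then (-1) ^ s.card * ∏ p ∈ s, h p else 0))
  have e3 := sum_powerset_union A B hAB (fun s => U s * ∏ p ∈ s, h p)
    (fun s => (if s.card = k + 1 then ∏ p ∈ s, h p else 0))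
  rw [e1, e2, e3, mul_comm, mul_comm (∑ s ∈ A.powerset, U s * ∏ p ∈ s, h p)]
  congr 2
  · unfold TT
    rw [Finset.sum_filter]
  · unfold EE
    rw [Finset.sum_filter]

end step

lemma exp_le_prod (B : Finset ℕ) (g : ℕ → ℝ) (hg : ∀ p ∈ B, 0 ≤ g p ∧ g p ≤ 1 / 2) {E : ℝ}
    (hE : ∑ p ∈ B, g p ≤ E) : Real.exp (-(2 * E)) ≤ ∏ p ∈ B, (1 - g p) := by
  have h1 : Real.exp (-(2 * E)) ≤ Real.exp (∑ p ∈ B, -(2 * g p)) := by
    apply Real.exp_le_exp.mpr
    rw [Finset.sum_neg_distrib, ← Finset.mul_sum]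
    linarith
  refine h1.trans ?_
  rw [Real.exp_sum]
  apply Finset.prod_le_prod
  · intro p _
    exact (Real.exp_pos _).le
  · intro p hp
    obtain ⟨h2, h3⟩ := hg p hp
    have h4 : 0 < 1 - g p := by linarith
    have h5 : 1 + 2 * g p ≤ Real.exp (2 * g p) := by linarith [Real.add_one_le_exp (2 * g p)]
    rw [Real.exp_neg, inv_eq_one_div, div_le_iff₀ (Real.exp_pos _)]
    have h6 : (1 - g p) * (1 + 2 * g p) ≤ (1 - g p) * Real.exp (2 * g p) :=
      mul_le_mul_of_nonneg_left h5 h4.le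
    nlinarith

lemma hwt_step (κ z k W : ℕ) (hz : 2 * κ + 5 ≤ Nat.sqrt z) (L U : Finset ℕ → ℝ)
    (H : HWt κ (Nat.sqrt z) (k + 1) W L U) :
    ∃ L' U' : Finset ℕ → ℝ, HWt κ z k W L' U' := by
  classical
  set y := Nat.sqrt z with hy
  have hyz : y * y ≤ z := Nat.sqrt_le z
  have hyz' : y ≤ z := Nat.sqrt_le_self z
  have hy1 : 1 ≤ y := by omega
  set A := Nat.primesLE y with hA
  set B := (Nat.primesLE z).filter (fun p => y < p) with hB
  have hAB : Disjoint A B := by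
    rw [Finset.disjoint_left]
    intro p hp hp2
    have h1 := (Nat.mem_primesLE.mp hp).1
    have h2 := (Finset.mem_filter.mp hp2).2
    omega
  have hU : A ∪ B = Nat.primesLE z := by
    ext p
    rw [Finset.mem_union, hA, hB, Finset.mem_filter, Nat.mem_primesLE, Nat.mem_primesLE]
    constructor
    · rintro (⟨h1, h2⟩ | ⟨h1, _⟩)
      · exact ⟨h1.trans hyz', h2⟩
      · exact h1
    · rintro ⟨h1, h2⟩
      by_cases h3 : p ≤ y
      · left; exact ⟨h3, h2⟩
      · right; exact ⟨⟨h1, h2⟩, by omega⟩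
  have hBp : ∀ p ∈ B, p.Prime ∧ y < p ∧ p ≤ z := by
    intro p hp
    rw [hB, Finset.mem_filter, Nat.mem_primesLE] at hp
    exact ⟨hp.1.2, hp.2, hp.1.1⟩
  have hAsub : A ⊆ Nat.primesLE z := by rw [← hU]; exact Finset.subset_union_left
  have hBsub : B ⊆ Nat.primesLE z := by rw [← hU]; exact Finset.subset_union_right
  have hev : Even (2 * k) := even_two_mul k
  refine ⟨stL A B (2 * k) L U, stU A B (2 * k) U, ?_, ?_, ?_, ?_, ?_, ?_⟩
  · intro s
    unfold stL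
    split_ifs
    · rw [abs_mul, abs_pow, abs_neg, abs_one, one_pow, one_mul]
      exact H.bL _
    · rw [abs_neg]
      exact H.bU _
    · simp
  · intro s
    unfold stU
    split_ifs
    · rw [abs_mul, abs_pow, abs_neg, abs_one, one_pow, one_mul]
      exact H.bU _
    · simp
  · intro hz1 s hs hne
    have hcard : (s ∩ B).card ≤ 2 * k + 1 ∧ (L (s ∩ A) ≠ 0 ∨ U (s ∩ A) ≠ 0) := by
      rcases hne with hne | hne
      · unfold stL at hne
        split_ifs at hne with h1 h2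
        · refine ⟨by omega, Or.inl ?_⟩
          intro h3
          rw [h3, mul_zero] at hne
          exact hne rfl
        · refine ⟨by omega, Or.inr ?_⟩
          intro h3
          rw [h3, neg_zero] at hne
          exact hne rfl
        · exact absurd rfl hne
      · unfold stU at hne
        split_ifs at hne with h1
        · refine ⟨by omega, Or.inr ?_⟩
          intro h3
          rw [h3, mul_zero] at hne
          exact hne rfl
        · exact absurd rfl hne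
    have h1 := H.lev hy1 (s ∩ A) Finset.inter_subset_right hcard.2
    have h2 : ∏ p ∈ s ∩ B, p ≤ z ^ (2 * k + 1) := by
      calc ∏ p ∈ s ∩ B, p ≤ ∏ _p ∈ s ∩ B, z :=
            Finset.prod_le_prod' (fun p hp => (hBp p (Finset.mem_inter.mp hp).2).2.2)
        _ = z ^ (s ∩ B).card := Finset.prod_const z
        _ ≤ z ^ (2 * k + 1) := Nat.pow_le_pow_right hz1 hcard.1
    have h3 : ∏ p ∈ s, p = (∏ p ∈ s ∩ A, p) * ∏ p ∈ s ∩ B, p := by
      rw [← Finset.prod_union (hAB.mono (Finset.inter_subset_right) (Finset.inter_subset_right))]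
      congr 1
      rw [← Finset.inter_union_distrib_left, hU, Finset.inter_eq_left.mpr hs]
    have h4 : y ^ (4 * (k + 1) + 8) ≤ z ^ (2 * k + 6) := by
      calc y ^ (4 * (k + 1) + 8) = (y * y) ^ (2 * k + 6) := by
            rw [← pow_two, ← pow_mul]
            congr 1
            ring
        _ ≤ z ^ (2 * k + 6) := Nat.pow_le_pow_left hyz _
    rw [h3]
    calc (∏ p ∈ s ∩ A, p) * ∏ p ∈ s ∩ B, p ≤ (W * y ^ (4 * (k + 1) + 8)) * z ^ (2 * k + 1) :=
          Nat.mul_le_mul h1 h2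
      _ ≤ (W * z ^ (2 * k + 6)) * z ^ (2 * k + 1) := by gcongr
      _ = W * z ^ (4 * k + 7) := by
          rw [mul_assoc, ← pow_add]
          congr 2
          ring
      _ ≤ W * z ^ (4 * k + 8) := by
          apply Nat.mul_le_mul_left
          exact Nat.pow_le_pow_right hz1 (by omega)
  · intro h hh
    have hhA : ∀ p ∈ A, 0 ≤ h p ∧ h p ≤ 1 := fun p hp => hh p (hAsub hp)
    have hhB : ∀ p ∈ B, 0 ≤ h p ∧ h p ≤ 1 := fun p hp => hh p (hBsub hp)
    rw [← hU, sum_stL _ _ _ hAB, Finset.prod_union hAB]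
    have a1 := H.lo h hhA
    have a2 := H.up h hhA
    have a3 := prod_le_TT B h hhB (2 * k) hev
    have a4 := TT_sub_le_prod B h hhB (2 * k) hev
    have a5 := prod_one_sub_nonneg A h hhA
    have a6 := prod_one_sub_nonneg B h hhB
    have a7 := EE_nonneg B h (fun p hp => (hhB p hp).1) (2 * k + 1)
    rw [← hA] at a1 a2
    set x := ∏ p ∈ B, (1 - h p)
    set X := ∏ p ∈ A, (1 - h p)
    set Y := TT B h (2 * k)
    set Z := EE B h (2 * k + 1)
    set SL := ∑ s ∈ A.powerset, L s * ∏ p ∈ s, h p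
    set SU := ∑ s ∈ A.powerset, U s * ∏ p ∈ s, h p
    have b1 : Y * SL ≤ Y * X := mul_le_mul_of_nonneg_left a1 (a6.trans a3)
    have b2 : (Y - x) * X ≤ Z * X := mul_le_mul_of_nonneg_right (by linarith) a5
    have b3 : Z * X ≤ Z * SU := mul_le_mul_of_nonneg_left a2 a7
    nlinarith
  · intro h hh
    have hhA : ∀ p ∈ A, 0 ≤ h p ∧ h p ≤ 1 := fun p hp => hh p (hAsub hp)
    have hhB : ∀ p ∈ B, 0 ≤ h p ∧ h p ≤ 1 := fun p hp => hh p (hBsub hp)
    rw [← hU, sum_stU _ _ hAB, Finset.prod_union hAB]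
    have a2 := H.up h hhA
    have a3 := prod_le_TT B h hhB (2 * k) hev
    have a5 := prod_one_sub_nonneg A h hhA
    have a6 := prod_one_sub_nonneg B h hhB
    rw [← hA] at a2
    calc (∏ p ∈ A, (1 - h p)) * ∏ p ∈ B, (1 - h p) ≤
        (∑ s ∈ A.powerset, U s * ∏ p ∈ s, h p) * TT B h (2 * k) :=
          mul_le_mul a2 a3 a6 (a5.trans a2)
      _ = _ := mul_comm _ _
  · intro g hg
    have hgA : hadm κ y g := fun p hp => hg p (hAsub hp)
    have hhA : ∀ p ∈ A, 0 ≤ g p ∧ g p ≤ 1 := fun p hp => ⟨(hg p (hAsub hp)).1, (hg p (hAsub hp)).2.1⟩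
    have hhB : ∀ p ∈ B, 0 ≤ g p ∧ g p ≤ 1 := fun p hp => ⟨(hg p (hBsub hp)).1, (hg p (hBsub hp)).2.1⟩
    rw [← hU, sum_stL _ _ _ hAB, sum_stU _ _ hAB]
    have a1 := H.rat g hgA
    have a2 := H.up g hhA
    have a3 := prod_le_TT B g hhB (2 * k) hev
    have a5 := prod_one_sub_nonneg A g hhA
    have a6 := prod_one_sub_nonneg B g hhB
    rw [← hA] at a1 a2
    have hE : ∑ p ∈ B, g p ≤ 12 * (κ : ℝ) := by
      have h1 : ∀ p ∈ B, g p ≤ 2 * κ * (1 / (p : ℝ)) := by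
        intro p hp
        obtain ⟨hp1, hp2, hp3⟩ := hBp p hp
        have h2 := (hg p (hBsub hp)).2.2
        have h2' := (hg p (hBsub hp)).1
        have h3 : (2 : ℝ) ≤ p := by exact_mod_cast hp1.two_le
        rw [← mul_div_assoc, mul_one, le_div_iff₀ (by linarith)]
        nlinarith
      calc ∑ p ∈ B, g p ≤ ∑ p ∈ B, 2 * κ * (1 / (p : ℝ)) := Finset.sum_le_sum h1
        _ = 2 * κ * ∑ p ∈ B, 1 / (p : ℝ) := by rw [Finset.mul_sum]
        _ ≤ 2 * κ * 6 := mul_le_mul_of_nonneg_left (sum_block_le z) (by positivity)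
        _ = 12 * (κ : ℝ) := by ring
    have hhalf : ∀ p ∈ B, 0 ≤ g p ∧ g p ≤ 1 / 2 := by
      intro p hp
      refine ⟨(hhB p hp).1, ?_⟩
      obtain ⟨hp1, hp2, hp3⟩ := hBp p hp
      have h2 := (hg p (hBsub hp)).2.2
      have h2' := (hg p (hBsub hp)).1
      have h3 : 2 * κ + 5 < p := by omega
      have h4 : 2 * (κ : ℝ) + 5 < p := by exact_mod_cast h3
      by_contra hcon
      push Not at hcon
      have hκ : (0 : ℝ) ≤ κ := Nat.cast_nonneg κ
      have h5 : (1 / 2 : ℝ) * ((p : ℝ) - 1) < g p * ((p : ℝ) - 1) :=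
        mul_lt_mul_of_pos_right hcon (by linarith)
      linarith
    have hY := (exp_le_prod B g hhalf hE).trans a3
    have hEE : EE B g (2 * k + 1) ≤ hth κ k * TT B g (2 * k) := by
      have h1 := EE_le B g (fun p hp => (hhB p hp).1) (2 * k + 1)
      have h2 : (∑ p ∈ B, g p) ^ (2 * k + 1) / ((2 * k + 1).factorial : ℝ) ≤
          (12 * (κ : ℝ)) ^ (2 * k + 1) / ((2 * k + 1).factorial : ℝ) := by
        apply div_le_div_of_nonneg_right _ (by positivity)
        exact pow_le_pow_left₀ (Finset.sum_nonneg (fun p hp => (hhB p hp).1)) hE _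
      refine (h1.trans h2).trans ?_
      have h3 : (12 * (κ : ℝ)) ^ (2 * k + 1) / ((2 * k + 1).factorial : ℝ) =
          hth κ k * Real.exp (-(2 * (12 * (κ : ℝ)))) := by
        unfold hth
        rw [Real.exp_neg]
        have := Real.exp_pos (2 * (12 * (κ : ℝ)))
        field_simp
      rw [h3]
      exact mul_le_mul_of_nonneg_left hY (hth_nonneg κ k)
    have hU0 : 0 ≤ ∑ s ∈ A.powerset, U s * ∏ p ∈ s, g p := a5.trans a2
    have hY0 : 0 ≤ TT B g (2 * k) := a6.trans a3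
    rw [htl_succ κ k]
    set Y := TT B g (2 * k)
    set Z := EE B g (2 * k + 1)
    set SL := ∑ s ∈ A.powerset, L s * ∏ p ∈ s, g p
    set SU := ∑ s ∈ A.powerset, U s * ∏ p ∈ s, g p
    have b1 : Y * ((1 - htl κ (k + 1)) * SU) ≤ Y * SL := mul_le_mul_of_nonneg_left a1 hY0
    have b2 : Z * SU ≤ (hth κ k * Y) * SU := mul_le_mul_of_nonneg_right hEE hU0
    nlinarith

lemma hwt_exists (κ : ℕ) : ∀ z k : ℕ, ∃ L U : Finset ℕ → ℝ,
    HWt κ z k (∏ p ∈ Nat.primesLE ((2 * κ + 5) ^ 2), p) L U := by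
  intro z
  induction z using Nat.strong_induction_on with
  | _ z ih =>
    intro k
    by_cases hz : z ≤ (2 * κ + 5) ^ 2
    · exact ⟨_, _, hwt_base κ z k _ hz⟩
    · push Not at hz
      have h1 : 2 * κ + 5 ≤ Nat.sqrt z := by
        rw [Nat.le_sqrt']
        exact hz.le
      have h2 : Nat.sqrt z < z := by
        apply Nat.sqrt_lt_self
        nlinarith
      obtain ⟨L, U, H⟩ := ih _ h2 (k + 1)
      exact hwt_step κ z k _ h1 L U H

/-- Lower bound sieve weights of level `(z+1)^K` with relative loss `ε`. -/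
theorem hooley (κ : ℕ) {ε : ℝ} (hε : 0 < ε) : ∃ K : ℕ, ∀ z : ℕ, ∃ lam : Finset ℕ → ℝ,
    (∀ s, |lam s| ≤ 1) ∧
    (∀ s ∈ (Nat.primesLE z).powerset, lam s ≠ 0 → ∏ p ∈ s, p ≤ (z + 1) ^ K) ∧
    (∀ h : ℕ → ℝ, (∀ p, 0 ≤ h p ∧ h p ≤ 1) →
      ∑ s ∈ (Nat.primesLE z).powerset, lam s * ∏ p ∈ s, h p ≤ ∏ p ∈ Nat.primesLE z, (1 - h p)) ∧
    (∀ g : ℕ → ℝ, (∀ p ∈ Nat.primesLE z, 0 ≤ g p ∧ g p ≤ 1 ∧ g p * ((p : ℝ) - 1) ≤ κ) →
      (1 - ε) * ∏ p ∈ Nat.primesLE z, (1 - g p)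
        ≤ ∑ s ∈ (Nat.primesLE z).powerset, lam s * ∏ p ∈ s, g p) := by
  obtain ⟨k, hk, hk1⟩ := (((htl_tendsto κ).eventually (eventually_lt_nhds hε)).and
    ((htl_tendsto κ).eventually (eventually_lt_nhds one_pos))).exists
  set W := ∏ p ∈ Nat.primesLE ((2 * κ + 5) ^ 2), p with hW
  refine ⟨W + (4 * k + 8), fun z => ?_⟩
  obtain ⟨L, U, H⟩ := hwt_exists κ z k
  refine ⟨L, H.bL, ?_, fun h hh => H.lo h (fun p _ => hh p), ?_⟩
  · intro s hs hne
    rw [Finset.mem_powerset] at hs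
    rcases Nat.eq_zero_or_pos z with rfl | hz
    · have : s = ∅ := by
        rw [Finset.eq_empty_iff_forall_notMem]
        intro p hp
        have := Nat.mem_primesLE.mp (hs hp)
        have := this.2.two_le
        omega
      rw [this, Finset.prod_empty]
      exact Nat.one_le_pow _ _ (by omega)
    · refine (H.lev hz s hs (Or.inl hne)).trans ?_
      rw [pow_add (z + 1)]
      apply Nat.mul_le_mul
      · calc W ≤ 2 ^ W := (Nat.lt_two_pow_self).le
          _ ≤ (z + 1) ^ W := Nat.pow_le_pow_left (show 2 ≤ z + 1 by omega) _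
      · exact Nat.pow_le_pow_left (show z ≤ z + 1 by omega) _
  · intro g hg
    have h1 := H.rat g hg
    have h2 := H.up g (fun p hp => ⟨(hg p hp).1, (hg p hp).2.1⟩)
    have h3 := prod_one_sub_nonneg (Nat.primesLE z) g (fun p hp => ⟨(hg p hp).1, (hg p hp).2.1⟩)
    have h4 : (1 - ε) * ∏ p ∈ Nat.primesLE z, (1 - g p) ≤
        (1 - htl κ k) * ∏ p ∈ Nat.primesLE z, (1 - g p) := mul_le_mul_of_nonneg_right (by linarith) h3
    exact (h4.trans (mul_le_mul_of_nonneg_left h2 (by linarith))).trans h1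

end Pool.Agent.HLB
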