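import Pool.Agent.Lib.HLB.Hooley
import Pool.Agent.Lib.HLB.HitCount

/-!
# Lower bound sieve for the primes
-/

set_option autoImplicit false

open Finset Filter

namespace Pool.Agent.HLB

open Pool.Agent.Lib.Sieve4

/-- The Moebius-type weight of `n`. -/
noncomputable def hit (F : ℕ → Finset ℕ) (n q : ℕ) : ℝ := if n % q ∈ F q then 1 else 0

lemma hit_mem (F : ℕ → Finset ℕ) (n q : ℕ) : 0 ≤ hit F n q ∧ hit F n q ≤ 1 := by
  unfold hit
  split_ifs <;> norm_num

lemma prod_hit (F : ℕ → Finset ℕ) (n : ℕ) (s : Finset ℕ) :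
    ∏ q ∈ s, hit F n q = if ∀ q ∈ s, n % q ∈ F q then 1 else 0 := by
  classical
  unfold hit
  rw [Finset.prod_ite_zero, Finset.prod_const_one]

lemma prod_one_sub_hit (F : ℕ → Finset ℕ) (n : ℕ) (s : Finset ℕ) :
    ∏ q ∈ s, (1 - hit F n q) = if ∀ q ∈ s, n % q ∉ F q then 1 else 0 := by
  classical
  have h1 : ∀ q ∈ s, (1 - hit F n q) = if n % q ∉ F q then (1 : ℝ) else 0 := by
    intro q _
    unfold hit
    by_cases h : n % q ∈ F q
    · simp [h]
    · simp [h]
  rw [Finset.prod_congr rfl h1, Finset.prod_ite_zero, Finset.prod_const_one]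

/-- Sum of `log n` over the hits of `s`. -/
noncomputable def Th (T : Finset ℕ) (F : ℕ → Finset ℕ) (s : Finset ℕ) : ℝ :=
  ∑ n ∈ T.filter (fun n => ∀ q ∈ s, n % q ∈ F q), Real.log n

/-- The combinatorial part: the sieve inequality summed over `T`. -/
lemma sieve_sum (T : Finset ℕ) (F : ℕ → Finset ℕ) (z : ℕ) (lam : Finset ℕ → ℝ)
    (hlo : ∀ h : ℕ → ℝ, (∀ p, 0 ≤ h p ∧ h p ≤ 1) →
      ∑ s ∈ (Nat.primesLE z).powerset, lam s * ∏ p ∈ s, h p ≤ ∏ p ∈ Nat.primesLE z, (1 - h p)) :
    ∑ s ∈ (Nat.primesLE z).powerset, lam s * Th T F s ≤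
      ∑ n ∈ T.filter (fun n => ∀ q ∈ Nat.primesLE z, n % q ∉ F q), Real.log n := by
  classical
  have h1 : ∀ s, Th T F s = ∑ n ∈ T, (∏ q ∈ s, hit F n q) * Real.log n := by
    intro s
    unfold Th
    rw [Finset.sum_filter]
    apply Finset.sum_congr rfl
    intro n _
    rw [prod_hit]
    split_ifs <;> ring
  have h2 : ∑ n ∈ T.filter (fun n => ∀ q ∈ Nat.primesLE z, n % q ∉ F q), Real.log n =
      ∑ n ∈ T, (∏ q ∈ Nat.primesLE z, (1 - hit F n q)) * Real.log n := by
    rw [Finset.sum_filter]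
    apply Finset.sum_congr rfl
    intro n _
    rw [prod_one_sub_hit]
    split_ifs <;> ring
  rw [h2]
  simp only [h1]
  calc ∑ s ∈ (Nat.primesLE z).powerset, lam s * ∑ n ∈ T, (∏ q ∈ s, hit F n q) * Real.log n =
      ∑ n ∈ T, (∑ s ∈ (Nat.primesLE z).powerset, lam s * ∏ q ∈ s, hit F n q) * Real.log n := by
        simp only [Finset.mul_sum, Finset.sum_mul]
        rw [Finset.sum_comm]
        apply Finset.sum_congr rfl
        intro n _
        apply Finset.sum_congr rfl
        intro s _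
        ring
    _ ≤ _ := by
        apply Finset.sum_le_sum
        intro n _
        exact mul_le_mul_of_nonneg_right (hlo _ (hit_mem F n)) (Real.log_natCast_nonneg n)

/-- The distribution in residue classes. -/
lemma Th_main (F : ℕ → Finset ℕ) (x : ℕ) {y : ℝ} (hy0 : 0 ≤ y) (hyx : y ≤ x) (s : Finset ℕ)
    (hs : ∀ p ∈ s, p.Prime) (hF : ∀ p ∈ s, F p ⊆ Ico 1 p) (Err : ℝ) (hErr0 : 0 ≤ Err)
    (hErr : ∀ b : ℕ, Nat.Coprime b (∏ p ∈ s, p) →
      |(thetaAP x (∏ p ∈ s, p) b - thetaAP y (∏ p ∈ s, p) b) -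
        (x - y) / (Nat.totient (∏ p ∈ s, p) : ℝ)| ≤ Err) :
    |Th ((Icc 1 x).filter (fun n : ℕ => y < n ∧ n.Prime)) F s -
      (x - y) * ∏ q ∈ s, (((F q).card : ℝ) / ((q : ℝ) - 1))| ≤ (∏ p ∈ s, p : ℕ) * Err := by
  classical
  set d := ∏ p ∈ s, p with hd
  have hFr : ∀ p ∈ s, F p ⊆ range p := fun p hp => (hF p hp).trans (by
    intro a ha
    rw [Finset.mem_Ico] at ha
    exact Finset.mem_range.mpr ha.2)
  have hF0 : ∀ p ∈ s, 0 ∉ F p := fun p hp h0 => by
    have := Finset.mem_Ico.mp (hF p hp h0)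
    omega
  set Bs := (range d).filter (fun b => ∀ q ∈ s, b % q ∈ F q) with hBs
  have h1 : Th ((Icc 1 x).filter (fun n : ℕ => y < n ∧ n.Prime)) F s =
      ∑ b ∈ Bs, (thetaAP x d b - thetaAP y d b) := by
    unfold Th
    rw [hits_eq_sum_classes s hs F]
    apply Finset.sum_congr rfl
    intro b _
    exact sum_class_theta x hy0 hyx d b
  have hcard : (Bs.card : ℝ) = ∏ q ∈ s, ((F q).card : ℝ) := card_hits s hs F hFr
  have hcd : (Bs.card : ℝ) ≤ d := by
    have h3 : Bs.card ≤ (range d).card := Finset.card_le_card (Finset.filter_subset _ _)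
    rw [Finset.card_range] at h3
    exact_mod_cast h3
  have htot : (Nat.totient d : ℝ) = ∏ q ∈ s, ((q : ℝ) - 1) := by
    have h4 : Nat.totient d = ∏ q ∈ s, (q - 1) := by
      rw [hd]
      clear_value d
      clear hcd hcard h1 hBs Bs hErr hd
      induction s using Finset.induction_on with
      | empty => simp
      | insert a s ha ih =>
        have hap := hs a (Finset.mem_insert_self _ _)
        rw [Finset.prod_insert ha, Finset.prod_insert ha, Nat.totient_mul, Nat.totient_prime hap,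
          ih (fun p hp => hs p (Finset.mem_insert_of_mem hp))
            (fun p hp => hF p (Finset.mem_insert_of_mem hp))
            (fun p hp => hFr p (Finset.mem_insert_of_mem hp))
            (fun p hp => hF0 p (Finset.mem_insert_of_mem hp))]
        apply Nat.Coprime.prod_right
        intro p hp
        rw [Nat.coprime_primes hap (hs p (Finset.mem_insert_of_mem hp))]
        rintro rfl
        exact ha hp
    rw [h4]
    push_cast
    apply Finset.prod_congr rfl
    intro q hq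
    rw [Nat.cast_sub (hs q hq).one_lt.le]
    simp
  have h5 : (x - y) * ∏ q ∈ s, (((F q).card : ℝ) / ((q : ℝ) - 1)) =
      ∑ _b ∈ Bs, (x - y) / (Nat.totient d : ℝ) := by
    rw [Finset.sum_const, nsmul_eq_mul, hcard, htot, Finset.prod_div_distrib]
    ring
  rw [h1, h5, ← Finset.sum_sub_distrib]
  refine (Finset.abs_sum_le_sum_abs _ _).trans ?_
  calc ∑ b ∈ Bs, |thetaAP x d b - thetaAP y d b - (x - y) / (Nat.totient d : ℝ)| ≤
      ∑ _b ∈ Bs, Err := by
        apply Finset.sum_le_sum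
        intro b hb
        apply hErr
        exact coprime_of_hits s hs F hF0 b (Finset.mem_filter.mp hb).2
    _ = Bs.card * Err := by rw [Finset.sum_const, nsmul_eq_mul]
    _ ≤ d * Err := mul_le_mul_of_nonneg_right hcd hErr0

theorem prime_sieve (hSW : SW) (κ : ℕ) {η ε : ℝ} (hη0 : 0 < η) (hη1 : η < 1) (hε : 0 < ε) (M : ℕ) :
    ∀ᶠ x : ℕ in atTop, ∀ z : ℕ, (z : ℝ) ≤ Real.log x → ∀ F : ℕ → Finset ℕ,
      (∀ q ∈ Nat.primesLE z, F q ⊆ Ico 1 q ∧ (F q).card ≤ κ) →
      (1 - η - ε) * (x / Real.log x) *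
          ∏ q ∈ Nat.primesLE z, (1 - ((F q).card : ℝ) / ((q : ℝ) - 1)) - x / Real.log x ^ M
        ≤ (((Icc 1 x).filter (fun n : ℕ => (η * x < n ∧ n.Prime) ∧
            ∀ q ∈ Nat.primesLE z, n % q ∉ F q)).card : ℝ) := by
  classical
  obtain ⟨K, hK⟩ := hooley κ hε
  set A : ℕ := 2 * K + M with hA
  obtain ⟨C, hC, hCb⟩ := hSW A
  simp only [Real.rpow_natCast] at hCb
  have hlim : Tendsto (fun n : ℕ => Real.log (n : ℝ)) atTop atTop :=
    Real.tendsto_log_atTop.comp tendsto_natCast_atTop_atTop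
  set C2 : ℝ := 2 ^ (2 * K) * (2 * C * 2 ^ A) with hC2
  filter_upwards [hlim.eventually (eventually_ge_atTop (2 * (-Real.log η))),
    hlim.eventually (eventually_ge_atTop 8), hlim.eventually (eventually_ge_atTop C2),
    eventually_ge_atTop 1] with x hxη hx8 hxC hx1 z hz F hF
  set L := Real.log (x : ℝ) with hL
  have hx0 : (0 : ℝ) < x := by exact_mod_cast hx1
  have hL0 : 0 < L := by linarith
  have hlogη : Real.log (η * x) = Real.log η + L := Real.log_mul hη0.ne' hx0.ne'
  set L1 := Real.log (η * x) with hL1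
  have hL1L : L / 2 ≤ L1 := by linarith
  have hL14 : 4 ≤ L1 := by linarith
  have hLL1 : L1 ≤ L := by
    have := Real.log_neg hη0 hη1
    linarith
  have hηx2 : 2 ≤ η * x := by
    have h1 : (0 : ℝ) < η * x := by positivity
    have h2 : Real.log 2 ≤ Real.log (η * x) := by
      have := Real.log_two_lt_d9
      rw [← hL1]
      linarith
    exact (Real.log_le_log_iff (by norm_num) h1).mp h2
  have hηxx : η * x ≤ x := by nlinarith
  have hx2 : (2 : ℝ) ≤ x := hηx2.trans hηxx
  obtain ⟨lam, hl1, hl2, hl3, hl4⟩ := hK z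
  set y : ℝ := η * x with hy
  set T := (Icc 1 x).filter (fun n : ℕ => y < n ∧ n.Prime) with hT
  have hcomb := sieve_sum T F z lam hl3
  -- the size of the modulus
  have hz1 : ((z + 1 : ℕ) : ℝ) ≤ 2 * L := by
    push_cast
    linarith
  have hzK : (((z + 1) ^ K : ℕ) : ℝ) ≤ L1 ^ A := by
    push_cast
    calc ((z : ℝ) + 1) ^ K ≤ (2 * L) ^ K := by
          apply pow_le_pow_left₀ (by positivity)
          exact_mod_cast hz1
      _ ≤ (L1 * L1) ^ K := by
          apply pow_le_pow_left₀ (by positivity)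
          nlinarith
      _ = L1 ^ (2 * K) := by
          rw [← pow_two, ← pow_mul]
      _ ≤ L1 ^ A := pow_le_pow_right₀ (by linarith) (by omega)
  set Err : ℝ := 2 * C * x / L1 ^ A with hErr
  have hErr0 : 0 ≤ Err := by positivity
  have hTh : ∀ s ∈ (Nat.primesLE z).powerset, lam s ≠ 0 →
      |Th T F s - (x - y) * ∏ q ∈ s, (((F q).card : ℝ) / ((q : ℝ) - 1))| ≤
        (((z + 1) ^ K : ℕ) : ℝ) * Err := by
    intro s hs hne
    have hd := hl2 s hs hne
    rw [Finset.mem_powerset] at hs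
    have hsp : ∀ p ∈ s, p.Prime := fun p hp => (Nat.mem_primesLE.mp (hs hp)).2
    have hdpos : 1 ≤ ∏ p ∈ s, p := Finset.prod_pos (fun p hp => (hsp p hp).pos)
    have hdR : ((∏ p ∈ s, p : ℕ) : ℝ) ≤ (((z + 1) ^ K : ℕ) : ℝ) := by exact_mod_cast hd
    have hdL1 : ((∏ p ∈ s, p : ℕ) : ℝ) ≤ L1 ^ A := hdR.trans hzK
    have key := Th_main F x (y := y) (by positivity) hηxx s hsp
      (fun p hp => (hF p (hs hp)).1) Err hErr0 (by
      intro b hb
      have h1 := hCb x hx2 (∏ p ∈ s, p) b hdpos (by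
        rw [← hL]
        exact hdL1.trans (pow_le_pow_left₀ (by linarith) hLL1 _)) hb
      have h2 := hCb y hηx2 (∏ p ∈ s, p) b hdpos hdL1 hb
      have h3 : C * (x : ℝ) / L ^ A ≤ C * x / L1 ^ A := by
        apply div_le_div_of_nonneg_left (by positivity) (by positivity)
        exact pow_le_pow_left₀ (by linarith) hLL1 _
      have h4 : C * y / L1 ^ A ≤ C * x / L1 ^ A := by
        apply div_le_div_of_nonneg_right _ (by positivity)
        exact mul_le_mul_of_nonneg_left hηxx hC.le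
      have h5 : Err = C * x / L1 ^ A + C * x / L1 ^ A := by
        rw [hErr]
        ring
      rw [h5]
      have h6 : thetaAP x (∏ p ∈ s, p) b - thetaAP y (∏ p ∈ s, p) b -
          (x - y) / (Nat.totient (∏ p ∈ s, p) : ℝ) =
          (thetaAP x (∏ p ∈ s, p) b - x / (Nat.totient (∏ p ∈ s, p) : ℝ)) -
            (thetaAP y (∏ p ∈ s, p) b - y / (Nat.totient (∏ p ∈ s, p) : ℝ)) := by ring
      rw [h6]
      refine (abs_sub _ _).trans ?_
      exact add_le_add (h1.trans h3) (h2.trans h4))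
    exact key.trans (mul_le_mul_of_nonneg_right hdR hErr0)
  -- the main term
  set g : ℕ → ℝ := fun q => ((F q).card : ℝ) / ((q : ℝ) - 1) with hg
  have hgadm : ∀ p ∈ Nat.primesLE z, 0 ≤ g p ∧ g p ≤ 1 ∧ g p * ((p : ℝ) - 1) ≤ κ := by
    intro p hp
    have hpp := (Nat.mem_primesLE.mp hp).2
    have hp2 : (2 : ℝ) ≤ p := by exact_mod_cast hpp.two_le
    have hp1 : (0 : ℝ) < (p : ℝ) - 1 := by linarith
    have hc1 : ((F p).card : ℝ) ≤ (p : ℝ) - 1 := by
      have h1 := Finset.card_le_card (hF p hp).1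
      rw [Nat.card_Ico] at h1
      have h2 : ((F p).card : ℝ) ≤ ((p - 1 : ℕ) : ℝ) := by exact_mod_cast h1
      rw [Nat.cast_sub hpp.one_lt.le] at h2
      simpa using h2
    refine ⟨by positivity, ?_, ?_⟩
    · simp only [hg]
      rw [div_le_one hp1]
      exact hc1
    · simp only [hg]
      rw [div_mul_cancel₀ _ hp1.ne']
      exact_mod_cast (hF p hp).2
  have hmain := hl4 g hgadm
  have hP0 : 0 ≤ ∏ p ∈ Nat.primesLE z, (1 - g p) :=
    Finset.prod_nonneg (fun p hp => by linarith [(hgadm p hp).2.1])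
  -- the total error
  have hlow : (x - y) * ∑ s ∈ (Nat.primesLE z).powerset, lam s * ∏ p ∈ s, g p -
      (((z + 1) ^ K : ℕ) : ℝ) * ((((z + 1) ^ K : ℕ) : ℝ) * Err) ≤
      ∑ s ∈ (Nat.primesLE z).powerset, lam s * Th T F s := by
    rw [Finset.mul_sum, sub_le_iff_le_add, ← sub_le_iff_le_add', ← Finset.sum_sub_distrib]
    have h1 : ∀ s ∈ (Nat.primesLE z).powerset,
        (x - y) * (lam s * ∏ p ∈ s, g p) - lam s * Th T F s ≤
          if ∏ p ∈ s, p ≤ (z + 1) ^ K then (((z + 1) ^ K : ℕ) : ℝ) * Err else 0 := by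
      intro s hs
      by_cases hne : lam s = 0
      · rw [hne]
        simp only [zero_mul, mul_zero, sub_zero]
        split_ifs <;> positivity
      · rw [if_pos (hl2 s hs hne)]
        have h2 := hTh s hs hne
        have h3 : (x - y) * (lam s * ∏ p ∈ s, g p) - lam s * Th T F s =
            -(lam s * (Th T F s - (x - y) * ∏ p ∈ s, g p)) := by ring
        rw [h3]
        refine (neg_le_abs _).trans ?_
        rw [abs_mul]
        calc |lam s| * |Th T F s - (x - y) * ∏ p ∈ s, g p| ≤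
            1 * |Th T F s - (x - y) * ∏ p ∈ s, g p| :=
              mul_le_mul_of_nonneg_right (hl1 s) (abs_nonneg _)
          _ ≤ _ := by rw [one_mul]; exact h2
    refine (Finset.sum_le_sum h1).trans ?_
    rw [← Finset.sum_filter, Finset.sum_const, nsmul_eq_mul]
    apply mul_le_mul_of_nonneg_right _ (by positivity)
    exact_mod_cast card_DD_le (Nat.primesLE z) (fun p hp => (Nat.mem_primesLE.mp hp).2) ((z + 1) ^ K)
  have hupp : ∑ n ∈ T.filter (fun n => ∀ q ∈ Nat.primesLE z, n % q ∉ F q), Real.log n ≤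
      L * ((T.filter (fun n => ∀ q ∈ Nat.primesLE z, n % q ∉ F q)).card : ℝ) := by
    rw [mul_comm, ← nsmul_eq_mul, ← Finset.sum_const]
    apply Finset.sum_le_sum
    intro n hn
    have h1 := (Finset.mem_filter.mp (Finset.mem_filter.mp hn).1).1
    rw [Finset.mem_Icc] at h1
    apply Real.log_le_log
    · exact_mod_cast h1.1
    · exact_mod_cast h1.2
  have hTf : T.filter (fun n => ∀ q ∈ Nat.primesLE z, n % q ∉ F q) =
      (Icc 1 x).filter (fun n : ℕ => (y < n ∧ n.Prime) ∧ ∀ q ∈ Nat.primesLE z, n % q ∉ F q) := by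
    rw [hT, Finset.filter_filter]
  rw [hTf] at hcomb hupp
  set X : ℝ := (((Icc 1 x).filter (fun n : ℕ => (y < n ∧ n.Prime) ∧
    ∀ q ∈ Nat.primesLE z, n % q ∉ F q)).card : ℝ) with hX
  set P := ∏ p ∈ Nat.primesLE z, (1 - g p) with hP
  have hxy : (x : ℝ) - y = (1 - η) * x := by rw [hy]; ring
  have hxy0 : 0 ≤ (x : ℝ) - y := by linarith
  have hmain2 : (x - y) * ((1 - ε) * P) ≤
      (x - y) * ∑ s ∈ (Nat.primesLE z).powerset, lam s * ∏ p ∈ s, g p :=
    mul_le_mul_of_nonneg_left hmain hxy0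
  have herr : (((z + 1) ^ K : ℕ) : ℝ) * ((((z + 1) ^ K : ℕ) : ℝ) * Err) ≤ L * (x / L ^ M) := by
    have h1 : (((z + 1) ^ K : ℕ) : ℝ) ≤ (2 * L) ^ K := by
      push_cast
      apply pow_le_pow_left₀ (by positivity)
      exact_mod_cast hz1
    have h2 : Err ≤ 2 * C * x * 2 ^ A / L ^ A := by
      rw [hErr, div_le_div_iff₀ (by positivity) (by positivity)]
      have h3 : L ^ A ≤ 2 ^ A * L1 ^ A := by
        rw [← mul_pow]
        apply pow_le_pow_left₀ hL0.le
        linarith
      calc 2 * C * x * L ^ A ≤ 2 * C * x * (2 ^ A * L1 ^ A) :=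
            mul_le_mul_of_nonneg_left h3 (by positivity)
        _ = 2 * C * x * 2 ^ A * L1 ^ A := by ring
    calc (((z + 1) ^ K : ℕ) : ℝ) * ((((z + 1) ^ K : ℕ) : ℝ) * Err) ≤
        (2 * L) ^ K * ((2 * L) ^ K * (2 * C * x * 2 ^ A / L ^ A)) := by gcongr
      _ = C2 * (x / L ^ M) := by
          rw [hC2, hA, pow_add L, mul_pow, pow_mul' 2 2 K, pow_mul' L 2 K]
          field_simp
      _ ≤ L * (x / L ^ M) := mul_le_mul_of_nonneg_right hxC (by positivity)
  have hfin : (1 - η - ε) * x * P - L * (x / L ^ M) ≤ L * X := by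
    have h1 : (1 - η - ε) * x * P ≤ (x - y) * ((1 - ε) * P) := by
      rw [hxy]
      have : (1 - η) * x * ((1 - ε) * P) - (1 - η - ε) * x * P = η * ε * (x * P) := by ring
      have h2 : 0 ≤ η * ε * (x * P) := by positivity
      linarith
    linarith
  have hfin2 : L * ((1 - η - ε) * (x / L) * P - x / L ^ M) ≤ L * X := by
    have : L * ((1 - η - ε) * (x / L) * P - x / L ^ M) =
        (1 - η - ε) * x * P - L * (x / L ^ M) := by
      field_simp
    rw [this]
    exact hfin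
  exact le_of_mul_le_mul_left hfin2 hL0

end Pool.Agent.HLB
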