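import Pool.Agent.Lib.HLB.SingTail
import Pool.Agent.Lib.HLB.T1Lower

/-!
# The Hardy-Littlewood lower bound for every weight on the shifts, final forms
-/

set_option autoImplicit false

open Finset Filter

namespace Pool.Agent.HLB

open Pool.Agent.HL Pool.Agent.Lib.Sieve4

lemma injTuples_subset (r : ℕ) (A : Finset ℕ) :
    injTuples r A ⊆ Fintype.piFinset (fun _ : Fin r => A) := Finset.filter_subset _ _

lemma prod_w_nonneg {r : ℕ} {A : Finset ℕ} {w : ℕ → ℝ} (hw : ∀ a ∈ A, 0 ≤ w a) {a : Fin r → ℕ}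
    (ha : a ∈ injTuples r A) : 0 ≤ ∏ i, w (a i) :=
  Finset.prod_nonneg fun i _ => hw _ ((mem_injTuples.mp ha).1 i)

/-- The lower bound for weights, full singular series; and the version without singular series. -/
theorem t1_lower (hSW : SW) (r : ℕ) (hr : 2 ≤ r) {ε : ℝ} (hε : 0 < ε) : ∃ η : ℝ, 0 < η ∧
    ∀ᶠ x : ℕ in atTop, ∀ A : Finset ℕ, (∀ a ∈ A, (a : ℝ) ≤ η * x) → ∀ w : ℕ → ℝ,
      (∀ a ∈ A, 0 ≤ w a ∧ w a ≤ 1) →
      (1 - ε - (r : ℝ) * (r - 1) / 2 * (Real.log x / ∑ a ∈ A, w a)) *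
          ((x / Real.log x ^ r) * ∑ a ∈ injTuples r A, (∏ i, w (a i)) * SI a)
        ≤ ∑ a ∈ injTuples r A, (∏ i, w (a i)) * (cnt a x : ℝ) ∧
      (1 - ε - (r : ℝ) * (r - 1) / 2 * (Real.log x / ∑ a ∈ A, w a)) *
          ((x / Real.log x ^ r) * (∑ a ∈ A, w a) ^ r)
        ≤ ∑ a ∈ injTuples r A, (∏ i, w (a i)) * (cnt a x : ℝ) := by
  obtain ⟨η, hη, hmain⟩ := t1_lower_aux hSW r hr (ε := ε / 2) (by positivity)
  refine ⟨min η 1, lt_min hη one_pos, ?_⟩
  filter_upwards [hmain, sing_tail r r (by omega) (ε := ε / 2) (by positivity), eventually_ge_atTop 2]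
    with x hx1 hx2 hx3 A hA w hw
  have hw0 : ∀ a ∈ A, 0 ≤ w a := fun a ha => (hw a ha).1
  have hxpos : (0:ℝ) < x := by exact_mod_cast (by omega : 0 < x)
  have hL0 : 0 ≤ Real.log x := Real.log_natCast_nonneg x
  have hX0 : 0 ≤ (x:ℝ) / Real.log x ^ r := by positivity
  have hS0 : 0 ≤ ∑ a ∈ injTuples r A, (∏ i, w (a i)) * (cnt a x : ℝ) :=
    Finset.sum_nonneg fun a ha => mul_nonneg (prod_w_nonneg hw0 ha) (Nat.cast_nonneg _)
  rcases (Finset.sum_nonneg hw0).eq_or_lt with hzero | hpos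
  · -- all weights vanish
    have hwz : ∀ a ∈ A, w a = 0 := (Finset.sum_eq_zero_iff_of_nonneg hw0).mp hzero.symm
    have hpz : ∀ a ∈ injTuples r A, ∏ i, w (a i) = 0 := by
      intro a ha
      refine Finset.prod_eq_zero (mem_univ (⟨0, by omega⟩ : Fin r)) ?_
      exact hwz _ ((mem_injTuples.mp ha).1 _)
    have e1 : ∑ a ∈ injTuples r A, (∏ i, w (a i)) * SI a = 0 :=
      Finset.sum_eq_zero fun a ha => by rw [hpz a ha, zero_mul]
    constructor
    · rw [e1, mul_zero, mul_zero]; exact hS0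
    · rw [← hzero, zero_pow (by omega), mul_zero, mul_zero]; exact hS0
  have hAx : ∀ a ∈ A, (a:ℝ) ≤ η * x := fun a ha =>
    (hA a ha).trans (mul_le_mul_of_nonneg_right (min_le_left _ _) hxpos.le)
  have hAx' : ∀ a ∈ A, a ≤ x := by
    intro a ha
    have h := (hA a ha).trans (mul_le_mul_of_nonneg_right (min_le_right _ _) hxpos.le)
    rw [one_mul] at h
    exact_mod_cast h
  have h1 := hx1 A hAx w hw hpos
  set c : ℝ := (r : ℝ) * (r - 1) / 2 * (Real.log x / ∑ a ∈ A, w a) with hc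
  have hc0 : 0 ≤ c := by
    have : (2:ℝ) ≤ r := by exact_mod_cast hr
    have h2 : 0 ≤ (r:ℝ) - 1 := by linarith
    positivity
  set G := GW r (zz r x) A w with hG
  have hG0 : 0 ≤ G := GW_nonneg _ _ _ _ hw0
  have hpd : (∑ a ∈ A, w a) ^ r ≤ G := posdef r (zz r x) (by omega) A w hw0
  have hinjG : ∑ a ∈ injTuples r A, (∏ i, w (a i)) * SI a ≤ (1 + ε / 2) * G := by
    have h3 : ∑ a ∈ injTuples r A, (∏ i, w (a i)) * SI a
        ≤ ∑ a ∈ injTuples r A, (1 + ε / 2) * ((∏ i, w (a i)) * SZ (zz r x) a) := by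
      refine Finset.sum_le_sum fun a ha => ?_
      have hmem := mem_injTuples.mp ha
      have h4 := hx2 (Fin r) a (Fintype.card_fin r) hmem.2 (fun i => hAx' _ (hmem.1 i))
      have h5 := mul_le_mul_of_nonneg_left h4 (prod_w_nonneg hw0 ha)
      linarith
    refine h3.trans ?_
    rw [← Finset.mul_sum, hG]
    unfold GW
    refine mul_le_mul_of_nonneg_left ?_ (by positivity)
    refine Finset.sum_le_sum_of_subset_of_nonneg (injTuples_subset r A) fun a ha _ => ?_
    refine mul_nonneg (Finset.prod_nonneg fun i _ => ?_) (SZ_nonneg _ _)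
    exact hw0 _ (Fintype.mem_piFinset.mp ha i)
  rcases le_or_gt (1 - ε - c) 0 with hneg | hpos'
  · constructor
    · refine le_trans (mul_nonpos_of_nonpos_of_nonneg hneg (mul_nonneg hX0 ?_)) hS0
      exact Finset.sum_nonneg fun a ha => mul_nonneg (prod_w_nonneg hw0 ha)
        (SI_nonneg a (mem_injTuples.mp ha).2)
    · exact le_trans (mul_nonpos_of_nonpos_of_nonneg hneg (by positivity)) hS0
  · constructor
    · calc (1 - ε - c) * ((x / Real.log x ^ r) * ∑ a ∈ injTuples r A, (∏ i, w (a i)) * SI a)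
          ≤ (1 - ε - c) * ((x / Real.log x ^ r) * ((1 + ε / 2) * G)) := by gcongr
        _ = ((1 - ε - c) * (1 + ε / 2)) * ((x / Real.log x ^ r) * G) := by ring
        _ ≤ (1 - ε / 2 - c) * ((x / Real.log x ^ r) * G) := by
            refine mul_le_mul_of_nonneg_right ?_ (by positivity)
            nlinarith
        _ ≤ _ := h1
    · calc (1 - ε - c) * ((x / Real.log x ^ r) * (∑ a ∈ A, w a) ^ r)
          ≤ (1 - ε - c) * ((x / Real.log x ^ r) * G) := by gcongr
        _ ≤ (1 - ε / 2 - c) * ((x / Real.log x ^ r) * G) := by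
            refine mul_le_mul_of_nonneg_right (by linarith) (by positivity)
        _ ≤ _ := h1

/-- The lower bound for sets. -/
theorem t1_set (hSW : SW) (r : ℕ) (hr : 2 ≤ r) {ε : ℝ} (hε : 0 < ε) : ∃ η : ℝ, 0 < η ∧
    ∀ᶠ x : ℕ in atTop, ∀ A : Finset ℕ, (∀ a ∈ A, (a : ℝ) ≤ η * x) →
      (1 - ε - (r : ℝ) * (r - 1) / 2 * (Real.log x / A.card)) *
          ((x / Real.log x ^ r) * ∑ a ∈ injTuples r A, SI a)
        ≤ ∑ a ∈ injTuples r A, (cnt a x : ℝ) ∧
      (1 - ε - (r : ℝ) * (r - 1) / 2 * (Real.log x / A.card)) *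
          ((x / Real.log x ^ r) * (A.card : ℝ) ^ r)
        ≤ ∑ a ∈ injTuples r A, (cnt a x : ℝ) := by
  obtain ⟨η, hη, hmain⟩ := t1_lower hSW r hr hε
  refine ⟨η, hη, ?_⟩
  filter_upwards [hmain] with x hx A hA
  have h := hx A hA (fun _ => 1) (fun _ _ => ⟨zero_le_one, le_refl _⟩)
  simpa using h

/-- Positive proportion. -/
theorem t1_proportion (hSW : SW) (r : ℕ) (hr : 2 ≤ r) {ρ : ℝ} (hρ0 : 0 < ρ) (hρ : ρ < 1) :
    ∃ C δ η : ℝ, 0 < C ∧ 0 < δ ∧ 0 < η ∧ ∀ᶠ x : ℕ in atTop, ∀ A : Finset ℕ,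
      (∀ a ∈ A, (a : ℝ) ≤ η * x) → C * Real.log x ≤ A.card →
      ∃ G ⊆ injTuples r A,
        (∀ a ∈ G, (∀ p : ℕ, p.Prime → nuI a p < p) ∧
          ρ * SI a * (x / Real.log x ^ r) ≤ cnt a x) ∧
        δ * ∑ a ∈ injTuples r A, SI a ≤ ∑ a ∈ G, SI a ∧
        δ * (A.card : ℝ) ^ r ≤ ∑ a ∈ G, SI a := by
  classical
  have hrR : (2:ℝ) ≤ r := by exact_mod_cast hr
  obtain ⟨K, hK, hKup⟩ := tuple_upperI r (by omega)
  obtain ⟨η, hη, hmain⟩ := t1_set hSW r hr (ε := (1 - ρ) / 8) (by linarith)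
  set c : ℝ := (r : ℝ) * (r - 1) / 2 with hc
  have hcpos : 0 < c := by rw [hc]; nlinarith
  set δ : ℝ := min ((1 - ρ) / (4 * K)) (1 / (4 * (K + ρ)) * ((1 - ρ) / (4 * K))) with hδ
  have hδ1 : 0 < (1 - ρ) / (4 * K) := by
    have : 0 < 1 - ρ := by linarith
    positivity
  have hδpos : 0 < δ := lt_min hδ1 (by positivity)
  have hC0 : 0 < 8 * c / (1 - ρ) := by
    have : 0 < 1 - ρ := by linarith
    positivity
  refine ⟨8 * c / (1 - ρ), δ, η, hC0, hδpos, hη, ?_⟩
  have htend : Tendsto (fun x : ℕ => (x:ℝ) / Real.log x ^ r) atTop atTop := by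
    have h1 : Tendsto (fun x : ℝ => x / Real.log x ^ r) atTop atTop := by
      have h2 := (Real.isLittleO_pow_log_id_atTop (n := r)).tendsto_div_nhds_zero
      have h3 : Tendsto (fun x : ℝ => Real.log x ^ r / x) atTop (nhdsWithin 0 (Set.Ioi 0)) := by
        rw [tendsto_nhdsWithin_iff]
        refine ⟨h2, ?_⟩
        filter_upwards [eventually_gt_atTop 1] with x hx
        have := Real.log_pos hx
        exact Set.mem_Ioi.mpr (by positivity)
      have h4 := h3.inv_tendsto_nhdsGT_zero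
      refine h4.congr fun x => ?_
      simp
    exact h1.comp tendsto_natCast_atTop_atTop
  filter_upwards [hmain, htend.eventually_ge_atTop (8 * r / (1 - ρ)),
    htend.eventually_ge_atTop (4 * r), eventually_ge_atTop 3] with x hx1 hx2 hx2' hx3 A hA hAC
  have hρ' : 0 < 1 - ρ := by linarith
  have hx3R : (3:ℝ) ≤ x := by exact_mod_cast hx3
  have hlog : 0 < Real.log x := Real.log_pos (by linarith)
  have hxpos : (0:ℝ) < x := by linarith
  set X : ℝ := x / Real.log x ^ r with hX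
  have hXpos : 0 < X := by positivity
  have hcard : 0 < (A.card : ℝ) := lt_of_lt_of_le (by positivity) hAC
  have hratio : c * (Real.log x / A.card) ≤ (1 - ρ) / 8 := by
    rw [← mul_div_assoc, div_le_iff₀ hcard]
    have h := mul_le_mul_of_nonneg_left hAC (by positivity : 0 ≤ (1 - ρ) / 8)
    have e : (1 - ρ) / 8 * (8 * c / (1 - ρ) * Real.log x) = c * Real.log x := by
      field_simp
    linarith
  obtain ⟨h1, h2⟩ := hx1 A hA
  set SS1 : ℝ := ∑ a ∈ injTuples r A, SI a with hSS1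
  set CC : ℝ := ∑ a ∈ injTuples r A, (cnt a x : ℝ) with hCC
  have hSS0 : 0 ≤ SS1 := Finset.sum_nonneg fun a ha => SI_nonneg a (mem_injTuples.mp ha).2
  have hfac : 1 - (1 - ρ) / 4 ≤ 1 - (1 - ρ) / 8 - c * (Real.log x / A.card) := by linarith
  have h1' : (1 - (1 - ρ) / 4) * (X * SS1) ≤ CC :=
    (mul_le_mul_of_nonneg_right hfac (by positivity)).trans h1
  have h2' : (1 - (1 - ρ) / 4) * (X * (A.card : ℝ) ^ r) ≤ CC :=
    (mul_le_mul_of_nonneg_right hfac (by positivity)).trans h2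
  set P : (Fin r → ℕ) → Prop := fun a => (∀ p : ℕ, p.Prime → nuI a p < p) ∧
          ρ * SI a * X ≤ cnt a x with hP
  refine ⟨(injTuples r A).filter P, Finset.filter_subset _ _, fun a ha => (mem_filter.mp ha).2, ?_⟩
  set SG : ℝ := ∑ a ∈ (injTuples r A).filter P, SI a with hSG
  -- upper bound for the counts
  have hub : CC ≤ K * X * SG + ρ * X * SS1 + r * (A.card : ℝ) ^ r := by
    have hpt : ∀ a ∈ injTuples r A, (cnt a x : ℝ) ≤ (if P a then K * X * SI a else 0)
        + ρ * X * SI a + r := by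
      intro a ha
      have hinj := (mem_injTuples.mp ha).2
      have hSI0 := SI_nonneg a hinj
      have hρS : 0 ≤ ρ * X * SI a := by positivity
      have hr0 : (0:ℝ) ≤ r := by positivity
      by_cases hadm : ∀ p : ℕ, p.Prime → nuI a p < p
      · by_cases hPa : P a
        · rw [if_pos hPa]
          have h3 := hKup (Fin r) a (Fintype.card_fin r) hinj hadm x (by omega)
          have h4 : (cnt a x : ℝ) ≤ K * SI a * (x / Real.log x ^ r) := h3
          have h5 : K * SI a * (x / Real.log x ^ r) = K * X * SI a := by rw [hX]; ring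
          linarith
        · rw [if_neg hPa]
          have h6 : ¬ ρ * SI a * X ≤ cnt a x := fun h => hPa ⟨hadm, h⟩
          push Not at h6
          have h7 : ρ * SI a * X = ρ * X * SI a := by ring
          linarith
      · push Not at hadm
        obtain ⟨p, hp, hnp⟩ := hadm
        have h8 := count_inadm a hp hnp x
        rw [Fintype.card_fin] at h8
        have h9 : (cnt a x : ℝ) ≤ r := by exact_mod_cast h8
        have h10 : 0 ≤ (if P a then K * X * SI a else 0) := by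
          split_ifs
          · positivity
          · exact le_refl _
        linarith
    have hsum := Finset.sum_le_sum hpt
    rw [Finset.sum_add_distrib, Finset.sum_add_distrib, ← Finset.mul_sum, Finset.sum_const,
      nsmul_eq_mul, ← Finset.sum_filter, ← Finset.mul_sum] at hsum
    have hcardle : ((injTuples r A).card : ℝ) ≤ (A.card : ℝ) ^ r := by
      exact_mod_cast card_injTuples_le r A
    have h11 : ((injTuples r A).card : ℝ) * r ≤ r * (A.card : ℝ) ^ r := by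
      rw [mul_comm]
      exact mul_le_mul_of_nonneg_left hcardle (by positivity)
    linarith
  -- r |A|^r is small
  have hAr : 0 < (A.card : ℝ) ^ r := by positivity
  have hsmall : r * (A.card : ℝ) ^ r ≤ (1 - ρ) / 8 * (X * (A.card : ℝ) ^ r) := by
    have h12 : (r : ℝ) ≤ (1 - ρ) / 8 * X := by
      have := mul_le_mul_of_nonneg_left hx2 (by positivity : 0 ≤ (1 - ρ) / 8)
      have e : (1 - ρ) / 8 * (8 * r / (1 - ρ)) = r := by field_simp
      linarith
    calc (r:ℝ) * (A.card : ℝ) ^ r ≤ ((1 - ρ) / 8 * X) * (A.card : ℝ) ^ r := by gcongr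
      _ = _ := by ring
  have hXA : 0 < X * (A.card : ℝ) ^ r := by positivity
  have hSG0 : 0 ≤ SG := Finset.sum_nonneg fun a ha =>
    SI_nonneg a (mem_injTuples.mp (mem_filter.mp ha).1).2
  -- first: SG ≥ (1-ρ)/(4K) SS1
  have hq : (1 - (1 - ρ) / 4) * (X * (A.card : ℝ) ^ r) ≥ (1/2) * (X * (A.card : ℝ) ^ r) := by
    have : (1:ℝ)/2 ≤ 1 - (1 - ρ) / 4 := by linarith
    exact mul_le_mul_of_nonneg_right this hXA.le
  have hsmall2 : r * (A.card : ℝ) ^ r ≤ (1 - ρ) / 4 * CC := by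
    have : X * (A.card : ℝ) ^ r ≤ 2 * CC := by linarith
    calc r * (A.card : ℝ) ^ r ≤ (1 - ρ) / 8 * (X * (A.card : ℝ) ^ r) := hsmall
      _ ≤ (1 - ρ) / 8 * (2 * CC) := by gcongr
      _ = _ := by ring
  have hA1 : (1 - (1 - ρ) / 4) * CC ≤ K * X * SG + ρ * X * SS1 := by linarith
  have hA2 : (1 - (1 - ρ) / 4) * ((1 - (1 - ρ) / 4) * (X * SS1)) ≤ (1 - (1 - ρ) / 4) * CC :=
    mul_le_mul_of_nonneg_left h1' (by linarith)
  have hA3 : (1 - ρ) / 4 * (X * SS1) ≤ K * X * SG := by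
    have h13 : (1 - (1 - ρ) / 4) * ((1 - (1 - ρ) / 4) * (X * SS1))
        ≥ (1 - (1 - ρ) / 2) * (X * SS1) := by
      have : (1 - (1 - ρ) / 4) * (1 - (1 - ρ) / 4) ≥ 1 - (1 - ρ) / 2 := by nlinarith
      have hXS : 0 ≤ X * SS1 := by positivity
      nlinarith
    have h14 : (1 - (1 - ρ) / 2) * (X * SS1) - ρ * X * SS1 = (1 - ρ) / 2 * (X * SS1) := by ring
    have hXS : 0 ≤ X * SS1 := by positivity
    have h15 : (1 - ρ) / 4 * (X * SS1) ≤ (1 - ρ) / 2 * (X * SS1) := by
      refine mul_le_mul_of_nonneg_right ?_ hXS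
      linarith
    linarith
  have hB1 : (1 - ρ) / (4 * K) * SS1 ≤ SG := by
    rw [div_mul_eq_mul_div, div_le_iff₀ (by positivity)]
    have h16 : X * ((1 - ρ) * SS1) ≤ X * (SG * (4 * K)) := by nlinarith
    exact le_of_mul_le_mul_left h16 hXpos
  -- second: SS1 ≥ |A|^r / (4 (K + ρ))
  have hB2 : (A.card : ℝ) ^ r ≤ 4 * (K + ρ) * SS1 := by
    have hSGle : SG ≤ SS1 := Finset.sum_le_sum_of_subset_of_nonneg (Finset.filter_subset _ _)
      fun a ha _ => SI_nonneg a (mem_injTuples.mp ha).2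
    have h17 : (1/2) * (X * (A.card : ℝ) ^ r) ≤ (K + ρ) * X * SS1 + r * (A.card : ℝ) ^ r := by
      have : K * X * SG ≤ K * X * SS1 := by gcongr
      linarith
    have h18 : r * (A.card : ℝ) ^ r ≤ (1/4) * (X * (A.card : ℝ) ^ r) := by
      have : (r:ℝ) ≤ (1/4) * X := by linarith
      calc (r:ℝ) * (A.card : ℝ) ^ r ≤ ((1/4) * X) * (A.card : ℝ) ^ r := by gcongr
        _ = _ := by ring
    have h19 : X * (A.card : ℝ) ^ r ≤ X * (4 * (K + ρ) * SS1) := by nlinarith
    exact le_of_mul_le_mul_left h19 hXpos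
  constructor
  · refine le_trans ?_ hB1
    exact mul_le_mul_of_nonneg_right (min_le_left _ _) hSS0
  · have hKρ : 0 < 4 * (K + ρ) := by positivity
    calc δ * (A.card : ℝ) ^ r ≤ (1 / (4 * (K + ρ)) * ((1 - ρ) / (4 * K))) * (4 * (K + ρ) * SS1) := by
          refine mul_le_mul (min_le_right _ _) hB2 hAr.le (by positivity)
      _ = (1 - ρ) / (4 * K) * SS1 := by field_simp
      _ ≤ SG := hB1

end Pool.Agent.HLB
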